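import Pool.Agent.K4H47.TR.Pole

/-!
# Generic rank one perturbations: operators all of whose boundary points are poles are algebraic
-/

set_option autoImplicit false
set_option linter.unusedSectionVars false
set_option linter.deprecated false
open Metric Set Filter Topology Polynomial

namespace Pool.Agent.K4H47.TR

/-- removable singularities at finitely many points -/
lemma removable_finite {E : Type} [NormedAddCommGroup E] [NormedSpace ℂ E] [CompleteSpace E]
    {S : Set ℂ} (hS : S.Finite) {f : ℂ → E} (hf : ∀ z, z ∉ S → DifferentiableAt ℂ f z)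
    (hb : ∀ c ∈ S, ∃ C ε : ℝ, 0 < ε ∧ ∀ z, 0 < ‖z - c‖ → ‖z - c‖ < ε → ‖f z‖ ≤ C) :
    ∃ F : ℂ → E, Differentiable ℂ F ∧ ∀ z, z ∉ S → F z = f z := by
  classical
  refine ⟨fun z => if z ∈ S then limUnder (𝓝[≠] z) f else f z, fun z => ?_, fun z hz => by
    simp only [if_neg hz]⟩
  by_cases hz : z ∈ S
  · obtain ⟨C, ε, hε, hC⟩ := hb z hz
    have hS' : (S \ {z}).Finite := hS.subset diff_subset
    have hopen : (S \ {z})ᶜ ∈ 𝓝 z := hS'.isClosed.isOpen_compl.mem_nhds (by simp)
    obtain ⟨r, hr, hr'⟩ := Metric.mem_nhds_iff.1 (inter_mem hopen (ball_mem_nhds z hε))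
    have hs : ball z r ∈ 𝓝 z := ball_mem_nhds z hr
    have h1 := Complex.differentiableOn_update_limUnder_of_bddAbove (f := f) hs (by
      intro w hw
      apply DifferentiableAt.differentiableWithinAt
      apply hf
      intro hwS
      exact (hr' hw.1).1 ⟨hwS, hw.2⟩) (by
      refine ⟨C, ?_⟩
      rintro _ ⟨w, hw, rfl⟩
      have h2 : ‖w - z‖ < ε := by
        have := (hr' hw.1).2
        rwa [mem_ball, dist_eq_norm] at this
      exact hC w (norm_pos_iff.2 (sub_ne_zero.2 hw.2)) h2)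
    have h2 := (h1 z (mem_ball_self hr)).differentiableAt hs
    refine h2.congr_of_eventuallyEq ?_
    filter_upwards [hs] with w hw
    by_cases hwz : w = z
    · subst hwz
      simp [hz]
    · have : w ∉ S := fun hwS => (hr' hw).1 ⟨hwS, hwz⟩
      simp [this, Function.update_of_ne hwz]
  · refine (hf z hz).congr_of_eventuallyEq ?_
    filter_upwards [hS.isClosed.isOpen_compl.mem_nhds hz] with w hw
    have : w ∉ S := hw
    simp [this]

variable {X : Type} [NormedAddCommGroup X] [NormedSpace ℂ X] [CompleteSpace X]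

lemma pow_res {T : X →L[ℂ] X} (lam : ℂ) (k : ℕ) : ∃ C : ℝ, ∀ z, z ∉ spectrum ℂ T → ‖z - lam‖ ≤ 1 →
    ‖(T - algebraMap ℂ _ lam) ^ k * resolvent T z‖ ≤ ‖resolvent T z‖ * ‖z - lam‖ ^ k + C := by
  induction k with
  | zero => exact ⟨0, fun z _ _ => by simp⟩
  | succ k ih =>
    obtain ⟨C, hC⟩ := ih
    refine ⟨|C| + ‖(T - algebraMap ℂ (X →L[ℂ] X) lam) ^ k‖, fun z hz hz1 => ?_⟩
    have e : (T - algebraMap ℂ (X →L[ℂ] X) lam) * resolvent T z
        = (z - lam) • resolvent T z - 1 := by
      have h := sub_mul_res hz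
      have h2 : T - algebraMap ℂ (X →L[ℂ] X) lam
          = (z - lam) • 1 - (algebraMap ℂ (X →L[ℂ] X) z - T) := by
        rw [Algebra.algebraMap_eq_smul_one, Algebra.algebraMap_eq_smul_one, sub_smul]
        abel
      rw [h2, sub_mul, h, smul_mul_assoc, one_mul]
    rw [pow_succ, mul_assoc, e, mul_sub, mul_smul_comm, mul_one]
    refine (norm_sub_le _ _).trans ?_
    rw [norm_smul]
    have h1 := hC z hz hz1
    have h3 : ‖z - lam‖ * ‖(T - algebraMap ℂ (X →L[ℂ] X) lam) ^ k * resolvent T z‖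
        ≤ ‖z - lam‖ * (‖resolvent T z‖ * ‖z - lam‖ ^ k + C) :=
      mul_le_mul_of_nonneg_left h1 (norm_nonneg _)
    have h4 : ‖z - lam‖ * C ≤ |C| :=
      (mul_le_mul_of_nonneg_left (le_abs_self C) (norm_nonneg _)).trans
        (mul_le_of_le_one_left (abs_nonneg _) hz1)
    calc _ ≤ ‖z - lam‖ * (‖resolvent T z‖ * ‖z - lam‖ ^ k + C)
        + ‖(T - algebraMap ℂ (X →L[ℂ] X) lam) ^ k‖ := by linarith
      _ = ‖resolvent T z‖ * (‖z - lam‖ ^ k * ‖z - lam‖) + ‖z - lam‖ * C
        + ‖(T - algebraMap ℂ (X →L[ℂ] X) lam) ^ k‖ := by ring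
      _ ≤ _ := by rw [← pow_succ]; linarith

/-- **Operators whose resolvent has poles at all boundary points of the spectrum are algebraic.** -/
theorem algebraic_of_poles [Nontrivial X] {T : X →L[ℂ] X}
    (h : ∀ lam ∈ frontier (spectrum ℂ T), IsPole T lam) :
    ∃ p : ℂ[X], p ≠ 0 ∧ aeval T p = 0 := by
  classical
  have hcl : IsClosed (spectrum ℂ T) := spectrum.isClosed T
  have hco : IsCompact (spectrum ℂ T) := spectrum.isCompact T
  -- the spectrum has no interior points
  have hint : interior (spectrum ℂ T) = ∅ := by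
    by_contra hne
    have h1 : ¬ IsClopen (interior (spectrum ℂ T)) := by
      intro hc
      rcases isClopen_iff.1 hc with h2 | h2
      · exact hne h2
      · have h3 : spectrum ℂ T = univ := univ_subset_iff.1 (h2 ▸ interior_subset)
        rw [h3] at hco
        exact noncompact_univ ℂ hco
    have h2 : (frontier (interior (spectrum ℂ T))).Nonempty := by
      rw [nonempty_iff_ne_empty]
      intro h3
      exact h1 (isClopen_iff_frontier_eq_empty.2 h3)
    obtain ⟨μ, hμ⟩ := h2
    rw [isOpen_interior.frontier_eq] at hμ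
    have hμs : μ ∈ spectrum ℂ T := hcl.closure_subset_iff.2 interior_subset hμ.1
    have hμf : μ ∈ frontier (spectrum ℂ T) := by
      rw [hcl.frontier_eq]
      exact ⟨hμs, hμ.2⟩
    obtain ⟨n, C, ε, hε, hC⟩ := h μ hμf
    obtain ⟨z, hz1, hz2⟩ := Metric.mem_closure_iff.1 hμ.1 ε hε
    have hzμ : z ≠ μ := by
      rintro rfl
      exact hμ.2 hz1
    refine (hC z (norm_pos_iff.2 (sub_ne_zero.2 hzμ)) ?_).1 (interior_subset hz1)
    rwa [dist_comm, dist_eq_norm] at hz2
  have hpole : ∀ lam ∈ spectrum ℂ T, IsPole T lam := fun lam hl => h lam (by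
    rw [hcl.frontier_eq, hint, diff_empty]
    exact hl)
  -- the spectrum is finite
  have hfin : (spectrum ℂ T).Finite := by
    have h1 : ∀ lam ∈ spectrum ℂ T, ∃ U ∈ 𝓝 lam, U ∩ spectrum ℂ T ⊆ {lam} := by
      intro lam hl
      obtain ⟨n, C, ε, hε, hC⟩ := hpole lam hl
      refine ⟨ball lam ε, ball_mem_nhds lam hε, ?_⟩
      rintro z ⟨hz1, hz2⟩
      by_contra hne
      refine (hC z (norm_pos_iff.2 (sub_ne_zero.2 hne)) ?_).1 hz2
      rwa [mem_ball, dist_eq_norm] at hz1
    choose! U hU hU' using h1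
    obtain ⟨t, ht, ht'⟩ := hco.elim_nhds_subcover U hU
    refine t.finite_toSet.subset fun z hz => ?_
    obtain ⟨x, hx, hx'⟩ := mem_iUnion₂.1 (ht' hz)
    have := hU' x (ht x hx) ⟨hx', hz⟩
    rw [mem_singleton_iff] at this
    rw [this]
    exact hx
  choose! n C ε hε hC using hpole
  set P : ℂ[X] := ∏ l ∈ hfin.toFinset, (Polynomial.X - Polynomial.C l) ^ n l with hP
  have hP0 : P ≠ 0 := by
    rw [hP, Finset.prod_ne_zero_iff]
    intro l _
    exact pow_ne_zero _ (Polynomial.X_sub_C_ne_zero l)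
  refine ⟨P, hP0, ?_⟩
  set G : ℂ → (X →L[ℂ] X) := fun z => aeval T P * resolvent T z with hG
  have hGd : ∀ z, z ∉ spectrum ℂ T → DifferentiableAt ℂ G z := fun z hz =>
    (differentiableAt_const (aeval T P)).mul (differentiableAt_res hz)
  have hGb : ∀ c ∈ spectrum ℂ T, ∃ C' ε' : ℝ, 0 < ε' ∧ ∀ z, 0 < ‖z - c‖ → ‖z - c‖ < ε' →
      ‖G z‖ ≤ C' := by
    intro c hc
    obtain ⟨K, hK⟩ := pow_res (T := T) c (n c)
    set Q : ℂ[X] := ∏ l ∈ hfin.toFinset.erase c, (Polynomial.X - Polynomial.C l) ^ n l with hQ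
    have hPQ : P = Q * (Polynomial.X - Polynomial.C c) ^ n c := by
      rw [hP, hQ, Finset.prod_erase_mul _ _ (hfin.mem_toFinset.2 hc)]
    have hPQ' : aeval T P = aeval T Q * (T - algebraMap ℂ _ c) ^ n c := by
      rw [hPQ, map_mul, map_pow, map_sub, aeval_X, aeval_C]
    refine ⟨‖aeval T Q‖ * (C c + K), min (ε c) 1, by
      have := hε c hc
      positivity, fun z hz0 hz1 => ?_⟩
    have h1 := hC c hc z hz0 (hz1.trans_le (min_le_left _ _))
    have h2 := hK z h1.1 (hz1.le.trans (min_le_right _ _))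
    show ‖aeval T P * resolvent T z‖ ≤ _
    rw [hPQ', mul_assoc]
    refine (norm_mul_le _ _).trans (mul_le_mul_of_nonneg_left (h2.trans ?_) (norm_nonneg _))
    linarith [h1.2]
  obtain ⟨F, hF, hFG⟩ := removable_finite hfin hGd hGb
  have hlim : Tendsto F (cocompact ℂ) (𝓝 0) := by
    have h1 : Tendsto G (cocompact ℂ) (𝓝 0) := by
      have h2 : Tendsto (resolvent T) (cocompact ℂ) (𝓝 0) := by
        rw [← Metric.cobounded_eq_cocompact]
        exact spectrum.resolvent_tendsto_cobounded T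
      have h3 := h2.const_mul (aeval T P)
      rwa [mul_zero] at h3
    refine h1.congr' ?_
    have h4 : (spectrum ℂ T)ᶜ ∈ cocompact ℂ := hco.compl_mem_cocompact
    filter_upwards [h4] with z hz
    exact (hFG z hz).symm
  have hF0 : F = Function.const ℂ 0 := hF.eq_const_of_tendsto_cocompact hlim
  obtain ⟨z, hz⟩ : ∃ z, z ∉ spectrum ℂ T := by
    by_contra hall
    push Not at hall
    have h3 : spectrum ℂ T = univ := eq_univ_of_forall hall
    rw [h3] at hco
    exact noncompact_univ ℂ hco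
  have h5 : aeval T P * resolvent T z = 0 := by
    have := hFG z hz
    rw [hF0] at this
    exact this.symm
  calc aeval T P = aeval T P * (resolvent T z * (algebraMap ℂ (X →L[ℂ] X) z - T)) := by
        rw [res_mul_sub hz, mul_one]
    _ = 0 := by rw [← mul_assoc, h5, zero_mul]

end Pool.Agent.K4H47.TR
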