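import Pool.Agent.K4H47.TR.Alg

/-!
# Generic rank one perturbations: attained values
-/

set_option autoImplicit false
set_option linter.unusedSectionVars false
set_option linter.deprecated false
open Metric Set Filter Topology

namespace Pool.Agent.K4H47.TR

variable {X : Type} [NormedAddCommGroup X] [NormedSpace ℂ X] [CompleteSpace X]

/-- the value `c` is attained by `h_p` in the ball about `lam`, off the spectrum, in a stable way -/
def Att (T : X →L[ℂ] X) (lam : ℂ) (r : ℝ) (p : X × (X →L[ℂ] ℂ)) (c : ℂ) : Prop :=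
  ∃ (z₀ : ℂ) (ρ : ℝ), 0 < ρ ∧ closedBall z₀ ρ ⊆ ball lam r \ spectrum ℂ T ∧
    ∀ w ∈ sphere z₀ ρ, ‖hh T p z₀ - c‖ < ‖hh T p w - c‖

lemma isOpen_att (T : X →L[ℂ] X) (lam : ℂ) (r : ℝ) :
    IsOpen {q : (X × (X →L[ℂ] ℂ)) × ℂ | Att T lam r q.1 q.2} := by
  rw [isOpen_iff_mem_nhds]
  rintro ⟨p, c⟩ ⟨z₀, ρ, hρ, hsub, hlt⟩
  have h : ∀ᶠ q in 𝓝 (p, c), ∀ w ∈ sphere z₀ ρ, ‖hh T q.1 z₀ - q.2‖ < ‖hh T q.1 w - q.2‖ := by
    refine (isCompact_sphere z₀ ρ).eventually_forall_of_forall_eventually fun w hw => ?_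
    have hz₀ : z₀ ∉ spectrum ℂ T := (hsub (mem_closedBall_self hρ.le)).2
    have hws : w ∉ spectrum ℂ T := (hsub (sphere_subset_closedBall hw)).2
    have h1 : ContinuousAt (fun q : ((X × (X →L[ℂ] ℂ)) × ℂ) × ℂ => ‖hh T q.1.1 z₀ - q.1.2‖)
        ((p, c), w) := by
      have : ContinuousAt (fun q : ((X × (X →L[ℂ] ℂ)) × ℂ) × ℂ => hh T q.1.1 z₀) ((p, c), w) :=
        ContinuousAt.comp (f := fun q : ((X × (X →L[ℂ] ℂ)) × ℂ) × ℂ => (q.1.1, z₀))
          (x := ((p, c), w)) (continuousAt_hh hz₀) (by fun_prop)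
      exact (this.sub (by fun_prop)).norm
    have h2 : ContinuousAt (fun q : ((X × (X →L[ℂ] ℂ)) × ℂ) × ℂ => ‖hh T q.1.1 q.2 - q.1.2‖)
        ((p, c), w) := by
      have : ContinuousAt (fun q : ((X × (X →L[ℂ] ℂ)) × ℂ) × ℂ => hh T q.1.1 q.2) ((p, c), w) :=
        ContinuousAt.comp (f := fun q : ((X × (X →L[ℂ] ℂ)) × ℂ) × ℂ => (q.1.1, q.2))
          (x := ((p, c), w)) (continuousAt_hh hws) (by fun_prop)
      exact (this.sub (by fun_prop)).norm
    exact h1.eventually_lt h2 (hlt w hw)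
  filter_upwards [h] with q hq
  exact ⟨z₀, ρ, hρ, hsub, hq⟩

lemma exists_of_att {T : X →L[ℂ] X} {lam : ℂ} {r : ℝ} {p : X × (X →L[ℂ] ℂ)} {c : ℂ}
    (h : Att T lam r p c) : ∃ z ∈ ball lam r, z ∉ spectrum ℂ T ∧ hh T p z = c := by
  obtain ⟨z₀, ρ, hρ, hsub, hlt⟩ := h
  by_contra hno
  push Not at hno
  have hne : ∀ z ∈ closedBall z₀ ρ, hh T p z - c ≠ 0 := fun z hz =>
    sub_ne_zero.2 (hno z (hsub hz).1 (hsub hz).2)
  have hd : ∀ z ∈ closedBall z₀ ρ, DifferentiableAt ℂ (fun z => (hh T p z - c)⁻¹) z := fun z hz =>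
    ((differentiableAt_hh p (hsub hz).2).sub_const c).inv (hne z hz)
  have hdc : DiffContOnCl ℂ (fun z => (hh T p z - c)⁻¹) (ball z₀ ρ) := by
    constructor
    · exact fun z hz => (hd z (ball_subset_closedBall hz)).differentiableWithinAt
    · rw [closure_ball z₀ hρ.ne']
      exact fun z hz => (hd z hz).continuousAt.continuousWithinAt
  obtain ⟨w, hw, hmax⟩ := (isCompact_sphere z₀ ρ).exists_isMaxOn (NormedSpace.sphere_nonempty.2 hρ.le)
    (f := fun z => ‖(hh T p z - c)⁻¹‖) (fun z hz =>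
      ((hd z (sphere_subset_closedBall hz)).continuousAt.norm).continuousWithinAt)
  have h1 := Complex.norm_le_of_forall_mem_frontier_norm_le isBounded_ball hdc
    (C := ‖(hh T p w - c)⁻¹‖) (by
      intro z hz
      rw [frontier_ball z₀ hρ.ne'] at hz
      exact hmax hz) (subset_closure (mem_ball_self hρ))
  rw [norm_inv, norm_inv] at h1
  have h2 := hlt w hw
  have h3 : 0 < ‖hh T p z₀ - c‖ := norm_pos_iff.2 (hne z₀ (mem_closedBall_self hρ.le))
  have h4 := (inv_lt_inv₀ (h3.trans h2) h3).2 h2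
  exact absurd h1 (not_le.2 h4)

lemma analyticAt_hh {T : X →L[ℂ] X} (p : X × (X →L[ℂ] ℂ)) {z : ℂ} (hz : z ∉ spectrum ℂ T) :
    AnalyticAt ℂ (hh T p) z := by
  have h : DifferentiableOn ℂ (hh T p) (spectrum ℂ T)ᶜ := fun w hw =>
    (differentiableAt_hh p hw).differentiableWithinAt
  exact h.analyticAt ((spectrum.isClosed T).isOpen_compl.mem_nhds hz)

lemma att_of_isolated {T : X →L[ℂ] X} {lam : ℂ} {r : ℝ} {p : X × (X →L[ℂ] ℂ)} {c z : ℂ}
    (hz : z ∈ ball lam r) (hzs : z ∉ spectrum ℂ T) (h : hh T p z = c)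
    (hne : ¬ ∀ᶠ w in 𝓝 z, hh T p w = c) : Att T lam r p c := by
  have h1 : AnalyticAt ℂ (fun w => hh T p w - c) z := (analyticAt_hh p hzs).sub analyticAt_const
  rcases h1.eventually_eq_zero_or_eventually_ne_zero with h2 | h2
  · exact absurd (h2.mono fun w hw => sub_eq_zero.1 hw) hne
  · have h3 : ∀ᶠ w in 𝓝 z, w ≠ z → hh T p w - c ≠ 0 := by
      rwa [eventually_nhdsWithin_iff] at h2
    have h4 : ball lam r \ spectrum ℂ T ∈ 𝓝 z :=
      (isOpen_ball.sdiff (spectrum.isClosed T)).mem_nhds ⟨hz, hzs⟩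
    obtain ⟨ρ, hρ, hρ'⟩ := Metric.nhds_basis_closedBall.mem_iff.1 (inter_mem h3 h4)
    refine ⟨z, ρ, hρ, fun w hw => (hρ' hw).2, fun w hw => ?_⟩
    rw [h, sub_self, norm_zero, norm_pos_iff]
    refine (hρ' (sphere_subset_closedBall hw)).1 ?_
    rintro rfl
    rw [mem_sphere, dist_self] at hw
    exact hρ.ne hw

lemma hasDerivAt_hh {T : X →L[ℂ] X} (p : X × (X →L[ℂ] ℂ)) {z : ℂ} (hz : z ∉ spectrum ℂ T) :
    HasDerivAt (hh T p) (-(p.2 (resolvent T z (resolvent T z p.1)))) z := by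
  have h1 : HasDerivAt (resolvent T) (-resolvent T z ^ 2) z :=
    spectrum.hasDerivAt_resolvent_const_left (a := T) (k := z) (by
      rw [spectrum.mem_resolventSet_iff]; exact isUnit_sub hz)
  have h2 : HasDerivAt (fun w => resolvent T w p.1) ((-resolvent T z ^ 2) p.1) z := by
    have := h1.clm_apply (hasDerivAt_const z p.1)
    simpa using this
  have h3 := p.2.hasFDerivAt.comp_hasDerivAt z h2
  have e : p.2 ((-resolvent T z ^ 2) p.1) = -(p.2 (resolvent T z (resolvent T z p.1))) := by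
    rw [pow_two]
    simp
  rw [e] at h3
  exact h3

lemma res_surj {T : X →L[ℂ] X} {z : ℂ} (hz : z ∉ spectrum ℂ T) (y : X) :
    resolvent T z ((algebraMap ℂ (X →L[ℂ] X) z - T) y) = y := by
  have := congrArg (fun A : X →L[ℂ] X => A y) (res_mul_sub hz)
  simpa using this

/-- near any pair with a value `c ≠ 0` there is a pair which takes it in a stable way -/
lemma att_near {T : X →L[ℂ] X} {lam : ℂ} {r : ℝ} {p : X × (X →L[ℂ] ℂ)} {c z : ℂ} (hc : c ≠ 0)
    (hz : z ∈ ball lam r) (hzs : z ∉ spectrum ℂ T) (h : hh T p z = c) {ε : ℝ} (hε : 0 < ε) :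
    ∃ q ∈ ball p ε, Att T lam r q c := by
  by_cases hne : ∀ᶠ w in 𝓝 z, hh T p w = c
  · have hd : p.2 (resolvent T z (resolvent T z p.1)) = 0 := by
      have h1 := (hasDerivAt_hh p hzs).deriv
      have h2 : deriv (hh T p) z = deriv (fun _ => c) z := Filter.EventuallyEq.deriv_eq hne
      rw [h1, deriv_const, neg_eq_zero] at h2
      exact h2
    have hv : p.2 ≠ 0 := by
      intro h0
      rw [hh, h0] at h
      exact hc h.symm
    obtain ⟨y, hy⟩ : ∃ y, p.2 y ≠ 0 := by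
      by_contra hall
      push Not at hall
      exact hv (ContinuousLinearMap.ext hall)
    set a₀ : X := (algebraMap ℂ (X →L[ℂ] X) z - T) ((algebraMap ℂ (X →L[ℂ] X) z - T) y) with ha₀
    have h2 : resolvent T z (resolvent T z a₀) = y := by rw [ha₀, res_surj hzs, res_surj hzs]
    set k : ℂ := p.2 (resolvent T z a₀) / c with hk
    set a : X := a₀ - k • p.1 with ha
    have h3 : p.2 (resolvent T z a) = 0 := by
      have h4 : p.2 (resolvent T z p.1) = c := h
      rw [ha, map_sub, map_smul, map_sub, map_smul, h4, smul_eq_mul, hk, div_mul_cancel₀ _ hc,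
        sub_self]
    have h4 : p.2 (resolvent T z (resolvent T z a)) = p.2 y := by
      rw [ha, map_sub, map_smul, map_sub, map_smul, map_sub, map_smul, h2, hd, smul_zero, sub_zero]
    obtain ⟨s, hs0, hs⟩ : ∃ s : ℝ, 0 < s ∧ s * ‖a‖ < ε := by
      refine ⟨ε / (‖a‖ + 1), by positivity, ?_⟩
      rw [div_mul_eq_mul_div, div_lt_iff₀ (by positivity)]
      nlinarith [norm_nonneg a]
    set q : X × (X →L[ℂ] ℂ) := (p.1 + (s : ℂ) • a, p.2) with hq
    have hqz : hh T q z = c := by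
      show p.2 (resolvent T z (p.1 + (s : ℂ) • a)) = c
      rw [map_add, map_add, map_smul, map_smul, h3, smul_zero, add_zero]
      exact h
    refine ⟨q, ?_, att_of_isolated hz hzs hqz ?_⟩
    · rw [mem_ball, dist_eq_norm]
      have : q - p = ((s : ℂ) • a, 0) := by
        rw [hq]
        ext <;> simp
      rw [this, Prod.norm_mk, norm_zero, max_eq_left (norm_nonneg _), norm_smul, Complex.norm_real,
        Real.norm_eq_abs, abs_of_pos hs0]
      exact hs
    · intro hev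
      have h5 := (hasDerivAt_hh q hzs).deriv
      have h6 : deriv (hh T q) z = deriv (fun _ => c) z := Filter.EventuallyEq.deriv_eq hev
      rw [h5, deriv_const, neg_eq_zero] at h6
      have h7 : p.2 (resolvent T z (resolvent T z (p.1 + (s : ℂ) • a))) = 0 := h6
      rw [map_add, map_add, map_add, map_smul, map_smul, map_smul, hd, zero_add, h4,
        smul_eq_mul] at h7
      rcases mul_eq_zero.1 h7 with h8 | h8
      · exact hs0.ne' (by exact_mod_cast h8)
      · exact hy h8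
  · exact ⟨p, mem_ball_self hε, att_of_isolated hz hzs h hne⟩

/-- **Density.** At a boundary point of the spectrum which is not a pole of the resolvent every
nonzero value is attained for a dense set of pairs. -/
theorem dense_att [Nontrivial X] {T : X →L[ℂ] X} {lam : ℂ} (hl : lam ∈ frontier (spectrum ℂ T))
    (hp : ¬ IsPole T lam) {r : ℝ} (hr : 0 < r) {c : ℂ} (hc : c ≠ 0) :
    Dense {p : X × (X →L[ℂ] ℂ) | Att T lam r p c} := by
  rw [Metric.dense_iff]
  intro p₀ ε hε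
  by_contra hno
  have hno' : ∀ p ∈ ball p₀ ε, ¬ Att T lam r p c := fun p hp h => hno ⟨p, hp, h⟩
  have hval : ∀ q ∈ ball p₀ ε, ∀ z ∈ ball lam r, z ∉ spectrum ℂ T → hh T q z ≠ c := by
    intro q hq z hz hzs h
    obtain ⟨ε', hε', hsub⟩ := Metric.isOpen_iff.1 isOpen_ball q hq
    obtain ⟨q', hq', hatt⟩ := att_near hc hz hzs h hε'
    exact hno' q' (hsub hq') hatt
  apply hp
  refine pole_of hl hr (f := fun z => c - hh T p₀ z) (C := 6 / ε ^ 2) (fun z _ hzs =>
    (differentiableAt_hh p₀ hzs).const_sub c) fun z hz hzs => ?_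
  refine norm_res_le hε fun q h1 h2 => hval q ?_ z hz hzs
  rw [mem_ball, dist_eq_norm, Prod.norm_def]
  exact max_lt h1 h2

end Pool.Agent.K4H47.TR
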