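import Pool.Agent.K4H47.TR.Half

/-!
# Generic rank one perturbations: the theorem
-/

set_option autoImplicit false
set_option linter.unusedSectionVars false
set_option linter.deprecated false
open Metric Set Filter Topology Polynomial

namespace Pool.Agent.K4H47.TR

variable {X : Type} [NormedAddCommGroup X] [NormedSpace ℂ X] [CompleteSpace X]

/-- hyperinvariant half-space -/
def HH (S : X →L[ℂ] X) : Prop := ∃ M : Submodule ℂ X, IsHalf M ∧
  ∀ Q : X →L[ℂ] X, Q * S = S * Q → ∀ a ∈ M, Q a ∈ M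

/-- invariant half-space -/
def IH (S : X →L[ℂ] X) : Prop := ∃ M : Submodule ℂ X, IsHalf M ∧ ∀ a ∈ M, S a ∈ M

lemma IH_of_HH {S : X →L[ℂ] X} (h : HH S) : IH S := by
  obtain ⟨M, h1, h2⟩ := h
  exact ⟨M, h1, h2 S rfl⟩

lemma hh_smul (T : X →L[ℂ] X) (p : X × (X →L[ℂ] ℂ)) (t z : ℂ) :
    hh T (t • p.1, p.2) z = t * hh T p z := by
  simp [hh]

lemma F1_smul (p : X × (X →L[ℂ] ℂ)) (t : ℂ) : F1 (t • p.1, p.2) = t • F1 p := by
  ext a
  simp [F1, smul_smul, mul_comm]

/-- stable values near `lam` give eigenvalues -/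
lemma HH_of_att {T : X →L[ℂ] X} {lam : ℂ} (hl : lam ∈ spectrum ℂ T) {p : X × (X →L[ℂ] ℂ)}
    {t : ℂ} (ht : t ≠ 0) (h : ∀ n : ℕ, Att T lam (1 / ((n : ℝ) + 1)) p t⁻¹) :
    HH (T + t • F1 p) := by
  rw [← F1_smul]
  refine half_of_infinite fun hfin => ?_
  set Z : Set ℂ := {z : ℂ | z ∉ spectrum ℂ T ∧ hh T (t • p.1, p.2) z = 1} with hZ
  have h1 : lam ∈ Zᶜ := fun h0 => h0.1 hl
  obtain ⟨ε, hε, hε'⟩ := Metric.isOpen_iff.1 hfin.isClosed.isOpen_compl lam h1
  obtain ⟨n, hn⟩ := exists_nat_one_div_lt hε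
  obtain ⟨z, hz1, hz2, hz3⟩ := exists_of_att (h n)
  refine hε' (ball_subset_ball hn.le hz1) ⟨hz2, ?_⟩
  rw [hh_smul, hz3, mul_inv_cancel₀ ht]

/-- **Generic rank one perturbations.** -/
theorem generic [Nontrivial X] {T : X →L[ℂ] X} (hT : ¬ ∃ P : ℂ[X], P ≠ 0 ∧ aeval T P = 0) :
    ∀ᶠ p in residual (X × (X →L[ℂ] ℂ)), HH (T + F1 p) ∧
      ∀ᶠ t in residual ℂ, HH (T + t • F1 p) := by
  obtain ⟨lam, hlf, hlp⟩ : ∃ lam ∈ frontier (spectrum ℂ T), ¬ IsPole T lam := by
    by_contra hall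
    push Not at hall
    exact hT (algebraic_of_poles hall)
  have hls : lam ∈ spectrum ℂ T := (spectrum.isClosed T).frontier_subset hlf
  obtain ⟨D, hDc, hDd⟩ := TopologicalSpace.exists_countable_dense ℂ
  have hr : ∀ n : ℕ, (0 : ℝ) < 1 / ((n : ℝ) + 1) := fun n => by positivity
  have hres : ∀ (n : ℕ) (c : ℂ), c ≠ 0 →
      ∀ᶠ p in residual (X × (X →L[ℂ] ℂ)), Att T lam (1 / ((n : ℝ) + 1)) p c := by
    intro n c hc
    refine residual_of_dense_open ?_ (dense_att hlf hlp (hr n) hc)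
    have h1 : Continuous fun p : X × (X →L[ℂ] ℂ) => (p, c) := by fun_prop
    exact (isOpen_att T lam (1 / ((n : ℝ) + 1))).preimage h1
  have h1 : ∀ᶠ p in residual (X × (X →L[ℂ] ℂ)), ∀ n : ℕ, Att T lam (1 / ((n : ℝ) + 1)) p 1 :=
    eventually_countable_forall.2 fun n => hres n 1 one_ne_zero
  have h2 : ∀ᶠ p in residual (X × (X →L[ℂ] ℂ)), ∀ t ∈ D \ {0}, ∀ n : ℕ,
      Att T lam (1 / ((n : ℝ) + 1)) p t⁻¹ := by
    refine (eventually_countable_ball (hDc.mono diff_subset)).2 fun t ht => ?_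
    exact eventually_countable_forall.2 fun n => hres n t⁻¹ (inv_ne_zero ht.2)
  filter_upwards [h1, h2] with p hp1 hp2
  refine ⟨?_, ?_⟩
  · have := HH_of_att hls (p := p) one_ne_zero (by simpa using hp1)
    rwa [one_smul] at this
  · have hopen : ∀ n : ℕ, IsOpen {t : ℂ | t ≠ 0 ∧ Att T lam (1 / ((n : ℝ) + 1)) p t⁻¹} := by
      intro n
      rw [isOpen_iff_mem_nhds]
      rintro t ⟨ht0, ht⟩
      have h3 : ContinuousAt (fun t : ℂ => (p, t⁻¹)) t :=
        continuousAt_const.prodMk (continuousAt_inv₀ ht0)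
      have h4 := h3.eventually ((isOpen_att T lam (1 / ((n : ℝ) + 1))).mem_nhds ht)
      filter_upwards [h4, isOpen_ne.mem_nhds ht0] with s hs1 hs2
      exact ⟨hs2, hs1⟩
    have hdense : ∀ n : ℕ, Dense {t : ℂ | t ≠ 0 ∧ Att T lam (1 / ((n : ℝ) + 1)) p t⁻¹} := by
      intro n
      have h3 : Dense (D ∩ {t : ℂ | t ≠ 0}) :=
        hDd.inter_of_isOpen_right (dense_compl_singleton (0 : ℂ)) isOpen_ne
      refine h3.mono fun t ht => ⟨ht.2, hp2 t ⟨ht.1, ht.2⟩ n⟩
    have h3 : ∀ᶠ t in residual ℂ, ∀ n : ℕ, t ≠ 0 ∧ Att T lam (1 / ((n : ℝ) + 1)) p t⁻¹ :=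
      eventually_countable_forall.2 fun n => residual_of_dense_open (hopen n) (hdense n)
    filter_upwards [h3] with t ht
    exact HH_of_att hls (ht 0).1 fun n => (ht n).2

/-! ### algebraic operators -/

lemma finite_ker_comp {A B : X →ₗ[ℂ] X} (hA : FiniteDimensional ℂ (LinearMap.ker A))
    (hB : FiniteDimensional ℂ (LinearMap.ker B)) :
    FiniteDimensional ℂ (LinearMap.ker (A.comp B)) := by
  set K := LinearMap.ker (A.comp B) with hK
  set L : K →ₗ[ℂ] X := B.comp K.subtype with hL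
  have hk : FiniteDimensional ℂ (LinearMap.ker L) := by
    have hle : (LinearMap.ker L).map K.subtype ≤ LinearMap.ker B := by
      rintro _ ⟨a, ha, rfl⟩
      exact ha
    have h2 : FiniteDimensional ℂ ((LinearMap.ker L).map K.subtype) :=
      Submodule.finiteDimensional_of_le hle
    exact LinearEquiv.finiteDimensional
      (Submodule.equivMapOfInjective K.subtype K.injective_subtype (LinearMap.ker L)).symm
  have hr : FiniteDimensional ℂ (LinearMap.range L) := by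
    have hle : LinearMap.range L ≤ LinearMap.ker A := by
      rintro _ ⟨a, rfl⟩
      exact a.2
    exact Submodule.finiteDimensional_of_le hle
  have hq : FiniteDimensional ℂ (K ⧸ LinearMap.ker L) :=
    LinearEquiv.finiteDimensional L.quotKerEquivRange.symm
  exact Module.Finite.of_submodule_quotient (LinearMap.ker L)

lemma exists_eigenspace {T : X →L[ℂ] X} (n : ℕ) : ∀ P : ℂ[X], P.natDegree = n → P ≠ 0 →
    ¬ FiniteDimensional ℂ (LinearMap.ker ((aeval T P : X →L[ℂ] X) : X →ₗ[ℂ] X)) →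
    ∃ μ : ℂ, ¬ FiniteDimensional ℂ
      (LinearMap.ker ((T - algebraMap ℂ (X →L[ℂ] X) μ : X →L[ℂ] X) : X →ₗ[ℂ] X)) := by
  induction n with
  | zero =>
    intro P hP hP0 hinf
    exfalso
    apply hinf
    rw [Polynomial.natDegree_eq_zero] at hP
    obtain ⟨c, rfl⟩ := hP
    have hc : c ≠ 0 := by
      rintro rfl
      simp at hP0
    have : LinearMap.ker ((aeval T (Polynomial.C c) : X →L[ℂ] X) : X →ₗ[ℂ] X) = ⊥ := by
      rw [LinearMap.ker_eq_bot']
      intro a ha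
      rw [aeval_C, Algebra.algebraMap_eq_smul_one] at ha
      have h1 : c • a = 0 := ha
      exact (smul_eq_zero.1 h1).resolve_left hc
    rw [this]
    infer_instance
  | succ n ih =>
    intro P hP hP0 hinf
    obtain ⟨r, hr⟩ := IsAlgClosed.exists_root P (by
      intro h
      have h0 : P.natDegree = 0 := Polynomial.natDegree_eq_of_degree_eq_some (n := 0) h
      omega)
    obtain ⟨Q, hQ⟩ := Polynomial.dvd_iff_isRoot.2 hr
    have hQ0 : Q ≠ 0 := by
      rintro rfl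
      exact hP0 (by rw [hQ, mul_zero])
    have hdeg : Q.natDegree = n := by
      have := Polynomial.natDegree_mul (Polynomial.X_sub_C_ne_zero r) hQ0
      rw [← hQ, hP, Polynomial.natDegree_X_sub_C] at this
      omega
    by_cases h1 : FiniteDimensional ℂ
      (LinearMap.ker ((T - algebraMap ℂ (X →L[ℂ] X) r : X →L[ℂ] X) : X →ₗ[ℂ] X))
    · refine ih Q hdeg hQ0 fun h2 => hinf ?_
      have h3 := finite_ker_comp h1 h2
      have e : ((aeval T P : X →L[ℂ] X) : X →ₗ[ℂ] X)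
          = ((T - algebraMap ℂ (X →L[ℂ] X) r : X →L[ℂ] X) : X →ₗ[ℂ] X).comp
            ((aeval T Q : X →L[ℂ] X) : X →ₗ[ℂ] X) := by
        rw [hQ, map_mul, map_sub, aeval_X, aeval_C]
        rfl
      rw [e]
      exact h3
    · exact ⟨r, h1⟩

theorem algebraic_case (hX : ¬ FiniteDimensional ℂ X) {T : X →L[ℂ] X}
    (hT : ∃ P : ℂ[X], P ≠ 0 ∧ aeval T P = 0) (p : X × (X →L[ℂ] ℂ)) : IH (T + F1 p) := by
  obtain ⟨P, hP0, hP⟩ := hT
  obtain ⟨μ, hμ⟩ := exists_eigenspace (T := T) P.natDegree P rfl hP0 (by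
    rw [hP]
    intro h
    apply hX
    have h1 : LinearMap.ker ((0 : X →L[ℂ] X) : X →ₗ[ℂ] X) = ⊤ := by
      ext a
      simp
    rw [h1] at h
    exact LinearEquiv.finiteDimensional (Submodule.topEquiv (R := ℂ) (M := X)))
  set K := LinearMap.ker ((T - algebraMap ℂ (X →L[ℂ] X) μ : X →L[ℂ] X) : X →ₗ[ℂ] X) with hK
  set N : Submodule ℂ X := K ⊓ LinearMap.ker (p.2 : X →ₗ[ℂ] ℂ) with hN
  have hNc : IsClosed (N : Set X) :=
    (ContinuousLinearMap.isClosed_ker (T - algebraMap ℂ (X →L[ℂ] X) μ)).inter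
      (ContinuousLinearMap.isClosed_ker p.2)
  have hNi : ¬ FiniteDimensional ℂ N := by
    intro h
    apply hμ
    set L : K →ₗ[ℂ] ℂ := (p.2 : X →ₗ[ℂ] ℂ).comp K.subtype with hL
    have hk : FiniteDimensional ℂ (LinearMap.ker L) := by
      have hle : (LinearMap.ker L).map K.subtype ≤ N := by
        rintro _ ⟨a, ha, rfl⟩
        exact ⟨a.2, ha⟩
      have h2 : FiniteDimensional ℂ ((LinearMap.ker L).map K.subtype) :=
        Submodule.finiteDimensional_of_le hle
      exact LinearEquiv.finiteDimensional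
        (Submodule.equivMapOfInjective K.subtype K.injective_subtype (LinearMap.ker L)).symm
    have hq : FiniteDimensional ℂ (K ⧸ LinearMap.ker L) :=
      LinearEquiv.finiteDimensional L.quotKerEquivRange.symm
    exact Module.Finite.of_submodule_quotient (LinearMap.ker L)
  obtain ⟨M, hM1, hM2⟩ := exists_half N hNi hNc
  refine ⟨M, hM1, fun a ha => ?_⟩
  have h1 := hM2 ha
  have h2 : T a - μ • a = 0 := by
    have : (T - algebraMap ℂ (X →L[ℂ] X) μ) a = 0 := h1.1
    simpa [Algebra.algebraMap_eq_smul_one] using this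
  have h3 : p.2 a = 0 := h1.2
  have h4 : (T + F1 p) a = μ • a := by
    rw [ContinuousLinearMap.add_apply, F1_apply, h3, zero_smul, add_zero]
    exact sub_eq_zero.1 h2
  rw [h4]
  exact M.smul_mem μ ha

end Pool.Agent.K4H47.TR
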