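import Pool.Agent.K4H47.TR.CaseB

/-!
# Generic rank one perturbations: zeros near the spectrum are impossible, first case
-/

set_option autoImplicit false
set_option linter.unusedSectionVars false
set_option linter.deprecated false
set_option linter.unusedVariables false
open Metric Set Filter Topology

namespace Pool.Agent.K4H47.TR

variable {X : Type} [NormedAddCommGroup X] [NormedSpace ℂ X] [CompleteSpace X]

/-- the values of a functional at the images of an approximate eigenvector -/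
lemma AE.key {T : X →L[ℂ] X} {lam z₁ z₂ : ℂ} {ε K m : ℝ} {x : X} (hx : AE T lam z₁ z₂ ε x)
    {v' : X →L[ℂ] ℂ} (hK : ‖v'‖ ≤ K) (hm : 0 < m) (hβ : m ≤ ‖v' x‖) (hε : 2 * (K * ε) ≤ m)
    (hl1 : z₁ - lam ≠ 0) (hl2 : z₂ - lam ≠ 0) (hθ1 : ‖z₁ - lam‖ ≤ 1)
    (hq : ‖(z₁ - lam) / (z₂ - lam)‖ ≤ 2) :
    m / 2 ≤ ‖v' (resolvent T z₁ x)‖ * ‖z₁ - lam‖ ∧
    ‖v' (resolvent T z₂ x) - (z₁ - lam) / (z₂ - lam) * v' (resolvent T z₁ x)‖ ≤ 3 * (K * ε) := by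
  have hK0 : 0 ≤ K := (norm_nonneg _).trans hK
  set g₁ : X := resolvent T z₁ x - (z₁ - lam)⁻¹ • x with hg₁
  set g₂ : X := resolvent T z₂ x - (z₂ - lam)⁻¹ • x with hg₂
  have hg₁' : ‖v' g₁‖ ≤ K * ε :=
    (v'.le_opNorm g₁).trans (mul_le_mul hK hx.h1 (norm_nonneg _) hK0)
  have hg₂' : ‖v' g₂‖ ≤ K * ε :=
    (v'.le_opNorm g₂).trans (mul_le_mul hK hx.h2 (norm_nonneg _) hK0)
  have h1 : v' (resolvent T z₁ x) = (z₁ - lam)⁻¹ * v' x + v' g₁ := by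
    rw [hg₁, map_sub, map_smul, smul_eq_mul]
    ring
  have h2 : v' (resolvent T z₂ x) = (z₂ - lam)⁻¹ * v' x + v' g₂ := by
    rw [hg₂, map_sub, map_smul, smul_eq_mul]
    ring
  have hKε : 0 ≤ K * ε := (norm_nonneg _).trans hg₁'
  constructor
  · have h3 : v' x = (z₁ - lam) * v' (resolvent T z₁ x) - (z₁ - lam) * v' g₁ := by
      rw [h1]
      field_simp
      ring
    have h4 : ‖v' x‖ ≤ ‖z₁ - lam‖ * ‖v' (resolvent T z₁ x)‖ + ‖z₁ - lam‖ * ‖v' g₁‖ := by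
      rw [← norm_mul, ← norm_mul]
      conv_lhs => rw [h3]
      exact norm_sub_le _ _
    have h5 : ‖z₁ - lam‖ * ‖v' g₁‖ ≤ 1 * (K * ε) :=
      mul_le_mul hθ1 hg₁' (norm_nonneg _) (by norm_num)
    rw [mul_comm ‖v' (resolvent T z₁ x)‖]
    linarith
  · have h3 : v' (resolvent T z₂ x) - (z₁ - lam) / (z₂ - lam) * v' (resolvent T z₁ x)
        = v' g₂ - (z₁ - lam) / (z₂ - lam) * v' g₁ := by
      rw [h1, h2]
      field_simp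
      ring
    rw [h3]
    refine (norm_sub_le _ _).trans ?_
    rw [norm_mul]
    have h4 : ‖(z₁ - lam) / (z₂ - lam)‖ * ‖v' g₁‖ ≤ 2 * (K * ε) :=
      mul_le_mul hq hg₁' (norm_nonneg _) (by norm_num)
    linarith

namespace Ctx

variable {T : X →L[ℂ] X} {u₀ : X} {v₀ : X →L[ℂ] ℂ} {δ K CT : ℝ} {S : ℝ → ℝ} {z₁ : ℂ} {d : ℝ}

set_option maxHeartbeats 4000000 in
/-- the case of bounded `R(z₁) u` -/
theorem caseB1 (h : Ctx T u₀ v₀ δ K CT S z₁ d) (hδ1 : δ ≤ 1) {u : X} {v : X →L[ℂ] ℂ}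
    (hp : InB u₀ v₀ (2 * δ) (u, v)) (h0 : v (resolvent T z₁ u) = 0)
    {τ Y N₁ : ℝ} (hτ : 0 < τ) (hN₁ : 0 ≤ N₁)
    (hY : 8 * (2 * S (δ * N₁) + 2) ≤ Y * (3 * τ)) (hY0 : 0 < Y)
    (hw : ‖resolvent T z₁ u‖ ≤ N₁) {z₂ : ℂ} (hz₂ : z₂ ∈ closedBall z₁ (d / 4))
    {lam₁ lam₂ : ℂ} {x₁ x₂ : X} {ε : ℝ} (hx₁ : AE T lam₁ z₁ z₂ ε x₁) (hx₂ : AE T lam₂ z₁ z₂ ε x₂)
    (hε2 : 32 * (K * ε) ≤ δ)
    (hl₁₁ : z₁ - lam₁ ≠ 0) (hl₁₂ : z₂ - lam₁ ≠ 0) (hl₂₁ : z₁ - lam₂ ≠ 0) (hl₂₂ : z₂ - lam₂ ≠ 0)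
    (hθ₁ : 64 * Y * ‖z₁ - lam₁‖ ≤ δ ^ 2) (hθ₂ : 64 * Y * ‖z₁ - lam₂‖ ≤ δ ^ 2)
    (hθ₁1 : ‖z₁ - lam₁‖ ≤ 1) (hθ₂1 : ‖z₁ - lam₂‖ ≤ 1)
    (hq₁ : ‖(z₁ - lam₁) / (z₂ - lam₁)‖ ≤ 2) (hq₂ : ‖(z₁ - lam₂) / (z₂ - lam₂)‖ ≤ 2)
    (hq : 3 * τ ≤ 8 * ‖(z₁ - lam₁) / (z₂ - lam₁) - (z₁ - lam₂) / (z₂ - lam₂)‖) :
    False := by
  have hδ := h.hδ
  have hd := h.hd
  have hd1 := h.hd1
  have hK1 := h.hK1
  set w := resolvent T z₁ u with hwdef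
  set q₁ : ℂ := (z₁ - lam₁) / (z₂ - lam₁) with hq₁def
  set q₂ : ℂ := (z₁ - lam₂) / (z₂ - lam₂) with hq₂def
  have hx₁0 : x₁ ≠ 0 := by
    intro h1
    have := hx₁.hx
    rw [h1, norm_zero] at this
    exact zero_ne_one this
  have hx₂0 : x₂ ≠ 0 := by
    intro h1
    have := hx₂.hx
    rw [h1, norm_zero] at this
    exact zero_ne_one this
  obtain ⟨b₁, hb₁, hb₁x'⟩ := exists_dual_vector ℂ x₁ (norm_ne_zero_iff.2 hx₁0)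
  obtain ⟨b₂, hb₂, hb₂x'⟩ := exists_dual_vector ℂ x₂ (norm_ne_zero_iff.2 hx₂0)
  have hb₁x : b₁ x₁ = 1 := by rw [hb₁x', hx₁.hx]; simp
  have hb₂x : b₂ x₂ = 1 := by rw [hb₂x', hx₂.hx]; simp
  obtain ⟨s, hs0, hs1, hs⟩ : ∃ s : ℝ, 0 ≤ s ∧ s ≤ δ / 2 ∧ δ / 4 ≤ ‖v x₁ + s‖ := by
    by_cases hc : δ / 4 ≤ ‖v x₁‖
    · exact ⟨0, le_rfl, by positivity, by simpa using hc⟩
    · push Not at hc
      refine ⟨δ / 2, by positivity, le_rfl, ?_⟩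
      have h1 := norm_sub_le (v x₁ + ((δ / 2 : ℝ) : ℂ)) (v x₁)
      rw [add_sub_cancel_left, norm_ofReal' (by positivity)] at h1
      linarith
  obtain ⟨t, ht0, ht1, ht⟩ : ∃ t : ℝ, 0 ≤ t ∧ t ≤ δ / 8 ∧ δ / 16 ≤ ‖v x₂ + s * b₁ x₂ + t‖ := by
    by_cases hc : δ / 16 ≤ ‖v x₂ + s * b₁ x₂‖
    · exact ⟨0, le_rfl, by positivity, by simpa using hc⟩
    · push Not at hc
      refine ⟨δ / 8, by positivity, le_rfl, ?_⟩
      have h1 := norm_sub_le (v x₂ + s * b₁ x₂ + ((δ / 8 : ℝ) : ℂ)) (v x₂ + s * b₁ x₂)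
      rw [add_sub_cancel_left, norm_ofReal' (by positivity)] at h1
      linarith
  set b : X →L[ℂ] ℂ := ((s : ℝ) : ℂ) • b₁ + ((t : ℝ) : ℂ) • b₂ with hb
  have hbn : ‖b‖ ≤ δ := by
    refine (norm_add_le _ _).trans ?_
    rw [norm_smul, norm_smul, norm_ofReal' hs0, norm_ofReal' ht0, hb₁, hb₂]
    linarith
  set v' : X →L[ℂ] ℂ := v + b with hv'
  have hv'x₁ : v' x₁ = v x₁ + s + t * b₂ x₁ := by
    rw [hv', hb, ContinuousLinearMap.add_apply, ContinuousLinearMap.add_apply,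
      ContinuousLinearMap.smul_apply, ContinuousLinearMap.smul_apply, smul_eq_mul, smul_eq_mul,
      hb₁x]
    ring
  have hv'x₂ : v' x₂ = v x₂ + s * b₁ x₂ + t := by
    rw [hv', hb, ContinuousLinearMap.add_apply, ContinuousLinearMap.add_apply,
      ContinuousLinearMap.smul_apply, ContinuousLinearMap.smul_apply, smul_eq_mul, smul_eq_mul,
      hb₂x]
    ring
  have hβ₂ : δ / 16 ≤ ‖v' x₂‖ := by rw [hv'x₂]; exact ht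
  have hβ₁ : δ / 16 ≤ ‖v' x₁‖ := by
    have h1 := norm_sub_le (v' x₁) (t * b₂ x₁)
    have h2 : v' x₁ - t * b₂ x₁ = v x₁ + s := by rw [hv'x₁]; ring
    rw [h2, norm_mul, norm_ofReal' ht0] at h1
    have h3 : ‖b₂ x₁‖ ≤ 1 := by
      have := b₂.le_opNorm x₁
      rwa [hb₂, hx₁.hx, one_mul] at this
    have h4 : t * ‖b₂ x₁‖ ≤ δ / 8 * 1 := mul_le_mul ht1 h3 (norm_nonneg _) (by positivity)
    linarith
  have hv'K : ‖v'‖ ≤ K := by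
    have hq' : InB u₀ v₀ (4 * δ) (u + 0, v + b) :=
      (hp.add (ε' := δ) (by simpa using hδ.le) hbn).mono (by linarith)
    exact (h.hK _ hq').2
  obtain ⟨hD₁, hE₁⟩ := hx₁.key hv'K (by positivity) hβ₁ (by linarith) hl₁₁ hl₁₂ hθ₁1 hq₁
  obtain ⟨hD₂, hE₂⟩ := hx₂.key hv'K (by positivity) hβ₂ (by linarith) hl₂₁ hl₂₂ hθ₂1 hq₂
  rw [← hq₁def] at hE₁
  rw [← hq₂def] at hE₂
  have hgen : ∀ (D lam : ℂ), z₁ - lam ≠ 0 → 64 * Y * ‖z₁ - lam‖ ≤ δ ^ 2 →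
      δ / 16 / 2 ≤ ‖D‖ * ‖z₁ - lam‖ → D ≠ 0 ∧ ‖(Y : ℂ) / D‖ ≤ δ / 2 := by
    intro D lam hl hθ hD
    have hlp : 0 < ‖z₁ - lam‖ := norm_pos_iff.2 hl
    have hDp : 0 < ‖D‖ := by
      rcases (norm_nonneg D).eq_or_lt with h1 | h1
      · rw [← h1, zero_mul] at hD
        have : 0 < δ / 16 / 2 := by positivity
        linarith
      · exact h1
    refine ⟨norm_pos_iff.1 hDp, ?_⟩
    rw [norm_div, norm_ofReal' hY0.le, div_le_iff₀ hDp]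
    have h1 : δ * (δ / 16 / 2) ≤ δ * (‖D‖ * ‖z₁ - lam‖) := mul_le_mul_of_nonneg_left hD hδ.le
    have h2 : 2 * Y * ‖z₁ - lam‖ ≤ δ * ‖D‖ * ‖z₁ - lam‖ := by nlinarith
    have h3 : 2 * Y ≤ δ * ‖D‖ := le_of_mul_le_mul_right h2 hlp
    linarith
  set D₁ : ℂ := v' (resolvent T z₁ x₁) with hD₁def
  set D₂ : ℂ := v' (resolvent T z₁ x₂) with hD₂def
  obtain ⟨hD₁0, hα₁⟩ := hgen D₁ lam₁ hl₁₁ hθ₁ hD₁
  obtain ⟨hD₂0, hα₂⟩ := hgen D₂ lam₂ hl₂₁ hθ₂ hD₂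
  set α₁ : ℂ := (Y : ℂ) / D₁ with hα₁def
  set α₂ : ℂ := (Y : ℂ) / D₂ with hα₂def
  have hp1 : InB u₀ v₀ (4 * δ) (u + 0, v + b) :=
    (hp.add (ε' := δ) (by simpa using hδ.le) hbn).mono (by linarith)
  have hp2 : InB u₀ v₀ (4 * δ) (u + (α₂ • x₂ - α₁ • x₁), v + b) :=
    (hp.add (ε' := δ) (by
      refine (norm_sub_le _ _).trans ?_
      rw [norm_smul, norm_smul, hx₁.hx, hx₂.hx]
      linarith) hbn).mono (by linarith)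
  rw [add_zero] at hp1
  have hbw : ‖b w‖ ≤ δ * N₁ :=
    (b.le_opNorm w).trans (mul_le_mul hbn hw (norm_nonneg _) hδ.le)
  have hv1 : hh T (u, v + b) z₁ = b w := by
    show (v + b) (resolvent T z₁ u) = b w
    rw [ContinuousLinearMap.add_apply, h0, zero_add]
  have hv2 : hh T (u + (α₂ • x₂ - α₁ • x₁), v + b) z₁ = b w := by
    show v' (resolvent T z₁ (u + (α₂ • x₂ - α₁ • x₁))) = b w
    rw [map_add, map_add, map_sub, map_sub, map_smul, map_smul, map_smul, map_smul, smul_eq_mul,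
      smul_eq_mul, ← hD₁def, ← hD₂def, hα₁def, hα₂def, div_mul_cancel₀ _ hD₁0,
      div_mul_cancel₀ _ hD₂0, sub_self, add_zero]
    exact hv1
  have hf1 := h.hS (δ * N₁) _ hp1 (by rw [hv1]; exact hbw) z₂ (h.mem hz₂).1
  have hf2 := h.hS (δ * N₁) _ hp2 (by rw [hv2]; exact hbw) z₂ (h.mem hz₂).1
  set E₁ : ℂ := v' (resolvent T z₂ x₁) - q₁ * D₁ with hE₁def
  set E₂ : ℂ := v' (resolvent T z₂ x₂) - q₂ * D₂ with hE₂def
  have heq : hh T (u + (α₂ • x₂ - α₁ • x₁), v + b) z₂ - hh T (u, v + b) z₂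
      = -(Y * (q₁ - q₂)) + (α₂ * E₂ - α₁ * E₁) := by
    show v' (resolvent T z₂ (u + (α₂ • x₂ - α₁ • x₁))) - v' (resolvent T z₂ u) = _
    have h3 : α₁ * D₁ = (Y : ℂ) := div_mul_cancel₀ _ hD₁0
    have h4 : α₂ * D₂ = (Y : ℂ) := div_mul_cancel₀ _ hD₂0
    have e1 : v' (resolvent T z₂ x₁) = E₁ + q₁ * D₁ := by rw [hE₁def]; ring
    have e2 : v' (resolvent T z₂ x₂) = E₂ + q₂ * D₂ := by rw [hE₂def]; ring
    rw [map_add, map_add, map_sub, map_sub, map_smul, map_smul, map_smul, map_smul, smul_eq_mul,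
      smul_eq_mul, e1, e2]
    linear_combination q₂ * h4 - q₁ * h3
  have hKε : K * ε ≤ 1 / 32 := by linarith
  have hr : ‖α₂ * E₂ - α₁ * E₁‖ ≤ 1 := by
    refine (norm_sub_le _ _).trans ?_
    rw [norm_mul, norm_mul]
    have h1 : ‖α₁‖ * ‖E₁‖ ≤ 1 * (1 / 4) :=
      mul_le_mul (by linarith) (by linarith) (norm_nonneg _) (by norm_num)
    have h2 : ‖α₂‖ * ‖E₂‖ ≤ 1 * (1 / 4) :=
      mul_le_mul (by linarith) (by linarith) (norm_nonneg _) (by norm_num)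
    linarith
  have hmain : ‖(Y : ℂ) * (q₁ - q₂)‖ ≤ 2 * S (δ * N₁) + 1 := by
    have h1 : (Y : ℂ) * (q₁ - q₂) = (α₂ * E₂ - α₁ * E₁)
        - (hh T (u + (α₂ • x₂ - α₁ • x₁), v + b) z₂ - hh T (u, v + b) z₂) := by
      rw [heq]; ring
    rw [h1]
    refine (norm_sub_le _ _).trans ?_
    have h2 := norm_sub_le (hh T (u + (α₂ • x₂ - α₁ • x₁), v + b) z₂) (hh T (u, v + b) z₂)
    linarith
  rw [norm_mul, norm_ofReal' hY0.le] at hmain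
  have hY3 : Y * (3 * τ) ≤ Y * (8 * ‖q₁ - q₂‖) := mul_le_mul_of_nonneg_left hq hY0.le
  linarith

end Ctx

end Pool.Agent.K4H47.TR
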