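import Pool.Agent.K4H47.TR.Grow

/-!
# Generic rank one perturbations: zeros near the spectrum are impossible, second case
-/

set_option autoImplicit false
set_option linter.unusedSectionVars false
set_option linter.deprecated false
open Metric Set Filter Topology

namespace Pool.Agent.K4H47.TR

variable {X : Type} [NormedAddCommGroup X] [NormedSpace ℂ X] [CompleteSpace X]

/-- `x` is a unit vector which the resolvents at `z₁` and `z₂` map nearly to multiples of it -/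
structure AE (T : X →L[ℂ] X) (lam z₁ z₂ : ℂ) (ε : ℝ) (x : X) : Prop where
  hx : ‖x‖ = 1
  h1 : ‖resolvent T z₁ x - (z₁ - lam)⁻¹ • x‖ ≤ ε
  h2 : ‖resolvent T z₂ x - (z₂ - lam)⁻¹ • x‖ ≤ ε

lemma norm_ofReal' {r : ℝ} (hr : 0 ≤ r) : ‖(r : ℂ)‖ = r := by
  rw [Complex.norm_real, Real.norm_eq_abs, abs_of_nonneg hr]

namespace Ctx

variable {T : X →L[ℂ] X} {u₀ : X} {v₀ : X →L[ℂ] ℂ} {δ K CT : ℝ} {S : ℝ → ℝ} {z₁ : ℂ} {d : ℝ}

set_option maxHeartbeats 4000000 in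
/-- the case of large `R(z₁) u` -/
theorem caseB2 (h : Ctx T u₀ v₀ δ K CT S z₁ d) (hδ1 : δ ≤ 1) {u : X} {v : X →L[ℂ] ℂ}
    (hp : InB u₀ v₀ (2 * δ) (u, v)) (h0 : v (resolvent T z₁ u) = 0)
    {G τ c Y N₁ : ℝ} (hG : 1 ≤ G) (hτ : 0 < τ) (hc : c * (192 * G) = 1) (hc0 : 0 < c)
    (hY : 16 * (S 0 + K * (6 * S 0 / δ) + 2) ≤ Y * (3 * τ))
    (hN1 : 64 * (6 * S 0 / δ) ≤ N₁ * τ) (hN2 : 4 * Y ≤ N₁ * δ) (hY0 : 0 < Y)
    (hw : N₁ ≤ ‖resolvent T z₁ u‖) {z₂ : ℂ} (hz₂ : z₂ ∈ closedBall z₁ (d / 4))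
    (hz₂d : ‖z₁ - z₂‖ = τ * d) (hR : ‖resolvent T z₂‖ ≤ 2 * G / d)
    {b₀ : X →L[ℂ] ℂ} (hb₀ : ‖b₀‖ = 1) (hb₀w : b₀ (resolvent T z₁ u) = ‖resolvent T z₁ u‖)
    {lam : ℂ} {x : X} {ε : ℝ} (hx : AE T lam z₁ z₂ ε x) (hε : 64 * ε ≤ 1) (hε2 : 16 * K * ε ≤ δ * c)
    (hε0 : 0 ≤ ε) (hl1 : z₁ - lam ≠ 0) (hl2 : z₂ - lam ≠ 0)
    (hθ : 32 * Y * ‖z₁ - lam‖ ≤ δ ^ 2 * c) (hθ1 : ‖z₁ - lam‖ ≤ 1)
    (hq1 : ‖(z₁ - lam) / (z₂ - lam) - 1‖ ≤ τ) (hτ1 : τ ≤ 1)
    (hq2 : 3 * τ ≤ 16 * ‖(z₁ - lam) / (z₂ - lam) - b₀ (resolvent T z₂ u) / ‖resolvent T z₁ u‖‖) :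
    False := by
  have hδ := h.hδ
  have hd := h.hd
  have hd1 := h.hd1
  have hK1 := h.hK1
  have hS0 := h.hS0
  have hN1p : 0 < N₁ := by
    by_contra hle
    push Not at hle
    nlinarith
  set w := resolvent T z₁ u with hwdef
  have hwp : 0 < ‖w‖ := hN1p.trans_le hw
  have hw0 : w ≠ 0 := norm_pos_iff.1 hwp
  have hwc : ((‖w‖ : ℝ) : ℂ) ≠ 0 := Complex.ofReal_ne_zero.2 hwp.ne'
  set φ : ℂ := b₀ (resolvent T z₂ u) / ‖w‖ with hφ
  set q : ℂ := (z₁ - lam) / (z₂ - lam) with hq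
  set m : ℂ := z₁ - z₂ with hm
  have hz₂s : z₂ ∉ spectrum ℂ T := (h.mem hz₂).2.2
  set e : X := resolvent T z₂ u - φ • w with he
  have heC : ‖e‖ ≤ 6 * S 0 / δ :=
    h.approx_u (hp.mono (by linarith)) h0 hb₀ hb₀w hw0 hz₂
  set C₁ := 6 * S 0 / δ with hC₁
  have hC₁0 : 0 ≤ C₁ := by positivity
  have hqm : q - 1 = m * (z₂ - lam)⁻¹ := by
    rw [hq, hm]
    field_simp
    ring
  have hRu : resolvent T z₂ u = w + m • resolvent T z₂ w := by
    have h1 : u = (algebraMap ℂ (X →L[ℂ] X) z₂ - T) w + m • w := by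
      rw [hm, ← Z_apply T z₁ z₂, hwdef, Z_res h.z1]
    conv_lhs => rw [h1]
    rw [map_add, map_smul, res_surj hz₂s]
  have hK' : ‖v‖ ≤ K := (h.hK _ (hp.mono (by linarith))).2
  -- the functional
  obtain ⟨b₁, hb₁, hb₁w, hb₁x⟩ : ∃ b₁ : X →L[ℂ] ℂ, ‖b₁‖ ≤ 2 ∧ b₁ w = 0 ∧ c ≤ ‖b₁ x‖ := by
    by_contra hall
    push Not at hall
    set κ : ℂ := b₀ x / ‖w‖ with hκ
    set y : X := x - κ • w with hy
    have hyc : ‖y‖ ≤ c := by
      refine norm_le_of_dual fun b hb => ?_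
      set b' : X →L[ℂ] ℂ := b - (b w / ‖w‖) • b₀ with hb'
      have hb'n : ‖b'‖ ≤ 2 := by
        refine (norm_sub_le _ _).trans ?_
        rw [norm_smul, hb₀, norm_div, Complex.norm_real, norm_norm]
        have h1 : ‖b w‖ / ‖w‖ ≤ 1 := by
          rw [div_le_one hwp]
          exact (b.le_opNorm w).trans (by nlinarith)
        linarith
      have hb'0 : b' w = 0 := by
        rw [hb', ContinuousLinearMap.sub_apply, ContinuousLinearMap.smul_apply, hb₀w, smul_eq_mul,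
          div_mul_cancel₀ _ hwc, sub_self]
      have h2 : b y = b' x := by
        rw [hy, map_sub, map_smul, hb', ContinuousLinearMap.sub_apply,
          ContinuousLinearMap.smul_apply, smul_eq_mul, smul_eq_mul, hκ]
        ring
      rw [h2]
      exact (hall b' hb'n hb'0).le
    set f : X := resolvent T z₂ x - (z₂ - lam)⁻¹ • x with hf
    have hfε : ‖f‖ ≤ ε := hx.h2
    have hxy : x = κ • w + y := by rw [hy]; abel
    have key : (κ * (q - φ)) • w = κ • e + m • resolvent T z₂ y - (q - 1) • y - m • f := by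
      have h1 : m • resolvent T z₂ x = κ • (resolvent T z₂ u - w) + m • resolvent T z₂ y := by
        conv_lhs => rw [hxy]
        rw [map_add, map_smul, smul_add, hRu, add_sub_cancel_left, smul_comm]
      have h2 : m • resolvent T z₂ x = (q - 1) • x + m • f := by
        rw [hf, smul_sub, hqm, smul_smul]
        abel
      have h3 : resolvent T z₂ u = φ • w + e := by rw [he]; abel
      rw [h3] at h1
      rw [h1] at h2
      have h4 : κ • (φ • w + e - w) + m • resolvent T z₂ y = (q - 1) • (κ • w + y) + m • f := by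
        rw [h2, ← hxy]
      have h5 : (κ * (q - φ)) • w = (q - 1) • (κ • w + y) - (q - 1) • y - κ • (φ • w - w) := by
        module
      rw [h5]
      have h6 : (q - 1) • (κ • w + y) = κ • (φ • w + e - w) + m • resolvent T z₂ y - m • f := by
        rw [h4]; abel
      rw [h6]
      module
    have hn1 : ‖(κ * (q - φ)) • w‖ ≤ ‖κ‖ * C₁ + τ * d * (2 * G / d * c) + τ * c + τ * d * ε := by
      rw [key]
      have h1 : ‖κ • e‖ ≤ ‖κ‖ * C₁ := by
        rw [norm_smul]; exact mul_le_mul_of_nonneg_left heC (norm_nonneg _)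
      have h2 : ‖m • resolvent T z₂ y‖ ≤ τ * d * (2 * G / d * c) := by
        rw [norm_smul, hz₂d]
        refine mul_le_mul_of_nonneg_left ?_ (by positivity)
        exact ((resolvent T z₂).le_opNorm y).trans
          (mul_le_mul hR hyc (norm_nonneg _) (by positivity))
      have h3 : ‖(q - 1) • y‖ ≤ τ * c := by
        rw [norm_smul]; exact mul_le_mul hq1 hyc (norm_nonneg _) hτ.le
      have h4 : ‖m • f‖ ≤ τ * d * ε := by
        rw [norm_smul, hz₂d]; exact mul_le_mul_of_nonneg_left hfε (by positivity)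
      refine (norm_sub_le _ _).trans (add_le_add ((norm_sub_le _ _).trans
        (add_le_add ((norm_add_le _ _).trans (add_le_add h1 h2)) h3)) h4)
    have hn2 : ‖κ‖ * ‖w‖ ≤ 1 := by
      rw [hκ, norm_div, Complex.norm_real, norm_norm, div_mul_cancel₀ _ hwp.ne']
      have := b₀.le_opNorm x
      rwa [hb₀, hx.hx, one_mul] at this
    have hc1 : 192 * c ≤ 1 := by nlinarith
    have hn3 : 1 / 2 ≤ ‖κ‖ * ‖w‖ := by
      have h1 : ‖x‖ ≤ ‖κ • w‖ + ‖y‖ := by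
        conv_lhs => rw [hxy]
        exact norm_add_le _ _
      rw [hx.hx, norm_smul] at h1
      linarith
    have hn4 : ‖κ‖ * C₁ * 64 ≤ τ := by
      have h1 : ‖κ‖ * N₁ ≤ 1 := (mul_le_mul_of_nonneg_left hw (norm_nonneg _)).trans hn2
      have h2 : ‖κ‖ * (64 * C₁) ≤ ‖κ‖ * (N₁ * τ) := mul_le_mul_of_nonneg_left hN1 (norm_nonneg _)
      nlinarith
    have hn5 : τ * d * (2 * G / d * c) = τ * (2 * G * c) := by
      field_simp
    have hn6 : ‖(κ * (q - φ)) • w‖ = (‖κ‖ * ‖w‖) * ‖q - φ‖ := by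
      rw [norm_smul, norm_mul]; ring
    rw [hn6, hn5] at hn1
    have hn7 : 3 * τ / 32 ≤ (‖κ‖ * ‖w‖) * ‖q - φ‖ := by
      have h1 : 3 * τ / 16 ≤ ‖q - φ‖ := by linarith
      have h2 : 1 / 2 * (3 * τ / 16) ≤ (‖κ‖ * ‖w‖) * ‖q - φ‖ :=
        mul_le_mul hn3 h1 (by positivity) (by positivity)
      linarith
    have hn8 : τ * d * ε ≤ τ * (1 / 64) := by
      have : d * ε ≤ 1 / 64 := by nlinarith
      nlinarith
    have hn9 : τ * (2 * G * c) + τ * c ≤ τ * (1 / 64) := by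
      have : 2 * G * c + c ≤ 1 / 64 := by nlinarith
      nlinarith
    nlinarith
  -- choice of the functional
  set t₀ : ℝ := Y / ‖w‖ with ht₀
  have ht₀p : 0 < t₀ := by positivity
  have ht₀δ : t₀ ≤ δ / 4 := by
    rw [ht₀, div_le_iff₀ hwp]
    nlinarith
  set β₀ : ℂ := v x + t₀ * b₀ x with hβ₀
  obtain ⟨s, hs0, hs1, hsβ⟩ : ∃ s : ℝ, 0 ≤ s ∧ s ≤ δ / 4 ∧ δ * c / 8 ≤ ‖β₀ + s * b₁ x‖ := by
    by_cases hcase : δ * c / 8 ≤ ‖β₀‖
    · exact ⟨0, le_rfl, by positivity, by simpa using hcase⟩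
    · push Not at hcase
      refine ⟨δ / 4, by positivity, le_rfl, ?_⟩
      have h1 : ‖((δ / 4 : ℝ) : ℂ) * b₁ x‖ ≤ ‖β₀ + ((δ / 4 : ℝ) : ℂ) * b₁ x‖ + ‖β₀‖ := by
        have := norm_sub_le (β₀ + ((δ / 4 : ℝ) : ℂ) * b₁ x) β₀
        rwa [add_sub_cancel_left] at this
      rw [norm_mul, norm_ofReal' (by positivity)] at h1
      nlinarith
  set b : X →L[ℂ] ℂ := ((t₀ : ℝ) : ℂ) • b₀ + ((s : ℝ) : ℂ) • b₁ with hb
  have hbn : ‖b‖ ≤ δ := by
    refine (norm_add_le _ _).trans ?_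
    rw [norm_smul, norm_smul, norm_ofReal' ht₀p.le, norm_ofReal' hs0, hb₀]
    nlinarith
  have hbw : b w = (Y : ℂ) := by
    rw [hb, ContinuousLinearMap.add_apply, ContinuousLinearMap.smul_apply,
      ContinuousLinearMap.smul_apply, hb₀w, hb₁w, smul_zero, add_zero, smul_eq_mul, ← Complex.ofReal_mul,
      ht₀, div_mul_cancel₀ _ hwp.ne']
  set v' : X →L[ℂ] ℂ := v + b with hv'
  have hv'x : v' x = β₀ + s * b₁ x := by
    rw [hv', hb, hβ₀, ContinuousLinearMap.add_apply, ContinuousLinearMap.add_apply,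
      ContinuousLinearMap.smul_apply, ContinuousLinearMap.smul_apply, smul_eq_mul, smul_eq_mul]
    ring
  have hv'w : v' w = (Y : ℂ) := by
    rw [hv', ContinuousLinearMap.add_apply, h0, hbw, zero_add]
  have hv'K : ‖v'‖ ≤ K := by
    have hq' : InB u₀ v₀ (4 * δ) (u + 0, v + b) :=
      (hp.add (ε' := δ) (by simpa using hδ.le) hbn).mono (by linarith)
    exact (h.hK _ hq').2
  set β : ℂ := v' x with hβ
  have hβlow : δ * c / 8 ≤ ‖β‖ := by rw [hv'x]; exact hsβ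
  set g₁ : X := resolvent T z₁ x - (z₁ - lam)⁻¹ • x with hg₁
  set g₂ : X := resolvent T z₂ x - (z₂ - lam)⁻¹ • x with hg₂
  have hg₁' : ‖v' g₁‖ ≤ K * ε :=
    (v'.le_opNorm g₁).trans (mul_le_mul hv'K hx.h1 (norm_nonneg _) (by linarith))
  have hg₂' : ‖v' g₂‖ ≤ K * ε :=
    (v'.le_opNorm g₂).trans (mul_le_mul hv'K hx.h2 (norm_nonneg _) (by linarith))
  have hlp : 0 < ‖z₁ - lam‖ := norm_pos_iff.2 hl1
  set D : ℂ := v' (resolvent T z₁ x) with hD
  have hDeq : D = (z₁ - lam)⁻¹ * β + v' g₁ := by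
    rw [hD, hg₁, map_sub, map_smul, smul_eq_mul]
    ring
  have hDlow : δ * c / 16 ≤ ‖D‖ * ‖z₁ - lam‖ := by
    have h1 : β = (z₁ - lam) * D - (z₁ - lam) * v' g₁ := by
      rw [hDeq]
      field_simp
      ring
    have h2 : ‖β‖ ≤ ‖z₁ - lam‖ * ‖D‖ + ‖z₁ - lam‖ * ‖v' g₁‖ := by
      rw [h1]
      refine (norm_sub_le _ _).trans ?_
      rw [norm_mul, norm_mul]
    have h3 : ‖z₁ - lam‖ * ‖v' g₁‖ ≤ 1 * (K * ε) :=
      mul_le_mul hθ1 hg₁' (norm_nonneg _) (by norm_num)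
    have h4 : K * ε ≤ δ * c / 16 := by linarith
    linarith
  have hDp : 0 < ‖D‖ := by
    by_contra hle
    push Not at hle
    have : ‖D‖ = 0 := le_antisymm hle (norm_nonneg _)
    rw [this, zero_mul] at hDlow
    have : 0 < δ * c / 16 := by positivity
    linarith
  have hD0 : D ≠ 0 := norm_pos_iff.1 hDp
  set α : ℂ := -((Y : ℂ) / D) with hα
  have hαn : ‖α‖ ≤ δ := by
    rw [hα, norm_neg, norm_div, norm_ofReal' hY0.le, div_le_iff₀ hDp]
    have h1 : δ * (δ * c / 16) ≤ δ * (‖D‖ * ‖z₁ - lam‖) := mul_le_mul_of_nonneg_left hDlow hδ.le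
    have h2 : 2 * Y * ‖z₁ - lam‖ ≤ δ * ‖D‖ * ‖z₁ - lam‖ := by nlinarith
    have h3 : 2 * Y ≤ δ * ‖D‖ := le_of_mul_le_mul_right h2 hlp
    linarith
  have hq' : InB u₀ v₀ (4 * δ) (u + α • x, v + b) :=
    (hp.add (ε' := δ) (by rw [norm_smul, hx.hx, mul_one]; exact hαn) hbn).mono (by linarith)
  have hzero : hh T (u + α • x, v + b) z₁ = 0 := by
    show v' (resolvent T z₁ (u + α • x)) = 0
    rw [map_add, map_add, map_smul, map_smul, smul_eq_mul, ← hwdef, hv'w, ← hD, hα, neg_mul,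
      div_mul_cancel₀ _ hD0, add_neg_cancel]
  have hfin := h.hS 0 _ hq' (by rw [hzero, norm_zero]) z₂ (h.mem hz₂).1
  have heq : hh T (u + α • x, v + b) z₂ = Y * (φ - q) + (v' e - q * (α * v' g₁) + α * v' g₂) := by
    show v' (resolvent T z₂ (u + α • x)) = _
    have h1 : resolvent T z₂ u = φ • w + e := by rw [he]; abel
    have h2 : resolvent T z₂ x = (z₂ - lam)⁻¹ • x + g₂ := by rw [hg₂]; abel
    rw [map_add, map_add, map_smul, map_smul, h1, h2, map_add, map_add, map_smul, map_smul, hv'w,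
      smul_eq_mul, smul_eq_mul, smul_eq_mul]
    have h3 : α * D = -(Y : ℂ) := by
      rw [hα, neg_mul, div_mul_cancel₀ _ hD0]
    rw [hDeq] at h3
    have h4 : q * ((z₁ - lam)⁻¹ * β) = (z₂ - lam)⁻¹ * β := by
      rw [hq]; field_simp
    linear_combination q * h3 - α * h4
  rw [heq] at hfin
  have hqn : ‖q‖ ≤ 2 := by
    have : ‖q‖ ≤ ‖q - 1‖ + ‖(1 : ℂ)‖ := by simpa using norm_add_le (q - 1) 1
    rw [norm_one] at this
    linarith
  have hve : ‖v' e‖ ≤ K * C₁ :=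
    (v'.le_opNorm e).trans (mul_le_mul hv'K heC (norm_nonneg _) (by linarith))
  have hKε : K * ε ≤ 1 / 16 := by
    have : δ * c ≤ 1 := by nlinarith
    linarith
  have hα1 : ‖α‖ ≤ 1 := hαn.trans hδ1
  have hr1 : ‖q * (α * v' g₁)‖ ≤ 1 / 8 := by
    rw [norm_mul, norm_mul]
    have h1 : ‖α‖ * ‖v' g₁‖ ≤ 1 * (1 / 16) :=
      mul_le_mul hα1 (hg₁'.trans hKε) (norm_nonneg _) (by norm_num)
    have h2 : ‖q‖ * (‖α‖ * ‖v' g₁‖) ≤ 2 * (1 * (1 / 16)) :=
      mul_le_mul hqn h1 (by positivity) (by norm_num)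
    linarith
  have hr2 : ‖α * v' g₂‖ ≤ 1 / 16 := by
    rw [norm_mul]
    have h1 : ‖α‖ * ‖v' g₂‖ ≤ 1 * (1 / 16) :=
      mul_le_mul hα1 (hg₂'.trans hKε) (norm_nonneg _) (by norm_num)
    linarith
  have hrest : ‖v' e - q * (α * v' g₁) + α * v' g₂‖ ≤ K * C₁ + 1 := by
    refine (norm_add_le _ _).trans ?_
    have := norm_sub_le (v' e) (q * (α * v' g₁))
    linarith
  have hmain : ‖(Y : ℂ) * (φ - q)‖ ≤ S 0 + (K * C₁ + 1) := by
    have := norm_sub_le ((Y : ℂ) * (φ - q) + (v' e - q * (α * v' g₁) + α * v' g₂))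
      (v' e - q * (α * v' g₁) + α * v' g₂)
    rw [add_sub_cancel_right] at this
    linarith
  rw [norm_mul, norm_ofReal' hY0.le, norm_sub_rev] at hmain
  have hY3 : Y * (3 * τ) ≤ Y * (16 * ‖q - φ‖) := mul_le_mul_of_nonneg_left hq2 hY0.le
  linarith

end Ctx

end Pool.Agent.K4H47.TR
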