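import Pool.Agent.K4H47.TR.Res

/-!
# Generic rank one perturbations: bi-affine functions without zeros
-/

set_option autoImplicit false
set_option linter.unusedSectionVars false
set_option linter.deprecated false
open Metric Set Filter Topology

namespace Pool.Agent.K4H47.TR

/-- affine functions without zeros in a disc -/
lemma affine_ne {P Q : ℂ} {δ : ℝ} (h : ∀ t : ℂ, ‖t‖ < δ → P + Q * t ≠ 0) :
    ‖Q‖ * δ ≤ ‖P‖ := by
  by_contra hlt
  push Not at hlt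
  have hQ : Q ≠ 0 := by
    intro h0
    rw [h0, norm_zero, zero_mul] at hlt
    exact absurd hlt (not_lt.2 (norm_nonneg _))
  have hQ' : 0 < ‖Q‖ := norm_pos_iff.2 hQ
  apply h (-P / Q)
  · rw [norm_div, norm_neg, div_lt_iff₀ hQ', mul_comm]
    exact hlt
  · field_simp
    ring

lemma biaffine_ne {A B C D : ℂ} {δ : ℝ} (hδ : 0 < δ)
    (h : ∀ s t : ℂ, ‖s‖ < δ → ‖t‖ < δ → A + B * s + C * t + D * (s * t) ≠ 0) :
    ‖D‖ * δ ^ 2 ≤ 6 * ‖A‖ := by
  have h1 : ‖B‖ * δ ≤ ‖A‖ := affine_ne fun s hs => by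
    have := h s 0 hs (by simpa using hδ)
    simpa using this
  have h2 : ‖C‖ * δ ≤ ‖A‖ := affine_ne fun t ht => by
    have := h 0 t (by simpa using hδ) ht
    simpa using this
  have hs : ‖((δ / 2 : ℝ) : ℂ)‖ = δ / 2 := by
    rw [Complex.norm_real, Real.norm_eq_abs, abs_of_pos (by positivity)]
  have h3 : ‖C + D * ((δ / 2 : ℝ) : ℂ)‖ * δ ≤ ‖A + B * ((δ / 2 : ℝ) : ℂ)‖ :=
    affine_ne fun t ht => by
      have := h ((δ / 2 : ℝ) : ℂ) t (by rw [hs]; linarith) ht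
      intro h0
      apply this
      rw [← h0]
      ring
  have h4 : ‖D‖ * (δ / 2) ≤ ‖C + D * ((δ / 2 : ℝ) : ℂ)‖ + ‖C‖ := by
    have : ‖D * ((δ / 2 : ℝ) : ℂ)‖ ≤ ‖C + D * ((δ / 2 : ℝ) : ℂ)‖ + ‖C‖ := by
      have e : D * ((δ / 2 : ℝ) : ℂ) = (C + D * ((δ / 2 : ℝ) : ℂ)) - C := by ring
      calc ‖D * ((δ / 2 : ℝ) : ℂ)‖ = ‖(C + D * ((δ / 2 : ℝ) : ℂ)) - C‖ := by rw [← e]
        _ ≤ _ := norm_sub_le _ _
    rwa [norm_mul, hs] at this
  have h5 : ‖A + B * ((δ / 2 : ℝ) : ℂ)‖ ≤ ‖A‖ + ‖B‖ * (δ / 2) := by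
    refine (norm_add_le _ _).trans ?_
    rw [norm_mul, hs]
  have h6 := norm_nonneg A
  nlinarith [mul_le_mul_of_nonneg_right h4 hδ.le]

variable {X : Type} [NormedAddCommGroup X] [NormedSpace ℂ X] [CompleteSpace X]

/-- **The basic estimate.** If no pair near `p` takes the value `c` at `z`, then the resolvent is
bounded by `c - h_p(z)`. -/
lemma norm_res_le {T : X →L[ℂ] X} {p : X × (X →L[ℂ] ℂ)} {z c : ℂ} {δ : ℝ} (hδ : 0 < δ)
    (h : ∀ q : X × (X →L[ℂ] ℂ), ‖q.1 - p.1‖ < δ → ‖q.2 - p.2‖ < δ → hh T q z ≠ c) :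
    ‖resolvent T z‖ ≤ 6 / δ ^ 2 * ‖c - hh T p z‖ := by
  have key : ∀ (a : X) (b : X →L[ℂ] ℂ), ‖a‖ ≤ 1 → ‖b‖ ≤ 1 →
      ‖b (resolvent T z a)‖ ≤ 6 / δ ^ 2 * ‖c - hh T p z‖ := by
    intro a b ha hb
    have h1 := biaffine_ne (A := c - hh T p z) (B := -(p.2 (resolvent T z a)))
      (C := -(b (resolvent T z p.1))) (D := -(b (resolvent T z a))) hδ (by
        intro s t hs ht h0
        apply h (p.1 + s • a, p.2 + t • b)
        · simp only [add_sub_cancel_left, norm_smul]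
          calc ‖s‖ * ‖a‖ ≤ ‖s‖ * 1 := mul_le_mul_of_nonneg_left ha (norm_nonneg _)
            _ < δ := by rwa [mul_one]
        · simp only [add_sub_cancel_left, norm_smul]
          calc ‖t‖ * ‖b‖ ≤ ‖t‖ * 1 := mul_le_mul_of_nonneg_left hb (norm_nonneg _)
            _ < δ := by rwa [mul_one]
        · simp only [hh, map_add, map_smul, ContinuousLinearMap.add_apply,
            ContinuousLinearMap.smul_apply, smul_eq_mul] at h0 ⊢
          linear_combination -h0)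
    rw [norm_neg] at h1
    rw [div_mul_eq_mul_div, le_div_iff₀ (by positivity)]
    exact h1
  have hpos : 0 ≤ 6 / δ ^ 2 * ‖c - hh T p z‖ := by positivity
  refine ContinuousLinearMap.opNorm_le_of_unit_norm (𝕜 := ℂ) hpos fun a ha => ?_
  obtain ⟨b, hb1, hb2⟩ := exists_dual_vector'' ℂ (resolvent T z a)
  have := key a b ha.le hb1
  rw [hb2] at this
  simpa using this

end Pool.Agent.K4H47.TR
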