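import Pool.Agent.K4H47.TR.Iso

/-!
# Generic rank one perturbations: the theorem of Picard type
-/

set_option autoImplicit false
set_option linter.unusedSectionVars false
set_option linter.deprecated false
set_option linter.unusedVariables false
open Metric Set Filter Topology Polynomial

namespace Pool.Agent.K4H47.TR

variable {X : Type} [NormedAddCommGroup X] [NormedSpace ℂ X] [CompleteSpace X]

lemma att_mono {T : X →L[ℂ] X} {lam : ℂ} {r r' : ℝ} {p : X × (X →L[ℂ] ℂ)} {c : ℂ} (h : r ≤ r')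
    (ha : Att T lam r p c) : Att T lam r' p c := by
  obtain ⟨z₀, ρ, hρ, hsub, hlt⟩ := ha
  exact ⟨z₀, ρ, hρ, fun w hw => ⟨ball_subset_ball h (hsub hw).1, (hsub hw).2⟩, hlt⟩

/-- the pairs with two values which are not attained -/
def Bad (T : X →L[ℂ] X) (lam : ℂ) (r M η : ℝ) : Set (X × (X →L[ℂ] ℂ)) :=
  {p | ∃ c₁ c₂ : ℂ, ‖c₁‖ ≤ M ∧ ‖c₂‖ ≤ M ∧ η ≤ ‖c₁ - c₂‖ ∧ ¬ Att T lam r p c₁ ∧ ¬ Att T lam r p c₂}

lemma isClosed_bad (T : X →L[ℂ] X) (lam : ℂ) (r M η : ℝ) : IsClosed (Bad T lam r M η) := by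
  rw [← isOpen_compl_iff, isOpen_iff_mem_nhds]
  intro p hp
  set K₂ : Set (ℂ × ℂ) := {x | ‖x.1‖ ≤ M ∧ ‖x.2‖ ≤ M ∧ η ≤ ‖x.1 - x.2‖} with hK₂
  have hK : IsCompact K₂ := by
    refine ((isCompact_closedBall (0 : ℂ) M).prod (isCompact_closedBall (0 : ℂ) M)).of_isClosed_subset
      ?_ ?_
    · have h1 : IsClosed {x : ℂ × ℂ | ‖x.1‖ ≤ M} := isClosed_le (by fun_prop) (by fun_prop)
      have h2 : IsClosed {x : ℂ × ℂ | ‖x.2‖ ≤ M} := isClosed_le (by fun_prop) (by fun_prop)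
      have h3 : IsClosed {x : ℂ × ℂ | η ≤ ‖x.1 - x.2‖} := isClosed_le (by fun_prop) (by fun_prop)
      exact h1.inter (h2.inter h3)
    · rintro x ⟨h1, h2, -⟩
      exact ⟨by simpa using h1, by simpa using h2⟩
  have h : ∀ᶠ q in 𝓝 p, ∀ x ∈ K₂, Att T lam r q x.1 ∨ Att T lam r q x.2 := by
    refine hK.eventually_forall_of_forall_eventually fun x hx => ?_
    have hor : Att T lam r p x.1 ∨ Att T lam r p x.2 := by
      by_contra hno
      push Not at hno
      exact hp ⟨x.1, x.2, hx.1, hx.2.1, hx.2.2, hno.1, hno.2⟩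
    rcases hor with h1 | h1
    · have hc : ContinuousAt (fun y : (X × (X →L[ℂ] ℂ)) × (ℂ × ℂ) => (y.1, y.2.1)) (p, x) := by
        fun_prop
      exact (hc.eventually ((isOpen_att T lam r).mem_nhds h1)).mono fun y hy => Or.inl hy
    · have hc : ContinuousAt (fun y : (X × (X →L[ℂ] ℂ)) × (ℂ × ℂ) => (y.1, y.2.2)) (p, x) := by
        fun_prop
      exact (hc.eventually ((isOpen_att T lam r).mem_nhds h1)).mono fun y hy => Or.inr hy
  filter_upwards [h] with q hq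
  rintro ⟨c₁, c₂, h1, h2, h3, h4, h5⟩
  rcases hq (c₁, c₂) ⟨h1, h2, h3⟩ with h6 | h6
  · exact h4 h6
  · exact h5 h6

lemma dense_bad [Nontrivial X] {T : X →L[ℂ] X} {lam : ℂ} (hlf : lam ∈ frontier (spectrum ℂ T))
    (hlp : ¬ IsPole T lam) {r M η : ℝ} (hr : 0 < r) (hη : 0 < η) : Dense (Bad T lam r M η)ᶜ := by
  rw [← interior_eq_empty_iff_dense_compl, Set.eq_empty_iff_forall_notMem]
  intro p hp
  obtain ⟨ε, hε, hε'⟩ := Metric.isOpen_iff.1 isOpen_interior p hp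
  have hδ : 0 < min 1 (ε / 4) := by positivity
  refine hlp (pole_of_bad hlf (u₀ := p.1) (v₀ := p.2) (δ := min 1 (ε / 4)) (M := M) hr hδ
    (min_le_left _ _) hη fun q hq => ?_)
  have h4 : 4 * min 1 (ε / 4) ≤ ε := by
    have := min_le_right 1 (ε / 4)
    linarith
  have hq' : q ∈ ball p ε := by
    rw [mem_ball, Prod.dist_eq, max_lt_iff, dist_eq_norm, dist_eq_norm]
    exact ⟨hq.1.trans_le h4, hq.2.trans_le h4⟩
  have hb : q ∈ Bad T lam r M η := interior_subset (hε' hq')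
  exact hb

/-- **The theorem of Picard type.** -/
theorem picard [Nontrivial X] {T : X →L[ℂ] X} (hT : ¬ ∃ P : ℂ[X], P ≠ 0 ∧ aeval T P = 0) :
    ∀ᶠ p in residual (X × (X →L[ℂ] ℂ)), ∃ t₀ : ℂ, t₀ ≠ 1 ∧
      ∀ t : ℂ, t ≠ 0 → t ≠ t₀ → HH (T + t • F1 p) := by
  obtain ⟨lam, hlf, hlp⟩ : ∃ lam ∈ frontier (spectrum ℂ T), ¬ IsPole T lam := by
    by_contra hall
    push Not at hall
    exact hT (algebraic_of_poles hall)
  have hls : lam ∈ spectrum ℂ T := (spectrum.isClosed T).frontier_subset hlf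
  have hr : ∀ n : ℕ, (0 : ℝ) < 1 / ((n : ℝ) + 1) := fun n => by positivity
  have h1 : ∀ᶠ p in residual (X × (X →L[ℂ] ℂ)), ∀ n : ℕ, Att T lam (1 / ((n : ℝ) + 1)) p 1 := by
    refine eventually_countable_forall.2 fun n => ?_
    refine residual_of_dense_open ?_ (dense_att hlf hlp (hr n) one_ne_zero)
    have h1 : Continuous fun p : X × (X →L[ℂ] ℂ) => (p, (1 : ℂ)) := by fun_prop
    exact (isOpen_att T lam (1 / ((n : ℝ) + 1))).preimage h1
  have h2 : ∀ᶠ p in residual (X × (X →L[ℂ] ℂ)), ∀ n m k : ℕ,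
      p ∈ (Bad T lam (1 / ((n : ℝ) + 1)) m (1 / ((k : ℝ) + 1)))ᶜ := by
    refine eventually_countable_forall.2 fun n => eventually_countable_forall.2 fun m =>
      eventually_countable_forall.2 fun k => ?_
    exact residual_of_dense_open (isClosed_bad _ _ _ _ _).isOpen_compl
      (dense_bad hlf hlp (hr n) (hr k))
  filter_upwards [h1, h2] with p hp1 hp2
  have key : ∀ c c' : ℂ, c ≠ c' → ∀ n n' : ℕ, ¬ Att T lam (1 / ((n : ℝ) + 1)) p c →
      Att T lam (1 / ((n' : ℝ) + 1)) p c' := by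
    intro c c' hcc n n' hc
    by_contra hc'
    obtain ⟨k, hk⟩ := exists_nat_one_div_lt (norm_pos_iff.2 (sub_ne_zero.2 hcc))
    obtain ⟨m, hm⟩ := exists_nat_ge (max ‖c‖ ‖c'‖)
    refine hp2 (max n n') m k ⟨c, c', (le_max_left _ _).trans hm, (le_max_right _ _).trans hm,
      hk.le, fun h => hc (att_mono ?_ h), fun h => hc' (att_mono ?_ h)⟩
    · have : (n : ℝ) ≤ ((max n n' : ℕ) : ℝ) := by exact_mod_cast le_max_left n n'
      exact one_div_le_one_div_of_le (by positivity) (by linarith)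
    · have : (n' : ℝ) ≤ ((max n n' : ℕ) : ℝ) := by exact_mod_cast le_max_right n n'
      exact one_div_le_one_div_of_le (by positivity) (by linarith)
  by_cases hex : ∃ (c : ℂ) (n : ℕ), c ≠ 0 ∧ ¬ Att T lam (1 / ((n : ℝ) + 1)) p c
  · obtain ⟨c, n, hc0, hc⟩ := hex
    refine ⟨c⁻¹, fun h => ?_, fun t ht htc => ?_⟩
    · rw [inv_eq_one] at h
      rw [h] at hc
      exact hc (hp1 n)
    · refine HH_of_att hls ht fun n' => key c t⁻¹ (fun h => htc ?_) n n' hc
      rw [h, inv_inv]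
  · push Not at hex
    exact ⟨0, zero_ne_one, fun t ht _ => HH_of_att hls ht fun n => hex _ n (inv_ne_zero ht)⟩

end Pool.Agent.K4H47.TR
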