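import Pool.Agent.K4H47.TR.Tame

/-!
# Generic rank one perturbations: the growth of the resolvent at zeros, second part
-/

set_option autoImplicit false
set_option linter.unusedSectionVars false
set_option linter.deprecated false
open Metric Set Filter Topology

namespace Pool.Agent.K4H47.TR

variable {X : Type} [NormedAddCommGroup X] [NormedSpace ℂ X] [CompleteSpace X]

/-- the constants -/
noncomputable def cA (δ K CT : ℝ) (S : ℝ → ℝ) : ℝ := 4 * (2 * K + CT * (6 * S 0 / δ))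

/-- the constant of the growth of the resolvent -/
noncomputable def cG (δ K CT : ℝ) (S : ℝ → ℝ) : ℝ :=
  (4 * cA δ K CT S / δ + 4 * K * (8 * cA δ K CT S / δ) / δ) + 8 * cA δ K CT S / δ

namespace Ctx

variable {T : X →L[ℂ] X} {u₀ : X} {v₀ : X →L[ℂ] ℂ} {δ K CT : ℝ} {S : ℝ → ℝ} {z₁ : ℂ} {d : ℝ}

lemma cA_pos (h : Ctx T u₀ v₀ δ K CT S z₁ d) : 0 < cA δ K CT S := by
  have hδ := h.hδ
  have hS0 := h.hS0
  have hCT0 := h.hCT0
  have hK1 := h.hK1
  have hC : 0 ≤ CT * (6 * S 0 / δ) := by positivity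
  unfold cA
  linarith

/-- the growth of the resolvent at points where some pair in the ball has a zero -/
theorem growth (h : Ctx T u₀ v₀ δ K CT S z₁ d) {u : X} {v : X →L[ℂ] ℂ}
    (hp : InB u₀ v₀ (2 * δ) (u, v)) (h0 : v (resolvent T z₁ u) = 0) :
    ‖resolvent T z₁‖ ≤ cG δ K CT S / d := by
  have hδ := h.hδ
  have hd := h.hd
  have hK1 := h.hK1
  have hA := h.cA_pos
  set A := cA δ K CT S with hAdef
  set w := resolvent T z₁ u with hw
  have hp3 : InB u₀ v₀ (3 * δ) (u, v) := hp.mono (by linarith)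
  have hwA : ‖w‖ ≤ A / d := h.growth_u hp3 h0
  have hlA : ‖v.comp (resolvent T z₁)‖ ≤ A / d := h.growth_v hp3 h0
  have hn4 : ‖((δ / 4 : ℝ) : ℂ)‖ = δ / 4 := by
    rw [Complex.norm_real, Real.norm_eq_abs, abs_of_pos (by positivity)]
  -- functionals vanishing at `w`
  have hβ : ∀ b : X →L[ℂ] ℂ, ‖b‖ ≤ 2 → b w = 0 → ‖b.comp (resolvent T z₁)‖ ≤ 8 * A / δ / d := by
    intro b hb hb0
    have hq : InB u₀ v₀ (3 * δ) (u + 0, v + ((δ / 4 : ℝ) : ℂ) • b) :=
      (hp.add (ε' := δ) (by simpa using hδ.le) (by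
        rw [norm_smul, hn4]
        nlinarith)).mono (by linarith)
    rw [add_zero] at hq
    have h1 : (v + ((δ / 4 : ℝ) : ℂ) • b) (resolvent T z₁ u) = 0 := by
      rw [ContinuousLinearMap.add_apply, ContinuousLinearMap.smul_apply, h0, hb0, smul_zero,
        add_zero]
    have h2 := h.growth_v hq h1
    have h3 : ((δ / 4 : ℝ) : ℂ) • b.comp (resolvent T z₁)
        = (v + ((δ / 4 : ℝ) : ℂ) • b).comp (resolvent T z₁) - v.comp (resolvent T z₁) := by
      ext a
      simp
    have h4 : ‖((δ / 4 : ℝ) : ℂ) • b.comp (resolvent T z₁)‖ ≤ A / d + A / d := by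
      rw [h3]
      exact (norm_sub_le _ _).trans (add_le_add h2 hlA)
    rw [norm_smul, hn4] at h4
    rw [div_div, le_div_iff₀ (by positivity)]
    have h5 : (A / d + A / d) * (4 * d) = 8 * A := by
      field_simp
      ring
    nlinarith
  have hE : 0 < 8 * A / δ := by positivity
  set E := 8 * A / δ with hEdef
  set N := 4 * A / δ + 4 * K * E / δ with hN
  have hNpos : 0 < N := by positivity
  have hGeq : cG δ K CT S = N + E := by rw [hN, hEdef]; rfl
  rw [hGeq]
  refine norm_le_of_unit (by positivity) fun a ha => ?_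
  by_cases hw0 : w = 0
  · refine norm_le_of_dual fun b hb => ?_
    have h1 := hβ b (by linarith) (by rw [hw0, map_zero])
    have h2 : ‖b (resolvent T z₁ a)‖ ≤ ‖b.comp (resolvent T z₁)‖ * ‖a‖ :=
      (b.comp (resolvent T z₁)).le_opNorm a
    have h3 : ‖b.comp (resolvent T z₁)‖ * ‖a‖ ≤ E / d * 1 :=
      mul_le_mul h1 ha (norm_nonneg _) (by positivity)
    have h4 : E / d ≤ (N + E) / d := by gcongr; linarith
    linarith
  obtain ⟨b₀, hb₀, hb₀w'⟩ := exists_dual_vector ℂ w (norm_ne_zero_iff.2 hw0)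
  have hb₀w : b₀ w = ((‖w‖ : ℝ) : ℂ) := hb₀w'
  have hwp : 0 < ‖w‖ := norm_pos_iff.2 hw0
  have hwc : ((‖w‖ : ℝ) : ℂ) ≠ 0 := Complex.ofReal_ne_zero.2 hwp.ne'
  set κ : ℂ := b₀ (resolvent T z₁ a) / ‖w‖ with hκ
  set e : X := resolvent T z₁ a - κ • w with he
  have heE : ‖e‖ ≤ E / d := by
    refine norm_le_of_dual fun b hb => ?_
    set b' : X →L[ℂ] ℂ := b - (b w / ‖w‖) • b₀ with hb'
    have hb'n : ‖b'‖ ≤ 2 := by
      refine (norm_sub_le _ _).trans ?_
      rw [norm_smul, hb₀, norm_div, Complex.norm_real, norm_norm]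
      have h1 : ‖b w‖ / ‖w‖ ≤ 1 := by
        rw [div_le_one hwp]
        exact (b.le_opNorm w).trans (by nlinarith)
      linarith
    have hb'0 : b' w = 0 := by
      rw [hb', ContinuousLinearMap.sub_apply, ContinuousLinearMap.smul_apply, hb₀w, smul_eq_mul,
        div_mul_cancel₀ _ hwc, sub_self]
    have h1 := hβ b' hb'n hb'0
    have h2 : b e = b'.comp (resolvent T z₁) a := by
      rw [he, map_sub, map_smul, ContinuousLinearMap.comp_apply, hb',
        ContinuousLinearMap.sub_apply, ContinuousLinearMap.smul_apply, smul_eq_mul, smul_eq_mul,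
        hκ]
      ring
    rw [h2]
    have h3 : ‖b'.comp (resolvent T z₁) a‖ ≤ ‖b'.comp (resolvent T z₁)‖ * ‖a‖ :=
      (b'.comp (resolvent T z₁)).le_opNorm a
    have h4 : ‖b'.comp (resolvent T z₁)‖ * ‖a‖ ≤ E / d * 1 :=
      mul_le_mul h1 ha (norm_nonneg _) (by positivity)
    linarith
  have hκN : ‖κ‖ * ‖w‖ ≤ N / d := by
    by_contra hlt
    push Not at hlt
    have hn2 : ‖((δ / 2 : ℝ) : ℂ)‖ = δ / 2 := by
      rw [Complex.norm_real, Real.norm_eq_abs, abs_of_pos (by positivity)]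
    set v' : X →L[ℂ] ℂ := v + ((δ / 2 : ℝ) : ℂ) • b₀ with hv'
    have hK' : ‖v'‖ ≤ K := by
      have hq : InB u₀ v₀ (4 * δ) (u + 0, v + ((δ / 2 : ℝ) : ℂ) • b₀) :=
        (hp.add (ε' := δ) (by simpa using hδ.le) (by
          rw [norm_smul, hn2, hb₀]
          linarith)).mono (by linarith)
      exact (h.hK _ hq).2
    have hlu : v' (resolvent T z₁ u) = ((δ / 2 * ‖w‖ : ℝ) : ℂ) := by
      rw [hv', ContinuousLinearMap.add_apply, ContinuousLinearMap.smul_apply, h0, ← hw, hb₀w,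
        zero_add, smul_eq_mul]
      push_cast
      ring
    have hla : v' (resolvent T z₁ a) = κ * ((δ / 2 * ‖w‖ : ℝ) : ℂ) + v' e := by
      have h1 : resolvent T z₁ a = κ • w + e := by rw [he]; abel
      rw [h1, map_add, map_smul, smul_eq_mul]
      congr 2
    have hve : ‖v' e‖ ≤ K * (E / d) :=
      (v'.le_opNorm e).trans (mul_le_mul hK' heE (norm_nonneg _) (by linarith))
    have hcmp : K * (E / d) ≤ δ / 4 * (‖κ‖ * ‖w‖) := by
      have h1 : K * E ≤ δ / 4 * N := by
        have h2 : δ / 4 * (4 * K * E / δ) = K * E := by field_simp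
        have h3 : 0 ≤ δ / 4 * (4 * A / δ) := by positivity
        rw [hN, mul_add, h2]
        linarith
      have h2 : δ / 4 * (N / d) ≤ δ / 4 * (‖κ‖ * ‖w‖) :=
        mul_le_mul_of_nonneg_left hlt.le (by positivity)
      have h3 : K * (E / d) ≤ δ / 4 * (N / d) := by
        calc K * (E / d) = (K * E) / d := by ring
          _ ≤ (δ / 4 * N) / d := div_le_div_of_nonneg_right h1 hd.le
          _ = δ / 4 * (N / d) := by ring
      linarith
    have hlow : δ / 4 * (‖κ‖ * ‖w‖) ≤ ‖v' (resolvent T z₁ a)‖ := by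
      rw [hla]
      have h1 : ‖κ * ((δ / 2 * ‖w‖ : ℝ) : ℂ)‖ = δ / 2 * (‖κ‖ * ‖w‖) := by
        rw [norm_mul, Complex.norm_real, Real.norm_eq_abs, abs_of_nonneg (by positivity)]
        ring
      have h2 : ‖κ * ((δ / 2 * ‖w‖ : ℝ) : ℂ)‖ ≤ ‖κ * ((δ / 2 * ‖w‖ : ℝ) : ℂ) + v' e‖ + ‖v' e‖ := by
        have := norm_sub_le (κ * ((δ / 2 * ‖w‖ : ℝ) : ℂ) + v' e) (v' e)
        rwa [add_sub_cancel_right] at this
      linarith
    have hκw : 0 < ‖κ‖ * ‖w‖ := lt_trans (by positivity) hlt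
    have hκp : 0 < ‖κ‖ := by
      rcases (norm_nonneg κ).eq_or_lt with h1 | h1
      · rw [← h1, zero_mul] at hκw
        exact absurd hκw (lt_irrefl _)
      · exact h1
    have hlap : 0 < ‖v' (resolvent T z₁ a)‖ := lt_of_lt_of_le (by positivity) hlow
    set s : ℂ := -(v' (resolvent T z₁ u) / v' (resolvent T z₁ a)) with hs
    have hsn : ‖s‖ ≤ δ := by
      rw [hs, norm_neg, norm_div, hlu, Complex.norm_real, Real.norm_eq_abs,
        abs_of_nonneg (by positivity), div_le_iff₀ hlap]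
      -- ‖κ‖ ≥ 2/δ
      have h1 : 2 ≤ δ * ‖κ‖ := by
        have h2 : N / d < ‖κ‖ * (A / d) :=
          hlt.trans_le (mul_le_mul_of_nonneg_left hwA hκp.le)
        have h3 : N < ‖κ‖ * A := by
          rw [← mul_div_assoc, div_lt_div_iff_of_pos_right hd] at h2
          exact h2
        have h4 : 4 * A / δ ≤ N := by
          rw [hN]
          have : 0 ≤ 4 * K * E / δ := by positivity
          linarith
        have h5 : 4 * A ≤ δ * N := by
          rw [div_le_iff₀ hδ] at h4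
          linarith
        nlinarith
      calc δ / 2 * ‖w‖ ≤ δ * (δ / 4 * (‖κ‖ * ‖w‖)) := by
            nlinarith [mul_nonneg (sub_nonneg.2 h1) (mul_nonneg hδ.le hwp.le)]
        _ ≤ _ := mul_le_mul_of_nonneg_left hlow hδ.le
    have hq : InB u₀ v₀ (3 * δ) (u + s • a, v + ((δ / 2 : ℝ) : ℂ) • b₀) :=
      (hp.add (ε' := δ) (by
        rw [norm_smul]
        exact (mul_le_mul hsn ha (norm_nonneg _) hδ.le).trans (by linarith)) (by
        rw [norm_smul, hn2, hb₀]
        linarith)).mono (by linarith)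
    have hlane : v' (resolvent T z₁ a) ≠ 0 := norm_pos_iff.1 hlap
    have hz : v' (resolvent T z₁ (u + s • a)) = 0 := by
      rw [map_add, map_add, map_smul, map_smul, smul_eq_mul, hs, neg_mul,
        div_mul_cancel₀ _ hlane, add_neg_cancel]
    have h1 := h.growth_v hq hz
    have h2 : ‖v' (resolvent T z₁ a)‖ ≤ A / d := by
      have h3 : ‖v'.comp (resolvent T z₁) a‖ ≤ ‖v'.comp (resolvent T z₁)‖ * ‖a‖ :=
        (v'.comp (resolvent T z₁)).le_opNorm a
      have h4 : ‖v'.comp (resolvent T z₁)‖ * ‖a‖ ≤ A / d * 1 :=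
        mul_le_mul h1 ha (norm_nonneg _) (by positivity)
      rw [mul_one] at h4
      exact h3.trans h4
    have h3 : δ / 4 * (N / d) < A / d :=
      (mul_lt_mul_of_pos_left hlt (by positivity)).trans_le (hlow.trans h2)
    rw [← mul_div_assoc, div_lt_div_iff_of_pos_right hd] at h3
    have h4 : δ / 4 * N = A + K * E := by
      rw [hN]
      field_simp
    have h5 : 0 ≤ K * E := by positivity
    linarith
  have h1 : resolvent T z₁ a = κ • w + e := by rw [he]; abel
  rw [h1]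
  refine (norm_add_le _ _).trans ?_
  rw [norm_smul, add_div]
  exact add_le_add hκN heE

end Ctx

end Pool.Agent.K4H47.TR
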