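import Pool.Agent.K4H47.TR.Att

/-!
# Generic rank one perturbations: half-spaces
-/

set_option autoImplicit false
set_option linter.unusedSectionVars false
set_option linter.deprecated false
open Metric Set Filter Topology

namespace Pool.Agent.K4H47.TR

variable {X : Type} [NormedAddCommGroup X] [NormedSpace ℂ X] [CompleteSpace X]

/-- closed, of infinite dimension and of infinite codimension -/
def IsHalf (M : Submodule ℂ X) : Prop :=
  IsClosed (M : Set X) ∧ ¬ FiniteDimensional ℂ M ∧ ¬ FiniteDimensional ℂ (X ⧸ M)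

lemma half_of (x : ℕ → X) (y : ℕ → (X →L[ℂ] ℂ)) (hx : LinearIndependent ℂ x)
    (hy : LinearIndependent ℂ (fun n => ((y n : X →L[ℂ] ℂ) : Module.Dual ℂ X)))
    (hxy : ∀ m n, y n (x m) = 0) :
    IsHalf (Submodule.span ℂ (range x)).topologicalClosure := by
  set M := (Submodule.span ℂ (range x)).topologicalClosure with hM
  have hxM : ∀ n, x n ∈ M := fun n =>
    Submodule.le_topologicalClosure _ (Submodule.subset_span (mem_range_self n))
  have hker : ∀ n, M ≤ LinearMap.ker ((y n : X →L[ℂ] ℂ) : X →ₗ[ℂ] ℂ) := by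
    intro n
    refine Submodule.topologicalClosure_minimal _ ?_ (ContinuousLinearMap.isClosed_ker (y n))
    rw [Submodule.span_le]
    rintro _ ⟨m, rfl⟩
    exact hxy m n
  refine ⟨Submodule.isClosed_topologicalClosure _, fun hfin => ?_, fun hfin => ?_⟩
  · have h1 : LinearIndependent ℂ (fun n => (⟨x n, hxM n⟩ : M)) := by
      refine LinearIndependent.of_comp M.subtype ?_
      exact hx
    have := h1.finite_of_isNoetherian
    exact not_finite ℕ
  · have h1 : LinearIndependent ℂ (fun n => (M.liftQ _ (hker n) : Module.Dual ℂ (X ⧸ M))) := by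
      refine LinearIndependent.of_comp (M.mkQ.dualMap) ?_
      have : (M.mkQ.dualMap ∘ fun n => (M.liftQ _ (hker n) : Module.Dual ℂ (X ⧸ M)))
          = fun n => ((y n : X →L[ℂ] ℂ) : Module.Dual ℂ X) := by
        funext n
        ext a
        simp [LinearMap.dualMap_apply]
      rw [this]
      exact hy
    have := h1.finite_of_isNoetherian
    exact not_finite ℕ

lemma hyper_span (Q : X →L[ℂ] X) (x : ℕ → X) (h : ∀ n, ∃ c : ℂ, Q (x n) = c • x n) :
    ∀ a ∈ (Submodule.span ℂ (range x)).topologicalClosure,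
      Q a ∈ (Submodule.span ℂ (range x)).topologicalClosure := by
  set M := (Submodule.span ℂ (range x)).topologicalClosure with hM
  have hxM : ∀ n, x n ∈ M := fun n =>
    Submodule.le_topologicalClosure _ (Submodule.subset_span (mem_range_self n))
  have h1 : M ≤ M.comap (Q : X →ₗ[ℂ] X) := by
    refine Submodule.topologicalClosure_minimal _ ?_ ?_
    · rw [Submodule.span_le]
      rintro _ ⟨n, rfl⟩
      obtain ⟨c, hc⟩ := h n
      show Q (x n) ∈ M
      rw [hc]
      exact M.smul_mem c (hxM n)
    · exact (Submodule.isClosed_topologicalClosure _).preimage Q.continuous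
  exact fun a ha => h1 ha

/-- infinitely many eigenvalues off the spectrum of `T` give a hyperinvariant half-space -/
theorem half_of_infinite {T : X →L[ℂ] X} {p : X × (X →L[ℂ] ℂ)}
    (hinf : {z : ℂ | z ∉ spectrum ℂ T ∧ hh T p z = 1}.Infinite) :
    ∃ M : Submodule ℂ X, IsHalf M ∧
      ∀ Q : X →L[ℂ] X, Q * (T + F1 p) = (T + F1 p) * Q → ∀ a ∈ M, Q a ∈ M := by
  set e := hinf.natEmbedding with he
  set z : ℕ → ℂ := fun n => (e n : ℂ) with hz
  have hzi : Function.Injective z := fun m n h => e.injective (Subtype.ext h)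
  have hzs : ∀ n, z n ∉ spectrum ℂ T := fun n => (e n).2.1
  have hz1 : ∀ n, hh T p (z n) = 1 := fun n => (e n).2.2
  set S : X →L[ℂ] X := T + F1 p with hS
  set x : ℕ → X := fun n => resolvent T (z n) p.1 with hx
  set y : ℕ → (X →L[ℂ] ℂ) := fun n => p.2.comp (resolvent T (z n)) with hy
  have hSx : ∀ n, S (x n) = z n • x n := fun n => (eig (hzs n) (hz1 n)).1
  have hx0 : ∀ n, x n ≠ 0 := fun n => (eig (hzs n) (hz1 n)).2
  have hyS : ∀ n a, y n (S a) = z n * y n a := fun n a => eigd (hzs n) (hz1 n) a
  have hy0 : ∀ n, y n p.1 = 1 := fun n => hz1 n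
  have hxl : LinearIndependent ℂ x :=
    Module.End.eigenvectors_linearIndependent' (S : X →ₗ[ℂ] X) z hzi x fun n =>
      ⟨Module.End.mem_eigenspace_iff.2 (hSx n), hx0 n⟩
  have hyl : LinearIndependent ℂ (fun n => ((y n : X →L[ℂ] ℂ) : Module.Dual ℂ X)) :=
    Module.End.eigenvectors_linearIndependent' (LinearMap.dualMap (S : X →ₗ[ℂ] X)) z hzi _
      fun n => ⟨Module.End.mem_eigenspace_iff.2 (by
        ext a
        exact hyS n a), by
        intro h0
        have h1 := congrArg (fun f : Module.Dual ℂ X => f p.1) h0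
        have h2 : y n p.1 = 0 := h1
        rw [hy0] at h2
        exact one_ne_zero h2⟩
  have hxy : ∀ m n, m ≠ n → y n (x m) = 0 := by
    intro m n hmn
    have h1 := hyS n (x m)
    rw [hSx m, map_smul, smul_eq_mul] at h1
    have h2 : (z m - z n) * y n (x m) = 0 := by linear_combination h1
    rcases mul_eq_zero.1 h2 with h3 | h3
    · exact absurd (hzi (sub_eq_zero.1 h3)) hmn
    · exact h3
  refine ⟨_, half_of (fun n => x (2 * n)) (fun n => y (2 * n + 1))
    (hxl.comp _ fun a b h => by simpa using h) (hyl.comp (fun n => 2 * n + 1) fun a b h => by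
      simpa using h) (fun m n => hxy _ _ (by omega)), fun Q hQ => ?_⟩
  refine hyper_span Q _ fun n => ?_
  refine ⟨p.2 (Q (x (2 * n))), ?_⟩
  refine eig_unique (hzs (2 * n)) ?_
  have h1 : (Q * S) (x (2 * n)) = (S * Q) (x (2 * n)) := by rw [hQ]
  have h2 : Q (S (x (2 * n))) = S (Q (x (2 * n))) := h1
  rw [hSx, map_smul] at h2
  exact h2.symm

/-- a functional which vanishes on a finite-dimensional subspace but not at a given vector -/
lemma exists_functional (E : Submodule ℂ X) [FiniteDimensional ℂ E] {x : X} (hx : x ∉ E) :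
    ∃ f : X →L[ℂ] ℂ, f x = 1 ∧ ∀ a ∈ E, f a = 0 := by
  have hcl : IsClosed (E : Set X) := Submodule.closed_of_finiteDimensional E
  have hx0 : (Submodule.Quotient.mk x : X ⧸ E) ≠ 0 := by
    rwa [Ne, Submodule.Quotient.mk_eq_zero]
  obtain ⟨g, hg1, hg2⟩ := exists_dual_vector ℂ (Submodule.Quotient.mk x : X ⧸ E)
    (norm_ne_zero_iff.2 hx0)
  set f : X →L[ℂ] ℂ := g.comp (Submodule.mkQL E) with hf
  have hfx : f x ≠ 0 := by
    show g (Submodule.Quotient.mk x) ≠ 0
    rw [hg2]
    exact Complex.ofReal_ne_zero.2 (norm_ne_zero_iff.2 hx0)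
  refine ⟨(f x)⁻¹ • f, ?_, fun a ha => ?_⟩
  · simp [hfx]
  · have : f a = 0 := by
      show g (Submodule.Quotient.mk a) = 0
      rw [(Submodule.Quotient.mk_eq_zero E).2 ha, map_zero]
    simp [this]

/-- infinite-dimensional subspaces contain half-spaces -/
lemma exists_half (N : Submodule ℂ X) (hN : ¬ FiniteDimensional ℂ N) (hNc : IsClosed (N : Set X)) :
    ∃ M : Submodule ℂ X, IsHalf M ∧ M ≤ N := by
  classical
  obtain ⟨g, hg1, hg2⟩ := exists_seq_of_forall_finset_exists
    (fun q : X × (X →L[ℂ] ℂ) => q.1 ∈ N ∧ q.2 q.1 = 1)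
    (fun q q' => q.2 q'.1 = 0 ∧ q'.2 q.1 = 0) (by
      intro s hs
      set E : Submodule ℂ X := Submodule.span ℂ ((fun q : X × (X →L[ℂ] ℂ) => q.1) '' (s : Set _))
        with hE
      have : FiniteDimensional ℂ E := FiniteDimensional.span_of_finite ℂ (s.finite_toSet.image _)
      -- the common kernel
      set L : X →ₗ[ℂ] (s → ℂ) := LinearMap.pi fun q => ((q : X × (X →L[ℂ] ℂ)).2 : X →ₗ[ℂ] ℂ)
        with hL
      have h1 : ∃ x ∈ N, L x = 0 ∧ x ∉ E := by
        by_contra hall
        push Not at hall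
        apply hN
        -- `N` embeds into `E × (s → ℂ)` up to finite dimension
        set L' : N →ₗ[ℂ] (s → ℂ) := L.comp N.subtype with hL'
        have hk : FiniteDimensional ℂ (LinearMap.ker L') := by
          have hle : (LinearMap.ker L').map N.subtype ≤ E := by
            rintro _ ⟨a, ha, rfl⟩
            exact hall a a.2 ha
          have h2 : FiniteDimensional ℂ ((LinearMap.ker L').map N.subtype) :=
            Submodule.finiteDimensional_of_le hle
          exact LinearEquiv.finiteDimensional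
            (Submodule.equivMapOfInjective N.subtype N.injective_subtype (LinearMap.ker L')).symm
        have hq : FiniteDimensional ℂ (N ⧸ LinearMap.ker L') :=
          LinearEquiv.finiteDimensional L'.quotKerEquivRange.symm
        exact Module.Finite.of_submodule_quotient (LinearMap.ker L')
      obtain ⟨x, hxN, hxL, hxE⟩ := h1
      obtain ⟨f, hf1, hf2⟩ := exists_functional E hxE
      refine ⟨(x, f), ⟨hxN, hf1⟩, fun q hq => ⟨?_, ?_⟩⟩
      · have := congrFun hxL ⟨q, hq⟩
        simpa [hL] using this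
      · exact hf2 _ (Submodule.subset_span ⟨q, hq, rfl⟩))
  have hxy : ∀ m n, m ≠ n → (g n).2 (g m).1 = 0 := by
    intro m n hmn
    rcases lt_or_gt_of_ne hmn with h | h
    · exact (hg2 m n h).2
    · exact (hg2 n m h).1
  have hxl : LinearIndependent ℂ (fun n => (g n).1) := by
    rw [linearIndependent_iff']
    intro s c hc i hi
    have h1 := congrArg (fun a => (g i).2 a) hc
    simp only [map_sum, map_smul, map_zero, smul_eq_mul] at h1
    rw [Finset.sum_eq_single i] at h1
    · rwa [(hg1 i).2, mul_one] at h1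
    · intro j _ hj
      rw [hxy j i hj, mul_zero]
    · exact fun h => absurd hi h
  have hyl : LinearIndependent ℂ (fun n => (((g n).2 : X →L[ℂ] ℂ) : Module.Dual ℂ X)) := by
    rw [linearIndependent_iff']
    intro s c hc i hi
    have h1 := congrArg (fun f : Module.Dual ℂ X => f (g i).1) hc
    simp only [LinearMap.sum_apply, LinearMap.smul_apply, LinearMap.zero_apply,
      smul_eq_mul] at h1
    rw [Finset.sum_eq_single i] at h1
    · have h2 : c i * (g i).2 (g i).1 = 0 := h1
      rwa [(hg1 i).2, mul_one] at h2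
    · intro j _ hj
      have : (g j).2 (g i).1 = 0 := hxy i j (Ne.symm hj)
      show c j * (g j).2 (g i).1 = 0
      rw [this, mul_zero]
    · exact fun h => absurd hi h
  refine ⟨_, half_of (fun n => (g (2 * n)).1) (fun n => (g (2 * n + 1)).2)
    (hxl.comp _ fun a b h => by simpa using h) (hyl.comp (fun n => 2 * n + 1) fun a b h => by
      simpa using h) (fun m n => hxy _ _ (by omega)), ?_⟩
  refine Submodule.topologicalClosure_minimal _ ?_ hNc
  rw [Submodule.span_le]
  rintro _ ⟨n, rfl⟩
  exact (hg1 (2 * n)).1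

end Pool.Agent.K4H47.TR
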