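import Pool.Agent.K4H47.TR.Pic

/-!
# Generic rank one perturbations: isolated boundary points
-/

set_option autoImplicit false
set_option linter.unusedSectionVars false
set_option linter.deprecated false
set_option linter.unusedVariables false
open Metric Set Filter Topology

namespace Pool.Agent.K4H47.TR

variable {X : Type} [NormedAddCommGroup X] [NormedSpace ℂ X] [CompleteSpace X]

/-- Schottky's theorem along a circle -/
lemma chain_circle {T : X →L[ℂ] X} {lam : ℂ} {p : X × (X →L[ℂ] ℂ)} {S : ℝ → ℝ} {ρ : ℝ}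
    (hρ : 0 < ρ)
    (hS : ∀ M₁ : ℝ, ∀ z₁ : ℂ, ‖z₁ - lam‖ = ρ → ‖hh T p z₁‖ ≤ M₁ →
      ∀ z ∈ ball z₁ (ρ / 2), ‖hh T p z‖ ≤ S M₁)
    {M₁ : ℝ} {z₁ : ℂ} (hz₁ : ‖z₁ - lam‖ = ρ) (h1 : ‖hh T p z₁‖ ≤ M₁) {z : ℂ}
    (hz : ‖z - lam‖ = ρ) : ‖hh T p z‖ ≤ S^[7] M₁ := by
  have hz₁0 : z₁ - lam ≠ 0 := by
    intro h0
    rw [h0, norm_zero] at hz₁
    exact hρ.ne hz₁
  set q : ℂ := (z - lam) / (z₁ - lam) with hq
  have hqn : ‖q‖ = 1 := by rw [hq, norm_div, hz, hz₁, div_self hρ.ne']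
  set β : ℝ := q.arg / 7 with hβ
  have hβ' : |β| < 1 / 2 := by
    rw [hβ, abs_div, abs_of_pos (by norm_num : (0 : ℝ) < 7), div_lt_iff₀ (by norm_num)]
    have h2 := Complex.abs_arg_le_pi q
    have h3 := Real.pi_lt_d2
    linarith
  set w : ℕ → ℂ := fun k => lam + (z₁ - lam) * Complex.exp ((k * β : ℝ) * Complex.I) with hw
  have hwn : ∀ k, ‖w k - lam‖ = ρ := by
    intro k
    have : w k - lam = (z₁ - lam) * Complex.exp ((k * β : ℝ) * Complex.I) := by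
      show lam + (z₁ - lam) * Complex.exp ((k * β : ℝ) * Complex.I) - lam = _
      ring
    rw [this, norm_mul, Complex.norm_exp_ofReal_mul_I, hz₁, mul_one]
  have hstep : ∀ k, w (k + 1) ∈ ball (w k) (ρ / 2) := by
    intro k
    rw [mem_ball, dist_eq_norm]
    have h2 : w (k + 1) - w k = (z₁ - lam) * Complex.exp ((k * β : ℝ) * Complex.I)
        * (Complex.exp (Complex.I * (β : ℝ)) - 1) := by
      show lam + (z₁ - lam) * Complex.exp ((((k + 1 : ℕ) : ℝ) * β : ℝ) * Complex.I)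
        - (lam + (z₁ - lam) * Complex.exp ((k * β : ℝ) * Complex.I)) = _
      have h3 : (((((k + 1 : ℕ) : ℝ) * β : ℝ) : ℂ)) * Complex.I
          = ((k * β : ℝ) : ℂ) * Complex.I + Complex.I * (β : ℝ) := by
        push_cast
        ring
      rw [h3, Complex.exp_add]
      ring
    rw [h2, norm_mul, norm_mul, Complex.norm_exp_ofReal_mul_I, hz₁, mul_one]
    have h3 : ‖Complex.exp (Complex.I * (β : ℝ)) - 1‖ ≤ ‖β‖ := Real.norm_exp_I_mul_ofReal_sub_one_le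
    rw [Real.norm_eq_abs] at h3
    nlinarith
  have hind : ∀ k, ‖hh T p (w k)‖ ≤ S^[k] M₁ := by
    intro k
    induction k with
    | zero =>
      have : w 0 = z₁ := by
        show lam + (z₁ - lam) * Complex.exp ((((0 : ℕ) : ℝ) * β : ℝ) * Complex.I) = z₁
        simp
      rw [this]
      exact h1
    | succ k ih =>
      rw [Function.iterate_succ_apply']
      exact hS _ (w k) (hwn k) ih _ (hstep k)
  have hw7 : w 7 = z := by
    show lam + (z₁ - lam) * Complex.exp ((((7 : ℕ) : ℝ) * β : ℝ) * Complex.I) = z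
    have h2 : (((7 : ℕ) : ℝ) * β : ℝ) = q.arg := by
      rw [hβ]
      push_cast
      ring
    rw [h2]
    have h3 : Complex.exp ((q.arg : ℂ) * Complex.I) = q := by
      have := Complex.norm_mul_exp_arg_mul_I q
      rwa [hqn, Complex.ofReal_one, one_mul] at this
    rw [h3, hq, mul_div_cancel₀ _ hz₁0]
    ring
  rw [← hw7]
  exact hind 7

/-- the resolvent on the circle through a point where some pair in the ball has a zero -/
lemma circle_bound {T : X →L[ℂ] X} {u₀ : X} {v₀ : X →L[ℂ] ℂ} {δ K CT : ℝ} {S : ℝ → ℝ} {lam : ℂ}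
    {ρ : ℝ} (hρ : 0 < ρ)
    (hctx : ∀ z₁ : ℂ, ‖z₁ - lam‖ = ρ → Ctx T u₀ v₀ δ K CT S z₁ ρ)
    {z₁ : ℂ} (hz₁ : ‖z₁ - lam‖ = ρ) {u : X} {v : X →L[ℂ] ℂ} (hp : InB u₀ v₀ (2 * δ) (u, v))
    (h0 : v (resolvent T z₁ u) = 0) {κ : ℝ} (hκ : 0 < κ) (hκ1 : κ ≤ 1) (hκδ : κ ≤ δ)
    (hκA : κ * (2 * cA δ K CT S + cG δ K CT S) ≤ 1) {z : ℂ} (hz : ‖z - lam‖ = ρ) :
    ‖resolvent T z‖ * ‖z - lam‖ ^ 2 ≤ 4 * S^[7] 1 / κ ^ 2 := by
  have h := hctx z₁ hz₁
  have hδ := h.hδ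
  have hd := h.hd
  have hd1 := h.hd1
  have hA := h.cA_pos
  have hGd := h.growth hp h0
  have hud := h.growth_u (hp.mono (by linarith)) h0
  have hvd := h.growth_v (hp.mono (by linarith)) h0
  have hcA : 4 * (2 * K + CT * (6 * S 0 / δ)) = cA δ K CT S := rfl
  rw [hcA] at hud hvd
  set A := cA δ K CT S with hAdef
  set G := cG δ K CT S with hGdef
  have hG0 : 0 ≤ G := by
    have : 0 ≤ G / ρ := (norm_nonneg _).trans hGd
    by_contra hlt
    push Not at hlt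
    have := div_neg_of_neg_of_pos hlt hd
    linarith
  have hsmall : ∀ (a : X) (b : X →L[ℂ] ℂ), ‖a‖ ≤ κ * ρ → ‖b‖ ≤ κ * ρ →
      ‖hh T (u + a, v + b) z‖ ≤ S^[7] 1 := by
    intro a b ha hb
    have hκρ : κ * ρ ≤ δ := by nlinarith
    have hq : InB u₀ v₀ (4 * δ) (u + a, v + b) :=
      (hp.add (ε' := δ) (ha.trans hκρ) (hb.trans hκρ)).mono (by linarith)
    refine chain_circle hρ (fun M₁ z' hz' h1 z'' hz'' => (hctx z' hz').hS M₁ _ hq h1 z'' hz'')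
      hz₁ ?_ hz
    have e : hh T (u + a, v + b) z₁
        = v (resolvent T z₁ a) + b (resolvent T z₁ u) + b (resolvent T z₁ a) := by
      show (v + b) (resolvent T z₁ (u + a)) = _
      rw [map_add, map_add, ContinuousLinearMap.add_apply, ContinuousLinearMap.add_apply, h0]
      ring
    rw [e]
    have e1 : ‖v (resolvent T z₁ a)‖ ≤ A / ρ * (κ * ρ) := by
      have : ‖v (resolvent T z₁ a)‖ ≤ ‖v.comp (resolvent T z₁)‖ * ‖a‖ :=
        (v.comp (resolvent T z₁)).le_opNorm a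
      exact this.trans (mul_le_mul hvd ha (norm_nonneg _) (by positivity))
    have e2 : ‖b (resolvent T z₁ u)‖ ≤ κ * ρ * (A / ρ) :=
      (b.le_opNorm _).trans (mul_le_mul hb hud (norm_nonneg _) (by positivity))
    have e3 : ‖b (resolvent T z₁ a)‖ ≤ κ * ρ * (G / ρ * (κ * ρ)) := by
      refine (b.le_opNorm _).trans (mul_le_mul hb ?_ (norm_nonneg _) (by positivity))
      exact ((resolvent T z₁).le_opNorm a).trans (mul_le_mul hGd ha (norm_nonneg _) (by positivity))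
    have e4 : A / ρ * (κ * ρ) = κ * A := by field_simp
    have e5 : κ * ρ * (A / ρ) = κ * A := by field_simp
    have e6 : κ * ρ * (G / ρ * (κ * ρ)) = κ * G * (κ * ρ) := by field_simp
    rw [e4] at e1
    rw [e5] at e2
    rw [e6] at e3
    have e7 : κ * ρ ≤ 1 := by nlinarith
    have e8 : κ * G * (κ * ρ) ≤ κ * G * 1 := mul_le_mul_of_nonneg_left e7 (by positivity)
    refine (norm_add_le _ _).trans ?_
    have e9 := norm_add_le (v (resolvent T z₁ a)) (b (resolvent T z₁ u))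
    nlinarith
  have h00 : (0 : ℝ) ≤ κ * ρ := by positivity
  set B : ℝ := S^[7] 1 with hB
  have hB0 : 0 ≤ B := (norm_nonneg _).trans
    (hsmall 0 0 (by simpa using h00) (by simpa using h00))
  have hbil : ∀ (a : X) (b : X →L[ℂ] ℂ), ‖a‖ ≤ κ * ρ → ‖b‖ ≤ κ * ρ →
      ‖b (resolvent T z a)‖ ≤ 4 * B := by
    intro a b ha hb
    have f1 := hsmall a b ha hb
    have f2 := hsmall a 0 ha (by simpa using h00)
    have f3 := hsmall 0 b (by simpa using h00) hb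
    have f4 := hsmall 0 0 (by simpa using h00) (by simpa using h00)
    have e : b (resolvent T z a) = (hh T (u + a, v + b) z - hh T (u + a, v + 0) z)
        - (hh T (u + 0, v + b) z - hh T (u + 0, v + 0) z) := by
      show _ = ((v + b) (resolvent T z (u + a)) - (v + 0) (resolvent T z (u + a)))
        - ((v + b) (resolvent T z (u + 0)) - (v + 0) (resolvent T z (u + 0)))
      simp only [map_add, ContinuousLinearMap.add_apply, ContinuousLinearMap.zero_apply, map_zero]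
      ring
    rw [e]
    have g1 := norm_sub_le (hh T (u + a, v + b) z) (hh T (u + a, v + 0) z)
    have g2 := norm_sub_le (hh T (u + 0, v + b) z) (hh T (u + 0, v + 0) z)
    refine (norm_sub_le _ _).trans ?_
    linarith
  have hκρp : 0 < κ * ρ := by positivity
  have hn : ‖((κ * ρ : ℝ) : ℂ)‖ = κ * ρ := norm_ofReal' hκρp.le
  have hR : ‖resolvent T z‖ ≤ 4 * B / (κ * ρ) ^ 2 := by
    refine norm_le_of_unit (by positivity) fun a ha => norm_le_of_dual fun b hb => ?_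
    have h1 := hbil (((κ * ρ : ℝ) : ℂ) • a) (((κ * ρ : ℝ) : ℂ) • b)
      (by rw [norm_smul, hn]; nlinarith) (by rw [norm_smul, hn]; nlinarith)
    rw [map_smul, map_smul, ContinuousLinearMap.smul_apply, norm_smul, norm_smul, hn] at h1
    rw [le_div_iff₀ (by positivity)]
    nlinarith
  rw [hz]
  calc ‖resolvent T z‖ * ρ ^ 2 ≤ 4 * B / (κ * ρ) ^ 2 * ρ ^ 2 :=
        mul_le_mul_of_nonneg_right hR (by positivity)
    _ = 4 * B / κ ^ 2 := by field_simp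

/-- the maximum principle on annuli -/
lemma annulus_max {E : Type} [NormedAddCommGroup E] [NormedSpace ℂ E] {f : ℂ → E} {lam : ℂ}
    {d₁ d₂ C : ℝ} (hd₂ : 0 < d₂)
    (hf : ∀ z, d₂ ≤ ‖z - lam‖ → ‖z - lam‖ ≤ d₁ → DifferentiableAt ℂ f z)
    (h1 : ∀ z, ‖z - lam‖ = d₁ → ‖f z‖ ≤ C) (h2 : ∀ z, ‖z - lam‖ = d₂ → ‖f z‖ ≤ C) {z : ℂ}
    (hz2 : d₂ < ‖z - lam‖) (hz1 : ‖z - lam‖ < d₁) : ‖f z‖ ≤ C := by
  have hd₁ : 0 < d₁ := by linarith
  set U : Set ℂ := ball lam d₁ ∩ (closedBall lam d₂)ᶜ with hU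
  have hUo : IsOpen U := isOpen_ball.inter isClosed_closedBall.isOpen_compl
  have hclU : ∀ w ∈ closure U, d₂ ≤ ‖w - lam‖ ∧ ‖w - lam‖ ≤ d₁ := by
    intro w hw
    have hsub : U ⊆ closedBall lam d₁ ∩ (ball lam d₂)ᶜ := by
      rintro w ⟨hw1, hw2⟩
      exact ⟨ball_subset_closedBall hw1, fun h => hw2 (ball_subset_closedBall h)⟩
    have hcl : IsClosed (closedBall lam d₁ ∩ (ball lam d₂)ᶜ) :=
      isClosed_closedBall.inter isOpen_ball.isClosed_compl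
    obtain ⟨h3, h4⟩ := closure_minimal hsub hcl hw
    rw [mem_closedBall, dist_eq_norm] at h3
    rw [mem_compl_iff, mem_ball, dist_eq_norm, not_lt] at h4
    exact ⟨h4, h3⟩
  have hdc : DiffContOnCl ℂ f U := by
    constructor
    · intro w hw
      obtain ⟨h3, h4⟩ := hclU w (subset_closure hw)
      exact (hf w h3 h4).differentiableWithinAt
    · intro w hw
      obtain ⟨h3, h4⟩ := hclU w hw
      exact (hf w h3 h4).continuousAt.continuousWithinAt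
  refine Complex.norm_le_of_forall_mem_frontier_norm_le
    (isBounded_ball.subset inter_subset_left) hdc ?_ (subset_closure ⟨?_, ?_⟩)
  · intro w hw
    rcases frontier_inter_subset _ _ hw with ⟨h3, -⟩ | ⟨-, h3⟩
    · rw [frontier_ball lam hd₁.ne', mem_sphere, dist_eq_norm] at h3
      exact h1 w h3
    · rw [frontier_compl, frontier_closedBall lam hd₂.ne', mem_sphere, dist_eq_norm] at h3
      exact h2 w h3
  · rw [mem_ball, dist_eq_norm]
    exact hz1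
  · rw [mem_compl_iff, mem_closedBall, dist_eq_norm, not_le]
    exact hz2

/-- **Isolated boundary points.** -/
theorem pole_isolated [Nontrivial X] {T : X →L[ℂ] X} {lam : ℂ}
    (hl : lam ∈ frontier (spectrum ℂ T)) {r₁ : ℝ} (hr₁ : 0 < r₁)
    (hiso : ∀ s ∈ spectrum ℂ T, ‖s - lam‖ < r₁ → s = lam)
    {r₀ δ M η : ℝ} (hr₀ : 0 < r₀) (hδ : 0 < δ) (hδ1 : δ ≤ 1) (hη : 0 < η)
    {u₀ : X} {v₀ : X →L[ℂ] ℂ}
    (hbad : ∀ p, InB u₀ v₀ (4 * δ) p → ∃ c₁ c₂ : ℂ, ‖c₁‖ ≤ M ∧ ‖c₂‖ ≤ M ∧ η ≤ ‖c₁ - c₂‖ ∧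
      ¬ Att T lam r₀ p c₁ ∧ ¬ Att T lam r₀ p c₂) : IsPole T lam := by
  have hcl : IsClosed (spectrum ℂ T) := spectrum.isClosed T
  have hls : lam ∈ spectrum ℂ T := hcl.frontier_subset hl
  choose S hSa hSb hSc using fun M₁ => sch M η M₁ hη
  set K : ℝ := 1 + ‖u₀‖ + ‖v₀‖ + 4 * δ with hK
  set CT : ℝ := ‖lam‖ + 1 + ‖T‖ with hCT
  set ρ₀ : ℝ := min (min (r₀ / 2) (1 / 2)) (r₁ / 2) with hρ₀
  have hρ₀pos : 0 < ρ₀ := by positivity
  have hρa : ∀ ρ : ℝ, ρ ≤ ρ₀ → 2 * ρ ≤ r₀ ∧ 2 * ρ ≤ 1 ∧ 2 * ρ ≤ r₁ := by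
    intro ρ hρ
    have h1 : ρ ≤ r₀ / 2 := hρ.trans ((min_le_left _ _).trans (min_le_left _ _))
    have h2 : ρ ≤ 1 / 2 := hρ.trans ((min_le_left _ _).trans (min_le_right _ _))
    have h3 : ρ ≤ r₁ / 2 := hρ.trans (min_le_right _ _)
    exact ⟨by linarith, by linarith, by linarith⟩
  have hctx : ∀ ρ : ℝ, 0 < ρ → ρ ≤ ρ₀ → ∀ z₁ : ℂ, ‖z₁ - lam‖ = ρ →
      Ctx T u₀ v₀ δ K CT S z₁ ρ := by
    intro ρ hρ hρle z₁ hz₁
    obtain ⟨ha, hb, hc⟩ := hρa ρ hρle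
    have h1 := ctx_of (μ := lam) (z₁ := z₁) hδ hbad (S := S) (fun M₁ => ⟨hSa M₁, hSb M₁⟩) hSc
      (by rw [hz₁]; exact hρ) le_rfl (by
        intro w hw hws
        rw [mem_ball, dist_eq_norm, hz₁] at hw
        have h2 : ‖w - lam‖ ≤ ‖w - z₁‖ + ‖z₁ - lam‖ := norm_sub_le_norm_sub_add_norm_sub _ _ _
        have h3 := hiso w hws (by linarith)
        rw [h3, norm_sub_rev, hz₁] at hw
        exact absurd hw (lt_irrefl _)) (by rw [hz₁]; exact ha) (by rw [hz₁]; exact hb)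
    rwa [hz₁] at h1
  have hns : ∀ z : ℂ, 0 < ‖z - lam‖ → ‖z - lam‖ < r₁ → z ∉ spectrum ℂ T := by
    intro z hz0 hz1 hzs
    have := hiso z hzs hz1
    rw [this, sub_self, norm_zero] at hz0
    exact absurd hz0 (lt_irrefl _)
  by_cases hzero : ∀ ρ : ℝ, 0 < ρ → ∃ z₁ : ℂ, 0 < ‖z₁ - lam‖ ∧ ‖z₁ - lam‖ < ρ ∧
      ∃ q : X × (X →L[ℂ] ℂ), InB u₀ v₀ (2 * δ) q ∧ hh T q z₁ = 0
  · -- zeros on small circles
    have hA : 0 < cA δ K CT S := by
      obtain ⟨z₁, h1, h2, -⟩ := hzero ρ₀ hρ₀pos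
      exact (hctx _ h1 h2.le z₁ rfl).cA_pos
    set κ : ℝ := min (min 1 δ) (1 / (2 * cA δ K CT S + |cG δ K CT S|)) with hκ
    have hden : 0 < 2 * cA δ K CT S + |cG δ K CT S| := by
      have := abs_nonneg (cG δ K CT S)
      linarith
    have hκ0 : 0 < κ := by positivity
    have hκ1 : κ ≤ 1 := (min_le_left _ _).trans (min_le_left _ _)
    have hκδ : κ ≤ δ := (min_le_left _ _).trans (min_le_right _ _)
    have hκA : κ * (2 * cA δ K CT S + cG δ K CT S) ≤ 1 := by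
      have h1 : κ ≤ 1 / (2 * cA δ K CT S + |cG δ K CT S|) := min_le_right _ _
      rw [le_div_iff₀ hden] at h1
      have h2 := le_abs_self (cG δ K CT S)
      nlinarith
    have hcirc : ∀ ρ : ℝ, 0 < ρ → ∃ d : ℝ, 0 < d ∧ d < ρ ∧ d ≤ ρ₀ ∧
        ∀ z : ℂ, ‖z - lam‖ = d → ‖resolvent T z‖ * ‖z - lam‖ ^ 2 ≤ 4 * S^[7] 1 / κ ^ 2 := by
      intro ρ hρ
      obtain ⟨z₁, h1, h2, q, hq, hq0⟩ := hzero (min ρ ρ₀) (lt_min hρ hρ₀pos)
      refine ⟨‖z₁ - lam‖, h1, h2.trans_le (min_le_left _ _),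
        (h2.trans_le (min_le_right _ _)).le, fun z hz => ?_⟩
      exact circle_bound h1 (hctx _ h1 (h2.trans_le (min_le_right _ _)).le) rfl (u := q.1)
        (v := q.2) hq hq0 hκ0 hκ1 hκδ hκA hz
    obtain ⟨d₁, hd₁0, -, hd₁ρ, hd₁⟩ := hcirc 1 one_pos
    refine ⟨2, 4 * S^[7] 1 / κ ^ 2, d₁, hd₁0, fun z hz0 hz1 => ?_⟩
    have hd₁r : d₁ < r₁ := by
      have := (hρa d₁ hd₁ρ).2.2
      linarith
    refine ⟨hns z hz0 (hz1.trans hd₁r), ?_⟩
    obtain ⟨d₂, hd₂0, hd₂z, -, hd₂⟩ := hcirc ‖z - lam‖ hz0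
    have hfn : ∀ w : ℂ, ‖(w - lam) ^ 2 • resolvent T w‖ = ‖resolvent T w‖ * ‖w - lam‖ ^ 2 := by
      intro w
      rw [norm_smul, norm_pow, mul_comm]
    have h3 := annulus_max (f := fun w => (w - lam) ^ 2 • resolvent T w) (lam := lam) (d₁ := d₁)
      (d₂ := d₂) (C := 4 * S^[7] 1 / κ ^ 2) hd₂0 (fun w hw2 hw1 => by
        have hws : w ∉ spectrum ℂ T := hns w (hd₂0.trans_le hw2) (hw1.trans_lt hd₁r)
        exact ((differentiableAt_id.sub_const lam).pow 2).smul (differentiableAt_res hws))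
      (fun w hw => by rw [hfn]; exact hd₁ w hw) (fun w hw => by rw [hfn]; exact hd₂ w hw) hd₂z hz1
    rwa [hfn] at h3
  · -- no zeros
    push Not at hzero
    obtain ⟨ρ₁, hρ₁, hno⟩ := hzero
    refine pole_of hl (r := min ρ₁ r₁) (by positivity) (f := hh T (u₀, v₀))
      (C := 6 / (2 * δ) ^ 2) (fun z _ hzs => differentiableAt_hh _ hzs) fun z hz hzs => ?_
    rw [mem_ball, dist_eq_norm] at hz
    have hz0 : 0 < ‖z - lam‖ := by
      rw [norm_pos_iff, sub_ne_zero]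
      rintro rfl
      exact hzs hls
    have h1 : ∀ q : X × (X →L[ℂ] ℂ), ‖q.1 - u₀‖ < 2 * δ → ‖q.2 - v₀‖ < 2 * δ → hh T q z ≠ 0 :=
      fun q hq1 hq2 => hno z hz0 (hz.trans_le (min_le_left _ _)) q ⟨hq1, hq2⟩
    have h2 := norm_res_le (T := T) (p := (u₀, v₀)) (z := z) (c := 0) (δ := 2 * δ) (by positivity) h1
    rwa [zero_sub, norm_neg] at h2

/-- **Two values which are not attained, for all pairs in a ball, force a pole.** -/
theorem pole_of_bad [Nontrivial X] {T : X →L[ℂ] X} {lam : ℂ}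
    (hl : lam ∈ frontier (spectrum ℂ T))
    {r₀ δ M η : ℝ} (hr₀ : 0 < r₀) (hδ : 0 < δ) (hδ1 : δ ≤ 1) (hη : 0 < η)
    {u₀ : X} {v₀ : X →L[ℂ] ℂ}
    (hbad : ∀ p, InB u₀ v₀ (4 * δ) p → ∃ c₁ c₂ : ℂ, ‖c₁‖ ≤ M ∧ ‖c₂‖ ≤ M ∧ η ≤ ‖c₁ - c₂‖ ∧
      ¬ Att T lam r₀ p c₁ ∧ ¬ Att T lam r₀ p c₂) : IsPole T lam := by
  by_cases hacc : ∀ r : ℝ, 0 < r → ∃ s ∈ spectrum ℂ T, s ≠ lam ∧ ‖s - lam‖ < r
  · exact pole_nonisolated hl hacc hr₀ hδ hδ1 hη hbad
  · push Not at hacc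
    obtain ⟨r₁, hr₁, hiso⟩ := hacc
    refine pole_isolated hl hr₁ (fun s hs hsr => ?_) hr₀ hδ hδ1 hη hbad
    by_contra hne
    exact absurd hsr (not_lt.2 (hiso s hs hne))

end Pool.Agent.K4H47.TR
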