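import Pool.Agent.K4H47.TR.CaseA

/-!
# Generic rank one perturbations: zeros near the spectrum are impossible
-/

set_option autoImplicit false
set_option linter.unusedSectionVars false
set_option linter.deprecated false
set_option linter.unusedVariables false
open Metric Set Filter Topology

namespace Pool.Agent.K4H47.TR

variable {X : Type} [NormedAddCommGroup X] [NormedSpace ℂ X] [CompleteSpace X]

/-- frontier points of the spectrum are approximate eigenvalues -/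
lemma exists_approx {T : X →L[ℂ] X} {lam : ℂ} (hl : lam ∈ frontier (spectrum ℂ T)) {ε : ℝ}
    (hε : 0 < ε) : ∃ x : X, ‖x‖ = 1 ∧ ‖(algebraMap ℂ (X →L[ℂ] X) lam - T) x‖ ≤ ε := by
  have hcl : IsClosed (spectrum ℂ T) := spectrum.isClosed T
  have hls : lam ∈ spectrum ℂ T := hcl.frontier_subset hl
  have h1 : lam ∈ closure (spectrum ℂ T)ᶜ := by
    rw [frontier_eq_closure_inter_closure] at hl
    exact hl.2
  obtain ⟨z, hz, hdz⟩ := Metric.mem_closure_iff.1 h1 (ε / 3) (by positivity)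
  have hzs : z ∉ spectrum ℂ T := hz
  have hzl : ‖z - lam‖ < ε / 3 := by
    rw [dist_comm, dist_eq_norm] at hdz
    exact hdz
  have h2 := one_le_norm hzs hls
  have hne : 0 < ‖z - lam‖ := by
    rcases (norm_nonneg (z - lam)).eq_or_lt with h3 | h3
    · rw [← h3, zero_mul] at h2
      linarith
    · exact h3
  have hR : 0 < ‖resolvent T z‖ := by
    rcases (norm_nonneg (resolvent T z)).eq_or_lt with h3 | h3
    · rw [← h3, mul_zero] at h2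
      linarith
    · exact h3
  obtain ⟨y, hy, hyR⟩ : ∃ y : X, ‖y‖ ≤ 1 ∧ ‖resolvent T z‖ / 2 ≤ ‖resolvent T z y‖ := by
    by_contra hall
    push Not at hall
    have : ‖resolvent T z‖ ≤ ‖resolvent T z‖ / 2 :=
      norm_le_of_unit (by positivity) fun a ha => (hall a ha).le
    linarith
  have hyp : 0 < ‖resolvent T z y‖ := by linarith
  set k : ℝ := ‖resolvent T z y‖⁻¹ with hk
  have hk0 : 0 < k := inv_pos.2 hyp
  have hkn : ‖(k : ℂ)‖ = k := norm_ofReal' hk0.le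
  refine ⟨(k : ℂ) • resolvent T z y, ?_, ?_⟩
  · rw [norm_smul, hkn, hk]
    exact inv_mul_cancel₀ hyp.ne'
  · have h3 : (algebraMap ℂ (X →L[ℂ] X) lam - T) ((k : ℂ) • resolvent T z y)
        = (k : ℂ) • y + (lam - z) • ((k : ℂ) • resolvent T z y) := by
      rw [Z_apply T lam z, map_smul, Z_res hzs]
    rw [h3]
    refine (norm_add_le _ _).trans ?_
    rw [norm_smul, norm_smul, norm_smul, hkn, norm_sub_rev lam z]
    have h4 : k * ‖resolvent T z y‖ = 1 := inv_mul_cancel₀ hyp.ne'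
    rw [h4, mul_one]
    have h5 : k ≤ 2 * ‖z - lam‖ := by
      rw [hk, inv_le_iff_one_le_mul₀ hyp]
      nlinarith
    have h6 : k * ‖y‖ ≤ k * 1 := mul_le_mul_of_nonneg_left hy hk0.le
    linarith

lemma res_approx {T : X →L[ℂ] X} {lam z : ℂ} (hz : z ∉ spectrum ℂ T) (hzl : z - lam ≠ 0) (x : X) :
    resolvent T z x - (z - lam)⁻¹ • x
      = -((z - lam)⁻¹ • resolvent T z ((algebraMap ℂ (X →L[ℂ] X) lam - T) x)) := by
  have h1 : (algebraMap ℂ (X →L[ℂ] X) lam - T) x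
      = (algebraMap ℂ (X →L[ℂ] X) z - T) x + (lam - z) • x := Z_apply T lam z x
  rw [h1, map_add, map_smul, res_surj hz, smul_add, smul_smul]
  have h2 : (z - lam)⁻¹ * (lam - z) = -1 := by
    have : lam - z = -(z - lam) := by ring
    rw [this, mul_neg, inv_mul_cancel₀ hzl]
  rw [h2]
  module

lemma exists_AE {T : X →L[ℂ] X} {lam : ℂ} (hl : lam ∈ frontier (spectrum ℂ T)) {z₁ z₂ : ℂ}
    (hz₁ : z₁ ∉ spectrum ℂ T) (hz₂ : z₂ ∉ spectrum ℂ T) {ε : ℝ} (hε : 0 < ε) :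
    ∃ x : X, AE T lam z₁ z₂ ε x := by
  have hls : lam ∈ spectrum ℂ T := (spectrum.isClosed T).frontier_subset hl
  have hne : ∀ z, z ∉ spectrum ℂ T → z - lam ≠ 0 := by
    intro z hz h0
    rw [sub_eq_zero] at h0
    exact hz (h0 ▸ hls)
  set L : ℝ := ‖(z₁ - lam)⁻¹‖ * ‖resolvent T z₁‖ + ‖(z₂ - lam)⁻¹‖ * ‖resolvent T z₂‖ + 1 with hL
  have hLpos : 0 < L := by positivity
  obtain ⟨x, hx, hx'⟩ := exists_approx hl (ε := ε / L) (by positivity)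
  have key : ∀ z, z ∉ spectrum ℂ T → ‖(z - lam)⁻¹‖ * ‖resolvent T z‖ ≤ L →
      ‖resolvent T z x - (z - lam)⁻¹ • x‖ ≤ ε := by
    intro z hz hzL
    rw [res_approx hz (hne z hz), norm_neg, norm_smul]
    have h1 : ‖resolvent T z ((algebraMap ℂ (X →L[ℂ] X) lam - T) x)‖ ≤ ‖resolvent T z‖ * (ε / L) :=
      ((resolvent T z).le_opNorm _).trans (mul_le_mul_of_nonneg_left hx' (norm_nonneg _))
    calc _ ≤ ‖(z - lam)⁻¹‖ * (‖resolvent T z‖ * (ε / L)) :=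
          mul_le_mul_of_nonneg_left h1 (norm_nonneg _)
      _ = (‖(z - lam)⁻¹‖ * ‖resolvent T z‖) * (ε / L) := by ring
      _ ≤ L * (ε / L) := mul_le_mul_of_nonneg_right hzL (by positivity)
      _ = ε := by field_simp
  refine ⟨x, hx, key z₁ hz₁ ?_, key z₂ hz₂ ?_⟩
  · have : 0 ≤ ‖(z₂ - lam)⁻¹‖ * ‖resolvent T z₂‖ := by positivity
    linarith
  · have : 0 ≤ ‖(z₁ - lam)⁻¹‖ * ‖resolvent T z₁‖ := by positivity
    linarith

/-- the resolvent at nearby points -/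
lemma res_near {T : X →L[ℂ] X} {z₁ z₂ : ℂ} (hz₁ : z₁ ∉ spectrum ℂ T) (hz₂ : z₂ ∉ spectrum ℂ T)
    {G d : ℝ} (hd : 0 < d) (hG : 0 ≤ G) (hR : ‖resolvent T z₁‖ ≤ G / d)
    (h12 : ‖z₁ - z₂‖ * (4 * G) ≤ d) :
    ‖resolvent T z₂‖ ≤ 2 * G / d := by
  have hres : ∀ y : X, resolvent T z₂ y = resolvent T z₁ y
      + (z₁ - z₂) • resolvent T z₁ (resolvent T z₂ y) := by
    intro y
    have h1 : y = (algebraMap ℂ (X →L[ℂ] X) z₁ - T) (resolvent T z₂ y)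
        + (z₂ - z₁) • resolvent T z₂ y := by
      rw [← Z_apply T z₂ z₁, Z_res hz₂]
    have h2 : resolvent T z₁ y = resolvent T z₂ y
        + (z₂ - z₁) • resolvent T z₁ (resolvent T z₂ y) := by
      conv_lhs => rw [h1]
      rw [map_add, map_smul, res_surj hz₁]
    rw [h2]
    module
  have h3 : ‖resolvent T z₂‖ ≤ G / d + ‖z₁ - z₂‖ * (G / d * ‖resolvent T z₂‖) := by
    refine norm_le_of_unit (by positivity) fun a ha => ?_
    rw [hres a]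
    refine (norm_add_le _ _).trans ?_
    rw [norm_smul]
    have h4 : ‖resolvent T z₁ a‖ ≤ G / d * 1 :=
      ((resolvent T z₁).le_opNorm a).trans (mul_le_mul hR ha (norm_nonneg _) (by positivity))
    have h5 : ‖resolvent T z₂ a‖ ≤ ‖resolvent T z₂‖ * 1 :=
      ((resolvent T z₂).le_opNorm a).trans (mul_le_mul_of_nonneg_left ha (norm_nonneg _))
    have h6 : ‖resolvent T z₁ (resolvent T z₂ a)‖ ≤ G / d * (‖resolvent T z₂‖ * 1) :=
      ((resolvent T z₁).le_opNorm _).trans (mul_le_mul hR h5 (norm_nonneg _) (by positivity))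
    rw [mul_one] at h4 h6
    exact add_le_add h4 (mul_le_mul_of_nonneg_left h6 (norm_nonneg _))
  have h7 : ‖z₁ - z₂‖ * (G / d * ‖resolvent T z₂‖) ≤ ‖resolvent T z₂‖ / 4 := by
    have h8 : ‖z₁ - z₂‖ * (G / d) ≤ 1 / 4 := by
      rw [← mul_div_assoc, div_le_iff₀ hd]
      linarith
    calc ‖z₁ - z₂‖ * (G / d * ‖resolvent T z₂‖) = ‖z₁ - z₂‖ * (G / d) * ‖resolvent T z₂‖ := by ring
      _ ≤ 1 / 4 * ‖resolvent T z₂‖ := mul_le_mul_of_nonneg_right h8 (norm_nonneg _)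
      _ = _ := by ring
  have h9 : 0 ≤ G / d := by positivity
  have h10 : 2 * G / d = 2 * (G / d) := by ring
  rw [h10]
  linarith

set_option maxHeartbeats 4000000 in
/-- **No zeros near the spectrum.** -/
theorem no_zero {δ K CT : ℝ} {S : ℝ → ℝ} (hδ : 0 < δ) (hδ1 : δ ≤ 1) (hK1 : 1 ≤ K)
    (hS0 : 0 ≤ S 0) : ∃ θ : ℝ, 0 < θ ∧ ∀ (T : X →L[ℂ] X) (u₀ : X) (v₀ : X →L[ℂ] ℂ) (z₁ : ℂ)
      (d : ℝ), Ctx T u₀ v₀ δ K CT S z₁ d → ∀ lam₁ lam₂ : ℂ, lam₁ ∈ frontier (spectrum ℂ T) →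
      lam₂ ∈ frontier (spectrum ℂ T) → ‖z₁ - lam₁‖ = d → d ≤ θ → 9 * d ≤ ‖z₁ - lam₂‖ →
      ‖z₁ - lam₂‖ ≤ θ → ∀ (u : X) (v : X →L[ℂ] ℂ), InB u₀ v₀ (2 * δ) (u, v) →
      v (resolvent T z₁ u) ≠ 0 := by
  set G : ℝ := max 1 (cG δ K CT S) with hG
  have hG1 : 1 ≤ G := le_max_left _ _
  have hGp : 0 < G := by linarith
  set τ : ℝ := 1 / (4 * G) with hτ
  have hτ0 : 0 < τ := by positivity
  have hτG : τ * (4 * G) = 1 := by rw [hτ]; field_simp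
  have hτ4 : τ ≤ 1 / 4 := by nlinarith
  set c : ℝ := 1 / (192 * G) with hc
  have hc0 : 0 < c := by positivity
  have hcG : c * (192 * G) = 1 := by rw [hc]; field_simp
  have hc1 : c ≤ 1 := by nlinarith
  set C₁ : ℝ := 6 * S 0 / δ with hC₁
  have hC₁0 : 0 ≤ C₁ := by positivity
  set Y : ℝ := 16 * (S 0 + K * C₁ + 2) / (3 * τ) with hY
  have hY0 : 0 < Y := by positivity
  have hYe : Y * (3 * τ) = 16 * (S 0 + K * C₁ + 2) := by rw [hY]; field_simp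
  set N₁ : ℝ := 64 * C₁ / τ + 4 * Y / δ with hN₁
  have hN₁0 : 0 ≤ N₁ := by positivity
  have hN₁a : 64 * C₁ ≤ N₁ * τ := by
    have h1 : 64 * C₁ / τ * τ = 64 * C₁ := by field_simp
    have h2 : 0 ≤ 4 * Y / δ * τ := by positivity
    rw [hN₁, add_mul, h1]
    linarith
  have hN₁b : 4 * Y ≤ N₁ * δ := by
    have h1 : 4 * Y / δ * δ = 4 * Y := by field_simp
    have h2 : 0 ≤ 64 * C₁ / τ * δ := by positivity
    rw [hN₁, add_mul, h1]
    linarith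
  set Y₁ : ℝ := 8 * (2 * |S (δ * N₁)| + 2) / (3 * τ) with hY₁
  have hY₁0 : 0 < Y₁ := by positivity
  have hY₁e : 8 * (2 * S (δ * N₁) + 2) ≤ Y₁ * (3 * τ) := by
    have h1 : Y₁ * (3 * τ) = 8 * (2 * |S (δ * N₁)| + 2) := by rw [hY₁]; field_simp
    have h2 := le_abs_self (S (δ * N₁))
    linarith
  refine ⟨min 1 (min (δ ^ 2 * c / (32 * Y)) (δ ^ 2 / (64 * Y₁))), by positivity, ?_⟩
  intro T u₀ v₀ z₁ d h lam₁ lam₂ hl₁ hl₂ hz₁l₁ hdθ h9 hθ₂ u v hp h0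
  have hd := h.hd
  have hd1 := h.hd1
  have hz₁ := h.z1
  have hcl : IsClosed (spectrum ℂ T) := spectrum.isClosed T
  have hls₁ : lam₁ ∈ spectrum ℂ T := hcl.frontier_subset hl₁
  have hls₂ : lam₂ ∈ spectrum ℂ T := hcl.frontier_subset hl₂
  have hθa : ∀ r : ℝ, r ≤ min 1 (min (δ ^ 2 * c / (32 * Y)) (δ ^ 2 / (64 * Y₁))) →
      r ≤ 1 ∧ 32 * Y * r ≤ δ ^ 2 * c ∧ 64 * Y₁ * r ≤ δ ^ 2 := by
    intro r hr
    refine ⟨hr.trans (min_le_left _ _), ?_, ?_⟩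
    · have h1 : r ≤ δ ^ 2 * c / (32 * Y) :=
        hr.trans ((min_le_right _ _).trans (min_le_left _ _))
      rw [le_div_iff₀ (by positivity)] at h1
      linarith
    · have h1 : r ≤ δ ^ 2 / (64 * Y₁) :=
        hr.trans ((min_le_right _ _).trans (min_le_right _ _))
      rw [le_div_iff₀ (by positivity)] at h1
      linarith
  obtain ⟨ha1, ha2, ha3⟩ := hθa _ (hz₁l₁.le.trans hdθ)
  obtain ⟨hb1, hb2, hb3⟩ := hθa _ hθ₂
  set z₂ : ℂ := z₁ + (τ : ℂ) * (z₁ - lam₁) with hz₂def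
  have hz12 : ‖z₁ - z₂‖ = τ * d := by
    have : z₁ - z₂ = -((τ : ℂ) * (z₁ - lam₁)) := by rw [hz₂def]; ring
    rw [this, norm_neg, norm_mul, norm_ofReal' hτ0.le, hz₁l₁]
  have hz₂b : z₂ ∈ closedBall z₁ (d / 4) := by
    rw [mem_closedBall, dist_comm, dist_eq_norm, hz12]
    nlinarith
  have hz₂ : z₂ ∉ spectrum ℂ T := (h.mem hz₂b).2.2
  have hl₁₁ : z₁ - lam₁ ≠ 0 := by
    intro h1
    rw [h1, norm_zero] at hz₁l₁
    exact hd.ne hz₁l₁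
  have hne : ∀ z lam, z ∉ spectrum ℂ T → lam ∈ spectrum ℂ T → z - lam ≠ 0 := by
    intro z lam hz hlam h0
    rw [sub_eq_zero] at h0
    exact hz (h0 ▸ hlam)
  have hl₁₂ : z₂ - lam₁ ≠ 0 := hne _ _ hz₂ hls₁
  have hl₂₁ : z₁ - lam₂ ≠ 0 := hne _ _ hz₁ hls₂
  have hl₂₂ : z₂ - lam₂ ≠ 0 := hne _ _ hz₂ hls₂
  set q₁ : ℂ := (z₁ - lam₁) / (z₂ - lam₁) with hq₁
  set q₂ : ℂ := (z₁ - lam₂) / (z₂ - lam₂) with hq₂
  have hq₁e : q₁ - 1 = -((τ / (1 + τ) : ℝ) : ℂ) := by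
    have h1 : z₂ - lam₁ = (1 + (τ : ℂ)) * (z₁ - lam₁) := by rw [hz₂def]; ring
    have h2 : (1 + (τ : ℂ)) ≠ 0 := by
      have : ((1 + τ : ℝ) : ℂ) ≠ 0 := Complex.ofReal_ne_zero.2 (by positivity)
      simpa using this
    rw [hq₁, h1]
    push_cast
    field_simp
    ring
  have hq₁n : ‖q₁ - 1‖ = τ / (1 + τ) := by
    rw [hq₁e, norm_neg, norm_ofReal' (by positivity)]
  have hq₁low : τ / 2 ≤ ‖q₁ - 1‖ := by
    rw [hq₁n, div_le_div_iff₀ (by norm_num) (by positivity)]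
    nlinarith
  have hq₁up : ‖q₁ - 1‖ ≤ τ := by
    rw [hq₁n, div_le_iff₀ (by positivity)]
    nlinarith
  have hq₂e : q₂ - 1 = (z₁ - z₂) / (z₂ - lam₂) := by
    rw [hq₂]
    field_simp
    ring
  have hz₂l₂ : 8 * d ≤ ‖z₂ - lam₂‖ := by
    have h1 : ‖z₁ - lam₂‖ ≤ ‖z₁ - z₂‖ + ‖z₂ - lam₂‖ := norm_sub_le_norm_sub_add_norm_sub _ _ _
    rw [hz12] at h1
    have h2 : τ * d ≤ 1 / 4 * d := mul_le_mul_of_nonneg_right hτ4 hd.le
    linarith
  have hq₂up : ‖q₂ - 1‖ ≤ τ / 8 := by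
    rw [hq₂e, norm_div, hz12, div_le_iff₀ (by linarith)]
    have h2 : τ / 8 * (8 * d) ≤ τ / 8 * ‖z₂ - lam₂‖ :=
      mul_le_mul_of_nonneg_left hz₂l₂ (by positivity)
    linarith
  have hq12 : 3 * τ / 8 ≤ ‖q₁ - q₂‖ := by
    have h1 : ‖q₁ - 1‖ ≤ ‖q₁ - q₂‖ + ‖q₂ - 1‖ := norm_sub_le_norm_sub_add_norm_sub _ _ _
    linarith
  have hn2 : ∀ q : ℂ, ‖q - 1‖ ≤ τ → ‖q‖ ≤ 2 := by
    intro q hq
    have : ‖q‖ ≤ ‖q - 1‖ + ‖(1 : ℂ)‖ := by simpa using norm_add_le (q - 1) 1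
    rw [norm_one] at this
    linarith
  have hRz₁ : ‖resolvent T z₁‖ ≤ G / d :=
    (h.growth hp h0).trans (div_le_div_of_nonneg_right (le_max_right _ _) hd.le)
  have hRz₂ : ‖resolvent T z₂‖ ≤ 2 * G / d := res_near hz₁ hz₂ hd hGp.le hRz₁ (by
    rw [hz12]
    nlinarith)
  set ε : ℝ := δ * c / (64 * K) with hε
  have hK0 : 0 < K := by linarith
  have hε0 : 0 < ε := by positivity
  have hεK : 64 * (K * ε) = δ * c := by rw [hε]; field_simp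
  have hδc : δ * c ≤ 1 * 1 := mul_le_mul hδ1 hc1 hc0.le (by norm_num)
  have hδc2 : δ * c ≤ δ * 1 := mul_le_mul_of_nonneg_left hc1 hδ.le
  have hδc0 : 0 < δ * c := by positivity
  have hε64 : 64 * ε ≤ 1 := by nlinarith
  obtain ⟨x₁, hx₁⟩ := exists_AE hl₁ hz₁ hz₂ hε0
  obtain ⟨x₂, hx₂⟩ := exists_AE hl₂ hz₁ hz₂ hε0
  rcases le_total ‖resolvent T z₁ u‖ N₁ with hw | hw
  · exact h.caseB1 hδ1 hp h0 hτ0 hN₁0 hY₁e hY₁0 hw hz₂b hx₁ hx₂ (by linarith) hl₁₁ hl₁₂ hl₂₁ hl₂₂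
      ha3 hb3 ha1 hb1 (hn2 _ hq₁up) (hn2 _ (hq₂up.trans (by linarith))) (by linarith)
  · have hN₁p : 0 < N₁ := by
      have : 0 < 4 * Y / δ := by positivity
      have : 0 ≤ 64 * C₁ / τ := by positivity
      linarith
    have hw0 : resolvent T z₁ u ≠ 0 := norm_pos_iff.1 (hN₁p.trans_le hw)
    obtain ⟨b₀, hb₀, hb₀w⟩ := exists_dual_vector ℂ (resolvent T z₁ u) (norm_ne_zero_iff.2 hw0)
    by_cases hcase : 3 * τ ≤ 16 * ‖q₁ - b₀ (resolvent T z₂ u) / ‖resolvent T z₁ u‖‖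
    · exact h.caseB2 hδ1 hp h0 hG1 hτ0 hcG hc0 hYe.ge hN₁a hN₁b hY0 hw hz₂b hz12 hRz₂ hb₀ hb₀w
        hx₁ hε64 (by linarith) hε0.le hl₁₁ hl₁₂ ha2 ha1 hq₁up (by linarith) hcase
    · push Not at hcase
      refine h.caseB2 hδ1 hp h0 hG1 hτ0 hcG hc0 hYe.ge hN₁a hN₁b hY0 hw hz₂b hz12 hRz₂ hb₀ hb₀w
        hx₂ hε64 (by linarith) hε0.le hl₂₁ hl₂₂ hb2 hb1 (hq₂up.trans (by linarith)) (by linarith) ?_
      have h1 : ‖q₁ - q₂‖ ≤ ‖q₁ - b₀ (resolvent T z₂ u) / ‖resolvent T z₁ u‖‖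
          + ‖b₀ (resolvent T z₂ u) / ‖resolvent T z₁ u‖ - q₂‖ :=
        norm_sub_le_norm_sub_add_norm_sub _ _ _
      rw [norm_sub_rev (b₀ (resolvent T z₂ u) / ‖resolvent T z₁ u‖)] at h1
      linarith

end Pool.Agent.K4H47.TR
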