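import Pool.Agent.K4H47.TR.NoZero

/-!
# Generic rank one perturbations: boundary points which are not isolated
-/

set_option autoImplicit false
set_option linter.unusedSectionVars false
set_option linter.deprecated false
set_option linter.unusedVariables false
open Metric Set Filter Topology

namespace Pool.Agent.K4H47.TR

variable {X : Type} [NormedAddCommGroup X] [NormedSpace ℂ X] [CompleteSpace X]

/-- near an accumulation point of a closed set which is in the frontier there are other frontier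
points -/
lemma frontier_near {σ : Set ℂ} (hσ : IsClosed σ) {lam : ℂ} (hl : lam ∈ frontier σ)
    (hacc : ∀ r : ℝ, 0 < r → ∃ s ∈ σ, s ≠ lam ∧ ‖s - lam‖ < r) {r : ℝ} (hr : 0 < r) :
    ∃ μ ∈ frontier σ, μ ≠ lam ∧ ‖μ - lam‖ < r := by
  by_contra hno
  push Not at hno
  have hls : lam ∈ σ := hσ.frontier_subset hl
  set P : Set ℂ := (fun w => lam + Complex.exp w) '' {w : ℂ | w.re < Real.log r} with hP
  have hmem : ∀ s : ℂ, s ≠ lam → ‖s - lam‖ < r → s ∈ P := by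
    intro s hs hsr
    have h0 : s - lam ≠ 0 := sub_ne_zero.2 hs
    refine ⟨Complex.log (s - lam), ?_, ?_⟩
    · show (Complex.log (s - lam)).re < Real.log r
      rw [Complex.log_re]
      exact Real.log_lt_log (norm_pos_iff.2 h0) hsr
    · show lam + Complex.exp (Complex.log (s - lam)) = s
      rw [Complex.exp_log h0]
      ring
  have hmem' : ∀ s ∈ P, s ≠ lam ∧ ‖s - lam‖ < r := by
    rintro _ ⟨w, hw, rfl⟩
    have hw' : w.re < Real.log r := hw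
    constructor
    · intro h
      have : Complex.exp w = 0 := by simpa using h
      exact Complex.exp_ne_zero w this
    · show ‖lam + Complex.exp w - lam‖ < r
      rw [add_sub_cancel_left, Complex.norm_exp]
      calc Real.exp w.re < Real.exp (Real.log r) := Real.exp_lt_exp.2 hw'
        _ = r := Real.exp_log hr
  have hconv : Convex ℝ {w : ℂ | w.re < Real.log r} := by
    have : {w : ℂ | w.re < Real.log r} = Complex.reCLM ⁻¹' (Iio (Real.log r)) := rfl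
    rw [this]
    exact (convex_Iio _).linear_preimage Complex.reCLM.toLinearMap
  have hpre : IsPreconnected P := by
    refine hconv.isPreconnected.image _ (Continuous.continuousOn ?_)
    exact continuous_const.add Complex.continuous_exp
  have hsub : P ⊆ interior σ ∪ σᶜ := by
    intro s hs
    by_cases h : s ∈ σ
    · left
      by_contra hi
      have h1 : s ∈ frontier σ := by
        rw [hσ.frontier_eq]
        exact ⟨h, hi⟩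
      have h2 := hno s h1 (hmem' s hs).1
      exact absurd (hmem' s hs).2 (not_lt.2 h2)
    · exact Or.inr h
  obtain ⟨s, hs, hsl, hsr⟩ := hacc r hr
  have hsP := hmem s hsl hsr
  have hz : lam ∈ closure σᶜ := by
    rw [frontier_eq_closure_inter_closure] at hl
    exact hl.2
  obtain ⟨z, hz, hdz⟩ := Metric.mem_closure_iff.1 hz r hr
  rw [dist_comm, dist_eq_norm] at hdz
  have hzP := hmem z (fun h => hz (h ▸ hls)) hdz
  have hsi : s ∈ interior σ := by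
    rcases hsub hsP with h | h
    · exact h
    · exact absurd hs h
  obtain ⟨w, -, hw1, hw2⟩ := hpre (interior σ) σᶜ isOpen_interior hσ.isOpen_compl hsub
    ⟨s, hsP, hsi⟩ ⟨z, hzP, hz⟩
  exact hw2 (interior_subset hw1)

/-- the disc up to the nearest point of a closed set -/
lemma nearest {σ : Set ℂ} (hσ : IsCompact σ) {lam : ℂ} (hl : lam ∈ σ) {z : ℂ} (hz : z ∉ σ) :
    ∃ μ ∈ frontier σ, 0 < ‖z - μ‖ ∧ ‖z - μ‖ ≤ ‖z - lam‖ ∧ ∀ w ∈ ball z ‖z - μ‖, w ∉ σ := by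
  obtain ⟨μ, hμ, hd⟩ := hσ.exists_infDist_eq_dist ⟨lam, hl⟩ z
  have hd' : infDist z σ = ‖z - μ‖ := by rw [hd, dist_eq_norm]
  have hpos : 0 < ‖z - μ‖ := by
    rw [norm_pos_iff, sub_ne_zero]
    rintro rfl
    exact hz hμ
  have hball : ∀ w ∈ ball z ‖z - μ‖, w ∉ σ := by
    intro w hw hws
    have h1 : infDist z σ ≤ dist z w := infDist_le_dist_of_mem hws
    rw [hd'] at h1
    rw [mem_ball, dist_comm] at hw
    linarith
  refine ⟨μ, ?_, hpos, ?_, hball⟩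
  · rw [frontier_eq_closure_inter_closure]
    refine ⟨subset_closure hμ, ?_⟩
    have h1 : ball z ‖z - μ‖ ⊆ σᶜ := fun w hw => hball w hw
    have h2 : μ ∈ closure (ball z ‖z - μ‖) := by
      rw [closure_ball z hpos.ne', mem_closedBall, dist_comm, dist_eq_norm]
    exact closure_mono h1 h2
  · rw [← hd', ← dist_eq_norm]
    exact infDist_le_dist_of_mem hl

/-- Schottky's theorem for the functions `h_p` -/
lemma schottky_hh {T : X →L[ℂ] X} {lam : ℂ} {r₀ M η M₁ S : ℝ} (hMS : M₁ ≤ S)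
    (hS : ∀ (f : ℂ → ℂ) (c : ℂ) (r : ℝ), 0 < r →
      DifferentiableOn ℂ f (ball c r) → ∀ a b : ℂ, ‖a‖ ≤ M → ‖b‖ ≤ M → η ≤ ‖a - b‖ →
      (∀ z ∈ ball c r, f z ≠ a ∧ f z ≠ b) → ‖f c‖ ≤ M₁ → ∀ z ∈ ball c (r / 2), ‖f z‖ ≤ S)
    {p : X × (X →L[ℂ] ℂ)} {c₁ c₂ : ℂ} (hc₁ : ‖c₁‖ ≤ M) (hc₂ : ‖c₂‖ ≤ M) (hc : η ≤ ‖c₁ - c₂‖)
    (h₁ : ¬ Att T lam r₀ p c₁) (h₂ : ¬ Att T lam r₀ p c₂) {z₁ : ℂ} {d : ℝ} (hd : 0 < d)
    (hb : ∀ w ∈ ball z₁ d, w ∈ ball lam r₀ ∧ w ∉ spectrum ℂ T) (h1 : ‖hh T p z₁‖ ≤ M₁) :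
    ∀ z ∈ ball z₁ (d / 2), ‖hh T p z‖ ≤ S := by
  intro z hz
  have hzd : z ∈ ball z₁ d := ball_subset_ball (by linarith) hz
  have hconst : ∀ c, ¬ Att T lam r₀ p c → ∀ z' ∈ ball z₁ d, hh T p z' = c → ‖hh T p z‖ ≤ S := by
    intro c hnc z' hz' hc'
    have h2 : ∀ᶠ w in 𝓝 z', hh T p w = c := by
      by_contra hne
      exact hnc (att_of_isolated (hb z' hz').1 (hb z' hz').2 hc' hne)
    have h3 : AnalyticOnNhd ℂ (hh T p) (ball z₁ d) := fun w hw => analyticAt_hh p (hb w hw).2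
    have h4 : EqOn (hh T p) (fun _ => c) (ball z₁ d) :=
      h3.eqOn_of_preconnected_of_eventuallyEq (fun w _ => analyticAt_const)
        (convex_ball _ _).isPreconnected hz' h2
    rw [h4 hzd]
    have h5 := h4 (mem_ball_self hd)
    rw [h5] at h1
    exact h1.trans hMS
  by_cases hex : ∃ z' ∈ ball z₁ d, hh T p z' = c₁ ∨ hh T p z' = c₂
  · obtain ⟨z', hz', h | h⟩ := hex
    · exact hconst c₁ h₁ z' hz' h
    · exact hconst c₂ h₂ z' hz' h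
  · push Not at hex
    exact hS (hh T p) z₁ d hd (fun w hw => (differentiableAt_hh p (hb w hw).2).differentiableWithinAt)
      c₁ c₂ hc₁ hc₂ hc hex h1 z hz

lemma norm_alg_sub_le (T : X →L[ℂ] X) {lam z : ℂ} (hz : ‖z - lam‖ ≤ 1) :
    ‖algebraMap ℂ (X →L[ℂ] X) z - T‖ ≤ ‖lam‖ + 1 + ‖T‖ := by
  refine norm_le_of_unit (by positivity) fun a ha => ?_
  rw [ContinuousLinearMap.sub_apply, Algebra.algebraMap_eq_smul_one,
    ContinuousLinearMap.smul_apply, ContinuousLinearMap.one_apply]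
  refine (norm_sub_le _ _).trans ?_
  rw [norm_smul]
  have h1 : ‖z‖ ≤ ‖z - lam‖ + ‖lam‖ := by simpa using norm_add_le (z - lam) lam
  have h2 : ‖z‖ * ‖a‖ ≤ ‖z‖ * 1 := mul_le_mul_of_nonneg_left ha (norm_nonneg _)
  have h3 : ‖T a‖ ≤ ‖T‖ * 1 := (T.le_opNorm a).trans (mul_le_mul_of_nonneg_left ha (norm_nonneg _))
  linarith

/-- the situation of `Ctx` near a boundary point -/
lemma ctx_of {T : X →L[ℂ] X} {lam : ℂ} {r₀ δ M η : ℝ} (hδ : 0 < δ)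
    {u₀ : X} {v₀ : X →L[ℂ] ℂ}
    (hbad : ∀ p, InB u₀ v₀ (4 * δ) p → ∃ c₁ c₂ : ℂ, ‖c₁‖ ≤ M ∧ ‖c₂‖ ≤ M ∧ η ≤ ‖c₁ - c₂‖ ∧
      ¬ Att T lam r₀ p c₁ ∧ ¬ Att T lam r₀ p c₂) {S : ℝ → ℝ} (hS0 : ∀ M₁, 0 ≤ S M₁ ∧ M₁ ≤ S M₁)
    (hS : ∀ M₁, ∀ (f : ℂ → ℂ) (c : ℂ) (r : ℝ), 0 < r →
      DifferentiableOn ℂ f (ball c r) → ∀ a b : ℂ, ‖a‖ ≤ M → ‖b‖ ≤ M → η ≤ ‖a - b‖ →
      (∀ z ∈ ball c r, f z ≠ a ∧ f z ≠ b) → ‖f c‖ ≤ M₁ → ∀ z ∈ ball c (r / 2), ‖f z‖ ≤ S M₁)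
    {z₁ μ : ℂ} (hμ : 0 < ‖z₁ - μ‖) (hμl : ‖z₁ - μ‖ ≤ ‖z₁ - lam‖)
    (hball : ∀ w ∈ ball z₁ ‖z₁ - μ‖, w ∉ spectrum ℂ T) (hz₁ : 2 * ‖z₁ - lam‖ ≤ r₀)
    (hz₁' : 2 * ‖z₁ - lam‖ ≤ 1) :
    Ctx T u₀ v₀ δ (1 + ‖u₀‖ + ‖v₀‖ + 4 * δ) (‖lam‖ + 1 + ‖T‖) S z₁ ‖z₁ - μ‖ := by
  have hin : ∀ z ∈ ball z₁ ‖z₁ - μ‖, ‖z - lam‖ < 2 * ‖z₁ - lam‖ := by
    intro z hz
    rw [mem_ball, dist_eq_norm] at hz
    have h1 : ‖z - lam‖ ≤ ‖z - z₁‖ + ‖z₁ - lam‖ := norm_sub_le_norm_sub_add_norm_sub _ _ _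
    linarith
  refine ⟨hδ, ?_, ?_, hμ, by linarith, hball, ?_, by positivity, ?_, (hS0 0).1⟩
  · intro p hp
    have h1 : ‖p.1‖ ≤ ‖p.1 - u₀‖ + ‖u₀‖ := by simpa using norm_add_le (p.1 - u₀) u₀
    have h2 : ‖p.2‖ ≤ ‖p.2 - v₀‖ + ‖v₀‖ := by simpa using norm_add_le (p.2 - v₀) v₀
    have h3 := hp.1
    have h4 := hp.2
    have h5 := norm_nonneg u₀
    have h6 := norm_nonneg v₀
    constructor
    · linarith
    · linarith
  · have h5 := norm_nonneg u₀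
    have h6 := norm_nonneg v₀
    linarith
  · intro z hz
    exact norm_alg_sub_le T ((hin z hz).le.trans hz₁')
  · intro M₁ p hp h1
    obtain ⟨c₁, c₂, hc₁, hc₂, hc, h₁, h₂⟩ := hbad p hp
    refine schottky_hh (hS0 M₁).2 (hS M₁) hc₁ hc₂ hc h₁ h₂ hμ (fun w hw => ⟨?_, hball w hw⟩) h1
    rw [mem_ball, dist_eq_norm]
    exact (hin w hw).trans_le hz₁

/-- **Boundary points which are not isolated.** -/
theorem pole_nonisolated [Nontrivial X] {T : X →L[ℂ] X} {lam : ℂ}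
    (hl : lam ∈ frontier (spectrum ℂ T))
    (hacc : ∀ r : ℝ, 0 < r → ∃ s ∈ spectrum ℂ T, s ≠ lam ∧ ‖s - lam‖ < r)
    {r₀ δ M η : ℝ} (hr₀ : 0 < r₀) (hδ : 0 < δ) (hδ1 : δ ≤ 1) (hη : 0 < η)
    {u₀ : X} {v₀ : X →L[ℂ] ℂ}
    (hbad : ∀ p, InB u₀ v₀ (4 * δ) p → ∃ c₁ c₂ : ℂ, ‖c₁‖ ≤ M ∧ ‖c₂‖ ≤ M ∧ η ≤ ‖c₁ - c₂‖ ∧
      ¬ Att T lam r₀ p c₁ ∧ ¬ Att T lam r₀ p c₂) : IsPole T lam := by
  have hcl : IsClosed (spectrum ℂ T) := spectrum.isClosed T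
  have hls : lam ∈ spectrum ℂ T := hcl.frontier_subset hl
  choose S hSa hSb hSc using fun M₁ => sch M η M₁ hη
  have hK1 : 1 ≤ 1 + ‖u₀‖ + ‖v₀‖ + 4 * δ := by
    have h5 := norm_nonneg u₀
    have h6 := norm_nonneg v₀
    linarith
  obtain ⟨θ, hθ, hnz⟩ := no_zero (X := X) (CT := ‖lam‖ + 1 + ‖T‖) (S := S) hδ hδ1 hK1 (hSa 0)
  obtain ⟨lam₂, hl₂, hne₂, hlt₂⟩ := frontier_near hcl hl hacc (r := θ / 2) (by positivity)
  have hpos₂ : 0 < ‖lam₂ - lam‖ := norm_pos_iff.2 (sub_ne_zero.2 hne₂)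
  set ρ : ℝ := min (min (r₀ / 2) (1 / 2)) (min (‖lam₂ - lam‖ / 10) θ) with hρ
  have hρpos : 0 < ρ := by positivity
  refine pole_of hl hρpos (f := hh T (u₀, v₀)) (C := 6 / (2 * δ) ^ 2)
    (fun z _ hzs => differentiableAt_hh _ hzs) fun z hz hzs => ?_
  have hzl : ‖z - lam‖ < ρ := by rwa [mem_ball, dist_eq_norm] at hz
  have hz1 : ‖z - lam‖ < r₀ / 2 := hzl.trans_le ((min_le_left _ _).trans (min_le_left _ _))
  have hz2 : ‖z - lam‖ < 1 / 2 := hzl.trans_le ((min_le_left _ _).trans (min_le_right _ _))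
  have hz3 : ‖z - lam‖ < ‖lam₂ - lam‖ / 10 :=
    hzl.trans_le ((min_le_right _ _).trans (min_le_left _ _))
  have hz4 : ‖z - lam‖ < θ := hzl.trans_le ((min_le_right _ _).trans (min_le_right _ _))
  obtain ⟨μ, hμ, hμ0, hμl, hball⟩ := nearest (spectrum.isCompact T) hls hzs
  have hctx := ctx_of hδ hbad (S := S) (fun M₁ => ⟨hSa M₁, hSb M₁⟩) hSc hμ0 hμl hball
    (by linarith) (by linarith)
  have h1 : ∀ q : X × (X →L[ℂ] ℂ), ‖q.1 - u₀‖ < 2 * δ → ‖q.2 - v₀‖ < 2 * δ → hh T q z ≠ 0 := by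
    intro q hq1 hq2
    have ha : ‖lam₂ - lam‖ ≤ ‖z - lam₂‖ + ‖z - lam‖ := by
      rw [norm_sub_rev z lam₂]
      exact norm_sub_le_norm_sub_add_norm_sub _ _ _
    have hb : ‖z - lam₂‖ ≤ ‖z - lam‖ + ‖lam₂ - lam‖ := by
      rw [norm_sub_rev lam₂ lam]
      exact norm_sub_le_norm_sub_add_norm_sub _ _ _
    exact hnz T u₀ v₀ z ‖z - μ‖ hctx μ lam₂ hμ hl₂ rfl (by linarith) (by linarith) (by linarith)
      q.1 q.2 ⟨hq1, hq2⟩
  have h2 := norm_res_le (T := T) (p := (u₀, v₀)) (z := z) (c := 0) (δ := 2 * δ) (by positivity) h1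
  rwa [zero_sub, norm_neg] at h2

end Pool.Agent.K4H47.TR
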