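import Pool.Agent.K4H47.TR.Est

/-!
# Generic rank one perturbations: poles of the resolvent
-/

set_option autoImplicit false
set_option linter.unusedSectionVars false
set_option linter.deprecated false
open Metric Set Filter Topology

namespace Pool.Agent.K4H47.TR

variable {X : Type} [NormedAddCommGroup X] [NormedSpace ℂ X] [CompleteSpace X]

/-- the resolvent is defined and grows at most polynomially near `lam` -/
def IsPole (T : X →L[ℂ] X) (lam : ℂ) : Prop :=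
  ∃ (n : ℕ) (C ε : ℝ), 0 < ε ∧ ∀ z, 0 < ‖z - lam‖ → ‖z - lam‖ < ε →
    z ∉ spectrum ℂ T ∧ ‖resolvent T z‖ * ‖z - lam‖ ^ n ≤ C

open Classical in
/-- **The extension by zero.** If `f` is analytic off the spectrum and dominates the resolvent, then
`1 / f ^ 2`, extended by zero, is analytic, so a boundary point of the spectrum is a pole. -/
lemma pole_of [Nontrivial X] {T : X →L[ℂ] X} {lam : ℂ} (hl : lam ∈ frontier (spectrum ℂ T)) {r : ℝ}
    (hr : 0 < r) {f : ℂ → ℂ} {C : ℝ}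
    (hf : ∀ z ∈ ball lam r, z ∉ spectrum ℂ T → DifferentiableAt ℂ f z)
    (hC : ∀ z ∈ ball lam r, z ∉ spectrum ℂ T → ‖resolvent T z‖ ≤ C * ‖f z‖) : IsPole T lam := by
  have hcl : IsClosed (spectrum ℂ T) := spectrum.isClosed T
  have hls : lam ∈ spectrum ℂ T := hcl.frontier_subset hl
  have hCf : ∀ z ∈ ball lam r, z ∉ spectrum ℂ T → 0 < C * ‖f z‖ := fun z hz hzs =>
    (norm_res_pos hzs).trans_le (hC z hz hzs)
  have hf0 : ∀ z ∈ ball lam r, z ∉ spectrum ℂ T → f z ≠ 0 := fun z hz hzs h0 => by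
    have := hCf z hz hzs
    rw [h0, norm_zero, mul_zero] at this
    exact lt_irrefl _ this
  set g : ℂ → ℂ := fun z => if z ∈ spectrum ℂ T then 0 else ((f z)⁻¹) ^ 2 with hg
  have hg0 : ∀ z, z ∈ spectrum ℂ T → g z = 0 := fun z hz => by simp only [hg, if_pos hz]
  have hg1 : ∀ z, z ∉ spectrum ℂ T → g z = ((f z)⁻¹) ^ 2 := fun z hz => by
    simp only [hg, if_neg hz]
  have hgR : ∀ z ∈ ball lam r, z ∉ spectrum ℂ T →
      ‖g z‖ * ‖resolvent T z‖ ^ 2 ≤ C ^ 2 := by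
    intro z hz hzs
    rw [hg1 z hzs, norm_pow, norm_inv, ← mul_pow]
    have h1 : ‖f z‖⁻¹ * ‖resolvent T z‖ ≤ C := by
      rw [inv_mul_le_iff₀ (norm_pos_iff.2 (hf0 z hz hzs)), mul_comm]
      exact hC z hz hzs
    exact pow_le_pow_left₀ (by positivity) h1 2
  have hgb : ∀ w ∈ spectrum ℂ T, ∀ z ∈ ball lam r, ‖g z‖ ≤ C ^ 2 * ‖z - w‖ ^ 2 := by
    intro w hw z hz
    by_cases hzs : z ∈ spectrum ℂ T
    · rw [hg0 z hzs, norm_zero]; positivity
    · have h1 := one_le_norm hzs hw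
      have h2 := hgR z hz hzs
      calc ‖g z‖ = ‖g z‖ * 1 ^ 2 := by ring
        _ ≤ ‖g z‖ * (‖z - w‖ * ‖resolvent T z‖) ^ 2 :=
          mul_le_mul_of_nonneg_left (pow_le_pow_left₀ zero_le_one h1 2) (norm_nonneg _)
        _ = (‖g z‖ * ‖resolvent T z‖ ^ 2) * ‖z - w‖ ^ 2 := by ring
        _ ≤ C ^ 2 * ‖z - w‖ ^ 2 := mul_le_mul_of_nonneg_right h2 (by positivity)
  have hdiff : DifferentiableOn ℂ g (ball lam r) := by
    intro w hw
    apply DifferentiableAt.differentiableWithinAt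
    by_cases hws : w ∈ spectrum ℂ T
    · have : HasDerivAt g 0 w := by
        rw [hasDerivAt_iff_isLittleO, hg0 w hws]
        have h1 : (fun z => g z - 0 - (z - w) • (0 : ℂ)) =O[𝓝 w] fun z => ‖z - w‖ ^ 2 := by
          refine Asymptotics.IsBigO.of_bound (C ^ 2) ?_
          filter_upwards [isOpen_ball.mem_nhds hw] with z hz
          simp only [sub_zero, smul_zero, norm_pow, norm_norm]
          exact hgb w hws z hz
        refine h1.trans_isLittleO ?_
        have h2 : (fun z : ℂ => ‖z - w‖ ^ 2) =o[𝓝 w] fun z => ‖z - w‖ := by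
          have h3 : (fun x : ℝ => x ^ 2) =o[𝓝 0] fun x : ℝ => x := by
            simpa using (Asymptotics.isLittleO_pow_pow (𝕜 := ℝ) (m := 1) (n := 2) (by norm_num))
          have h4 : Tendsto (fun z : ℂ => ‖z - w‖) (𝓝 w) (𝓝 0) := by
            have : ContinuousAt (fun z : ℂ => ‖z - w‖) w := by fun_prop
            simpa [ContinuousAt] using this
          exact h3.comp_tendsto h4
        exact h2.trans_isBigO (Asymptotics.isBigO_norm_left.2 (Asymptotics.isBigO_refl _ _))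
      exact this.differentiableAt
    · have h1 : g =ᶠ[𝓝 w] fun z => ((f z)⁻¹) ^ 2 := by
        filter_upwards [hcl.isOpen_compl.mem_nhds hws] with z hz
        exact hg1 z hz
      refine DifferentiableAt.congr_of_eventuallyEq ?_ h1
      exact ((hf w hw hws).inv (hf0 w hw hws)).pow 2
  have han : AnalyticAt ℂ g lam := hdiff.analyticAt (ball_mem_nhds lam hr)
  have hnz : ¬ ∀ᶠ z in 𝓝 lam, g z = 0 := by
    intro h
    have h1 : lam ∈ closure (spectrum ℂ T)ᶜ := by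
      rw [frontier_eq_closure_inter_closure] at hl
      exact hl.2
    rw [mem_closure_iff_nhds] at h1
    obtain ⟨z, ⟨hz1, hz2⟩, hz3⟩ := h1 _ (inter_mem h (ball_mem_nhds lam hr))
    have : g z ≠ 0 := by
      rw [hg1 z hz3]
      exact pow_ne_zero 2 (inv_ne_zero (hf0 z hz2 hz3))
    exact this hz1
  obtain ⟨n, g₁, hg₁, hg₁0, hgn⟩ := (han.exists_eventuallyEq_pow_smul_nonzero_iff).2 hnz
  have hc : 0 < ‖g₁ lam‖ / 2 := by
    have := norm_pos_iff.2 hg₁0
    linarith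
  have hg₁c : ∀ᶠ z in 𝓝 lam, ‖g₁ lam‖ / 2 < ‖g₁ z‖ := by
    have : ContinuousAt (fun z => ‖g₁ z‖) lam := hg₁.continuousAt.norm
    exact this.eventually (lt_mem_nhds (by linarith))
  have hall : ∀ᶠ z in 𝓝 lam, (g z = (z - lam) ^ n • g₁ z ∧ ‖g₁ lam‖ / 2 < ‖g₁ z‖) ∧
      z ∈ ball lam (min r 1) :=
    (hgn.and hg₁c).and (ball_mem_nhds lam (by positivity))
  obtain ⟨ε, hε, hε'⟩ := Metric.eventually_nhds_iff.1 hall
  refine ⟨n, C ^ 2 / (‖g₁ lam‖ / 2) + 1, ε, hε, fun z hz0 hz1 => ?_⟩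
  obtain ⟨⟨hz2, hz3⟩, hz4⟩ := hε' (by rwa [dist_eq_norm] : dist z lam < ε)
  have hz5 : z ∈ ball lam r := ball_subset_ball (min_le_left _ _) hz4
  have hz6 : ‖z - lam‖ < 1 := by
    have := mem_ball.1 (ball_subset_ball (min_le_right r 1) hz4)
    rwa [dist_eq_norm] at this
  have hzs : z ∉ spectrum ℂ T := by
    intro h
    have h1 := hg0 z h
    rw [hz2] at h1
    rcases smul_eq_zero.1 h1 with h2 | h2
    · exact absurd h2 (pow_ne_zero n (norm_pos_iff.1 hz0))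
    · rw [h2, norm_zero] at hz3
      linarith
  refine ⟨hzs, ?_⟩
  have h1 := hgR z hz5 hzs
  rw [hz2, norm_smul, norm_pow] at h1
  have h2 : (‖z - lam‖ ^ n * (‖g₁ lam‖ / 2)) * ‖resolvent T z‖ ^ 2 ≤ C ^ 2 := by
    refine le_trans ?_ h1
    gcongr
  have h3 : ‖z - lam‖ ^ n * ‖resolvent T z‖ ^ 2 ≤ C ^ 2 / (‖g₁ lam‖ / 2) := by
    rw [le_div_iff₀ hc]
    linarith
  have h4 : ‖z - lam‖ ^ n ≤ 1 := pow_le_one₀ (norm_nonneg _) hz6.le
  have h5 : 0 ≤ ‖z - lam‖ ^ n := by positivity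
  have h6 : (‖resolvent T z‖ * ‖z - lam‖ ^ n) ^ 2 ≤ C ^ 2 / (‖g₁ lam‖ / 2) := by
    refine le_trans ?_ h3
    have : (‖resolvent T z‖ * ‖z - lam‖ ^ n) ^ 2
        = (‖z - lam‖ ^ n * ‖resolvent T z‖ ^ 2) * ‖z - lam‖ ^ n := by ring
    rw [this]
    exact mul_le_of_le_one_right (by positivity) h4
  nlinarith [sq_nonneg (‖resolvent T z‖ * ‖z - lam‖ ^ n - 1)]

end Pool.Agent.K4H47.TR
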