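import Mathlib

/-!
# Generic rank one perturbations: resolvents
-/

set_option autoImplicit false
set_option linter.unusedSectionVars false
set_option linter.deprecated false
open Metric Set Filter Topology

namespace Pool.Agent.K4H47.TR

variable {X : Type} [NormedAddCommGroup X] [NormedSpace ℂ X] [CompleteSpace X]

lemma isUnit_sub {T : X →L[ℂ] X} {z : ℂ} (hz : z ∉ spectrum ℂ T) :
    IsUnit (algebraMap ℂ (X →L[ℂ] X) z - T) := by
  simpa [spectrum.notMem_iff] using hz

lemma sub_mul_res {T : X →L[ℂ] X} {z : ℂ} (hz : z ∉ spectrum ℂ T) :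
    (algebraMap ℂ (X →L[ℂ] X) z - T) * resolvent T z = 1 :=
  Ring.mul_inverse_cancel _ (isUnit_sub hz)

lemma res_mul_sub {T : X →L[ℂ] X} {z : ℂ} (hz : z ∉ spectrum ℂ T) :
    resolvent T z * (algebraMap ℂ (X →L[ℂ] X) z - T) = 1 :=
  Ring.inverse_mul_cancel _ (isUnit_sub hz)

/-- `T R(z) x = z R(z) x - x` -/
lemma T_res {T : X →L[ℂ] X} {z : ℂ} (hz : z ∉ spectrum ℂ T) (x : X) :
    T (resolvent T z x) = z • resolvent T z x - x := by
  have h := congrArg (fun A : X →L[ℂ] X => A x) (sub_mul_res hz)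
  simp only [ContinuousLinearMap.mul_apply, ContinuousLinearMap.sub_apply,
    Algebra.algebraMap_eq_smul_one, ContinuousLinearMap.smul_apply,
    ContinuousLinearMap.one_apply] at h
  exact (sub_sub_self _ _).symm.trans (by rw [h])

/-- `R(z) T x = z R(z) x - x` -/
lemma res_T {T : X →L[ℂ] X} {z : ℂ} (hz : z ∉ spectrum ℂ T) (x : X) :
    resolvent T z (T x) = z • resolvent T z x - x := by
  have h := congrArg (fun A : X →L[ℂ] X => A x) (res_mul_sub hz)
  simp only [ContinuousLinearMap.mul_apply, ContinuousLinearMap.sub_apply,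
    Algebra.algebraMap_eq_smul_one, ContinuousLinearMap.smul_apply,
    ContinuousLinearMap.one_apply, map_sub, map_smul] at h
  exact (sub_sub_self _ _).symm.trans (by rw [h])

/-- the norm of the resolvent -/
lemma one_le_norm {T : X →L[ℂ] X} {z w : ℂ} (hz : z ∉ spectrum ℂ T) (hw : w ∈ spectrum ℂ T) :
    1 ≤ ‖z - w‖ * ‖resolvent T z‖ := by
  by_contra hlt
  push Not at hlt
  apply hw
  show IsUnit (algebraMap ℂ (X →L[ℂ] X) w - T)
  have h1 : ‖(z - w) • resolvent T z‖ < 1 := by rwa [norm_smul]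
  have h2 : IsUnit (1 - (z - w) • resolvent T z) := isUnit_one_sub_of_norm_lt_one h1
  have h3 : algebraMap ℂ (X →L[ℂ] X) w - T
      = (algebraMap ℂ (X →L[ℂ] X) z - T) * (1 - (z - w) • resolvent T z) := by
    rw [mul_sub, mul_one, mul_smul_comm, sub_mul_res hz, Algebra.algebraMap_eq_smul_one,
      Algebra.algebraMap_eq_smul_one, sub_smul]
    abel
  rw [h3]
  exact (isUnit_sub hz).mul h2

lemma norm_res_pos [Nontrivial X] {T : X →L[ℂ] X} {z : ℂ} (hz : z ∉ spectrum ℂ T) :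
    0 < ‖resolvent T z‖ := by
  rw [norm_pos_iff]
  intro h
  have := sub_mul_res hz
  rw [h, mul_zero] at this
  exact zero_ne_one this

/-- the function `v (R(z) u)` -/
noncomputable def hh (T : X →L[ℂ] X) (p : X × (X →L[ℂ] ℂ)) (z : ℂ) : ℂ := p.2 (resolvent T z p.1)

lemma differentiableAt_res {T : X →L[ℂ] X} {z : ℂ} (hz : z ∉ spectrum ℂ T) :
    DifferentiableAt ℂ (resolvent T) z :=
  (spectrum.hasDerivAt_resolvent_const_left (a := T) (k := z) (by
    rw [spectrum.mem_resolventSet_iff]; exact isUnit_sub hz)).differentiableAt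

lemma differentiableAt_hh {T : X →L[ℂ] X} (p : X × (X →L[ℂ] ℂ)) {z : ℂ} (hz : z ∉ spectrum ℂ T) :
    DifferentiableAt ℂ (hh T p) z := by
  have h : DifferentiableAt ℂ (fun z => resolvent T z p.1) z :=
    (differentiableAt_res hz).clm_apply (differentiableAt_const _)
  exact p.2.differentiableAt.comp z h

lemma norm_hh_le (T : X →L[ℂ] X) (p : X × (X →L[ℂ] ℂ)) (z : ℂ) :
    ‖hh T p z‖ ≤ ‖p.2‖ * (‖resolvent T z‖ * ‖p.1‖) :=
  (p.2.le_opNorm _).trans (mul_le_mul_of_nonneg_left ((resolvent T z).le_opNorm _) (norm_nonneg _))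

/-- joint continuity -/
lemma continuousAt_hh {T : X →L[ℂ] X} {p : X × (X →L[ℂ] ℂ)} {z : ℂ} (hz : z ∉ spectrum ℂ T) :
    ContinuousAt (fun q : (X × (X →L[ℂ] ℂ)) × ℂ => hh T q.1 q.2) (p, z) := by
  have h1 : ContinuousAt (fun q : (X × (X →L[ℂ] ℂ)) × ℂ => resolvent T q.2) (p, z) :=
    ContinuousAt.comp (f := fun q : (X × (X →L[ℂ] ℂ)) × ℂ => q.2) (x := (p, z))
      (differentiableAt_res hz).continuousAt continuousAt_snd
  have h2 : ContinuousAt (fun q : (X × (X →L[ℂ] ℂ)) × ℂ => resolvent T q.2 q.1.1) (p, z) :=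
    h1.clm_apply (by fun_prop)
  exact (by fun_prop : ContinuousAt (fun q : (X × (X →L[ℂ] ℂ)) × ℂ => q.1.2) (p, z)).clm_apply h2

/-- rank one operator -/
noncomputable def F1 (p : X × (X →L[ℂ] ℂ)) : X →L[ℂ] X := p.2.smulRight p.1

lemma F1_apply (p : X × (X →L[ℂ] ℂ)) (x : X) : F1 p x = p.2 x • p.1 := rfl

/-- eigenvectors -/
lemma eig {T : X →L[ℂ] X} {p : X × (X →L[ℂ] ℂ)} {z : ℂ} (hz : z ∉ spectrum ℂ T)
    (h : hh T p z = 1) :
    (T + F1 p) (resolvent T z p.1) = z • resolvent T z p.1 ∧ resolvent T z p.1 ≠ 0 := by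
  constructor
  · rw [ContinuousLinearMap.add_apply, F1_apply, T_res hz]
    have : p.2 (resolvent T z p.1) = 1 := h
    rw [this, one_smul]
    abel
  · intro h0
    have : p.2 (resolvent T z p.1) = 1 := h
    rw [h0, map_zero] at this
    exact zero_ne_one this

lemma eig_unique {T : X →L[ℂ] X} {p : X × (X →L[ℂ] ℂ)} {z : ℂ} (hz : z ∉ spectrum ℂ T)
    {y : X} (hy : (T + F1 p) y = z • y) : y = p.2 y • resolvent T z p.1 := by
  have h1 : (algebraMap ℂ (X →L[ℂ] X) z - T) y = p.2 y • p.1 := by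
    rw [ContinuousLinearMap.sub_apply, Algebra.algebraMap_eq_smul_one,
      ContinuousLinearMap.smul_apply, ContinuousLinearMap.one_apply, ← hy,
      ContinuousLinearMap.add_apply, F1_apply]
    abel
  have h2 : (resolvent T z : X →L[ℂ] X) ((algebraMap ℂ (X →L[ℂ] X) z - T) y)
      = p.2 y • resolvent T z p.1 := by rw [h1, map_smul]
  have h3 : resolvent T z ((algebraMap ℂ (X →L[ℂ] X) z - T) y) = y := by
    have := congrArg (fun A : X →L[ℂ] X => A y) (res_mul_sub hz)
    simpa using this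
  rw [← h2, h3]

/-- eigenfunctionals -/
lemma eigd {T : X →L[ℂ] X} {p : X × (X →L[ℂ] ℂ)} {z : ℂ} (hz : z ∉ spectrum ℂ T)
    (h : hh T p z = 1) (x : X) :
    p.2 (resolvent T z ((T + F1 p) x)) = z * p.2 (resolvent T z x) := by
  rw [ContinuousLinearMap.add_apply, F1_apply, map_add, map_smul, res_T hz, map_add, map_sub,
    map_smul, map_smul]
  have : p.2 (resolvent T z p.1) = 1 := h
  rw [this]
  simp

end Pool.Agent.K4H47.TR
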