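import Pool.Agent.K4H47.TR.Base
import Pool.Agent.Lev.J_schottky

/-!
# Generic rank one perturbations: Schottky's theorem
-/

set_option autoImplicit false
set_option linter.unusedSectionVars false
set_option linter.deprecated false
open Metric Set Filter Topology

namespace Pool.Agent.K4H47.TR

/-- Schottky's theorem for two omitted values in a compact set -/
lemma sch (M η M₁ : ℝ) (hη : 0 < η) : ∃ S : ℝ, 0 ≤ S ∧ M₁ ≤ S ∧ ∀ (f : ℂ → ℂ) (c : ℂ) (r : ℝ), 0 < r →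
    DifferentiableOn ℂ f (ball c r) → ∀ a b : ℂ, ‖a‖ ≤ M → ‖b‖ ≤ M → η ≤ ‖a - b‖ →
    (∀ z ∈ ball c r, f z ≠ a ∧ f z ≠ b) → ‖f c‖ ≤ M₁ → ∀ z ∈ ball c (r / 2), ‖f z‖ ≤ S := by
  obtain ⟨C, hC⟩ := Pool.Agent.Lev.J_schottky.main ((|M₁| + |M|) / η)
  refine ⟨|M₁| + |M| + 2 * |M| * |C|, by positivity, ?_, ?_⟩
  · have := le_abs_self M₁
    have h2 : 0 ≤ |M| + 2 * |M| * |C| := by positivity
    linarith
  intro f c r hr hf a b ha hb hab homit hfc z hz
  have hba : b - a ≠ 0 := by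
    intro h
    have : ‖a - b‖ = 0 := by rw [norm_sub_rev, h, norm_zero]
    linarith
  have hba' : η ≤ ‖b - a‖ := by rwa [norm_sub_rev]
  have h1 : DifferentiableOn ℂ (fun z => (f z - a) / (b - a)) (ball c r) :=
    (hf.sub_const a).div_const _
  have h2 : ∀ z ∈ ball c r, (f z - a) / (b - a) ≠ 0 ∧ (f z - a) / (b - a) ≠ 1 := by
    intro z hz
    obtain ⟨h3, h4⟩ := homit z hz
    refine ⟨div_ne_zero (sub_ne_zero.2 h3) hba, fun h5 => h4 ?_⟩
    rw [div_eq_one_iff_eq hba] at h5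
    linear_combination h5
  have hM : 0 ≤ |M| := abs_nonneg _
  have ha' : ‖a‖ ≤ |M| := ha.trans (le_abs_self _)
  have hb' : ‖b‖ ≤ |M| := hb.trans (le_abs_self _)
  have h3 : ‖(f c - a) / (b - a)‖ ≤ (|M₁| + |M|) / η := by
    rw [norm_div]
    have h4 : ‖f c - a‖ ≤ |M₁| + |M| :=
      (norm_sub_le _ _).trans (add_le_add (hfc.trans (le_abs_self _)) ha')
    exact div_le_div₀ (by positivity) h4 hη hba'
  have h4 := hC _ c r hr h1 h2 h3 z hz
  rw [norm_div, div_le_iff₀ (hη.trans_le hba')] at h4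
  have h5 : ‖b - a‖ ≤ 2 * |M| := (norm_sub_le _ _).trans (by linarith)
  have h6 : ‖f z‖ ≤ ‖f z - a‖ + ‖a‖ := by simpa using norm_add_le (f z - a) a
  have h7 : C * ‖b - a‖ ≤ |C| * (2 * |M|) :=
    (mul_le_mul_of_nonneg_right (le_abs_self C) (norm_nonneg _)).trans
      (mul_le_mul_of_nonneg_left h5 (abs_nonneg _))
  have h8 := abs_nonneg M₁
  linarith

end Pool.Agent.K4H47.TR
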