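import Pool.Agent.K4H47.TR.Sch

/-!
# Generic rank one perturbations: the growth of the resolvent at zeros
-/

set_option autoImplicit false
set_option linter.unusedSectionVars false
set_option linter.deprecated false
open Metric Set Filter Topology

namespace Pool.Agent.K4H47.TR

variable {X : Type} [NormedAddCommGroup X] [NormedSpace ℂ X] [CompleteSpace X]

lemma norm_le_of_dual {x : X} {C : ℝ} (h : ∀ b : X →L[ℂ] ℂ, ‖b‖ ≤ 1 → ‖b x‖ ≤ C) : ‖x‖ ≤ C := by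
  obtain ⟨b, hb1, hb2⟩ := exists_dual_vector'' ℂ x
  have := h b hb1
  rw [hb2] at this
  simpa using this

lemma norm_le_of_unit {F : Type} [NormedAddCommGroup F] [NormedSpace ℂ F] {f : X →L[ℂ] F} {C : ℝ}
    (hC : 0 ≤ C) (h : ∀ a : X, ‖a‖ ≤ 1 → ‖f a‖ ≤ C) : ‖f‖ ≤ C :=
  ContinuousLinearMap.opNorm_le_of_unit_norm (𝕜 := ℂ) hC fun a ha => h a ha.le

lemma Z_res {T : X →L[ℂ] X} {z : ℂ} (hz : z ∉ spectrum ℂ T) (x : X) :
    (algebraMap ℂ (X →L[ℂ] X) z - T) (resolvent T z x) = x := by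
  have := congrArg (fun A : X →L[ℂ] X => A x) (sub_mul_res hz)
  simpa using this

lemma Z_apply (T : X →L[ℂ] X) (z z₁ : ℂ) (x : X) : (algebraMap ℂ (X →L[ℂ] X) z - T) x
    = (algebraMap ℂ (X →L[ℂ] X) z₁ - T) x + (z - z₁) • x := by
  simp only [ContinuousLinearMap.sub_apply, Algebra.algebraMap_eq_smul_one,
    ContinuousLinearMap.smul_apply, ContinuousLinearMap.one_apply, sub_smul]
  abel

/-- the abstract growth estimate -/
lemma growth_abs {E : Type} [NormedAddCommGroup E] [NormedSpace ℂ E] {w e : E} {φ : ℂ → ℂ}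
    {z₁ : ℂ} {ρ K C : ℝ} (hρ : 0 < ρ) (hφ : ∀ z ∈ closedBall z₁ ρ, DifferentiableAt ℂ φ z)
    (hφ1 : φ z₁ = 1) (hC : 0 ≤ C)
    (h : ∀ z ∈ sphere z₁ ρ, ‖(φ z * (z - z₁)) • w - (1 - φ z) • e‖ ≤ C) (he : ‖e‖ ≤ K) :
    ‖w‖ ≤ (2 * K + C) / ρ := by
  have hdc : DiffContOnCl ℂ φ (ball z₁ ρ) := by
    constructor
    · exact fun z hz => (hφ z (ball_subset_closedBall hz)).differentiableWithinAt
    · rw [closure_ball z₁ hρ.ne']
      exact fun z hz => (hφ z hz).continuousAt.continuousWithinAt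
  obtain ⟨y, hy, hmax⟩ := (isCompact_sphere z₁ ρ).exists_isMaxOn
    (NormedSpace.sphere_nonempty.2 hρ.le) (f := fun z => ‖φ z‖) (fun z hz =>
      ((hφ z (sphere_subset_closedBall hz)).continuousAt.norm).continuousWithinAt)
  have h1 := Complex.norm_le_of_forall_mem_frontier_norm_le isBounded_ball hdc
    (C := ‖φ y‖) (by
      intro z hz
      rw [frontier_ball z₁ hρ.ne'] at hz
      exact hmax hz) (subset_closure (mem_ball_self hρ))
  rw [hφ1, norm_one] at h1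
  have h2 := h y hy
  have h3 : ‖y - z₁‖ = ρ := by
    rw [← dist_eq_norm]
    exact hy
  have h4 : ‖(φ y * (y - z₁)) • w‖ ≤ C + ‖(1 - φ y) • e‖ := by
    have := norm_add_le ((φ y * (y - z₁)) • w - (1 - φ y) • e) ((1 - φ y) • e)
    rw [sub_add_cancel] at this
    linarith
  rw [norm_smul, norm_smul, norm_mul, h3] at h4
  have h5 : ‖1 - φ y‖ ≤ 1 + ‖φ y‖ := by
    have := norm_sub_le (1 : ℂ) (φ y)
    rwa [norm_one] at this
  have hK : 0 ≤ K := (norm_nonneg _).trans he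
  have h6 : ‖1 - φ y‖ * ‖e‖ ≤ (1 + ‖φ y‖) * K :=
    mul_le_mul h5 he (norm_nonneg _) (by positivity)
  rw [le_div_iff₀ hρ]
  have h7 : ‖φ y‖ * (‖w‖ * ρ) ≤ ‖φ y‖ * (2 * K + C) := by
    nlinarith
  exact le_of_mul_le_mul_left h7 (by linarith)

/-- the pairs in the large ball -/
def InB (u₀ : X) (v₀ : X →L[ℂ] ℂ) (ε : ℝ) (p : X × (X →L[ℂ] ℂ)) : Prop :=
  ‖p.1 - u₀‖ < ε ∧ ‖p.2 - v₀‖ < ε

lemma InB.add {u₀ : X} {v₀ : X →L[ℂ] ℂ} {ε ε' : ℝ} {u : X} {v : X →L[ℂ] ℂ}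
    (h : InB u₀ v₀ ε (u, v)) {a : X} {b : X →L[ℂ] ℂ} (ha : ‖a‖ ≤ ε') (hb : ‖b‖ ≤ ε') :
    InB u₀ v₀ (ε + ε') (u + a, v + b) := by
  constructor
  · have e : u + a - u₀ = (u - u₀) + a := by abel
    show ‖u + a - u₀‖ < _
    rw [e]
    exact (norm_add_le _ _).trans_lt (add_lt_add_of_lt_of_le h.1 ha)
  · have e : v + b - v₀ = (v - v₀) + b := by abel
    show ‖v + b - v₀‖ < _
    rw [e]
    exact (norm_add_le _ _).trans_lt (add_lt_add_of_lt_of_le h.2 hb)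

lemma InB.mono {u₀ : X} {v₀ : X →L[ℂ] ℂ} {ε ε' : ℝ} {p : X × (X →L[ℂ] ℂ)}
    (h : InB u₀ v₀ ε p) (hε : ε ≤ ε') : InB u₀ v₀ ε' p := ⟨h.1.trans_le hε, h.2.trans_le hε⟩

/-- the situation near a point `z₁` -/
structure Ctx (T : X →L[ℂ] X) (u₀ : X) (v₀ : X →L[ℂ] ℂ) (δ K CT : ℝ) (S : ℝ → ℝ) (z₁ : ℂ)
    (d : ℝ) : Prop where
  hδ : 0 < δ
  hK : ∀ p, InB u₀ v₀ (4 * δ) p → ‖p.1‖ ≤ K ∧ ‖p.2‖ ≤ K
  hK1 : 1 ≤ K
  hd : 0 < d
  hd1 : d ≤ 1
  hball : ∀ z ∈ ball z₁ d, z ∉ spectrum ℂ T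
  hCT : ∀ z ∈ ball z₁ d, ‖algebraMap ℂ (X →L[ℂ] X) z - T‖ ≤ CT
  hCT0 : 0 ≤ CT
  hS : ∀ M₁ : ℝ, ∀ p, InB u₀ v₀ (4 * δ) p → ‖hh T p z₁‖ ≤ M₁ →
    ∀ z ∈ ball z₁ (d / 2), ‖hh T p z‖ ≤ S M₁
  hS0 : 0 ≤ S 0

namespace Ctx

variable {T : X →L[ℂ] X} {u₀ : X} {v₀ : X →L[ℂ] ℂ} {δ K CT : ℝ} {S : ℝ → ℝ} {z₁ : ℂ} {d : ℝ}

lemma z1 (h : Ctx T u₀ v₀ δ K CT S z₁ d) : z₁ ∉ spectrum ℂ T := h.hball z₁ (mem_ball_self h.hd)

lemma mem (h : Ctx T u₀ v₀ δ K CT S z₁ d) {z : ℂ} (hz : z ∈ closedBall z₁ (d / 4)) :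
    z ∈ ball z₁ (d / 2) ∧ z ∈ ball z₁ d ∧ z ∉ spectrum ℂ T := by
  have hd := h.hd
  have h1 : z ∈ ball z₁ (d / 2) := closedBall_subset_ball (by linarith) hz
  have h2 : z ∈ ball z₁ d := ball_subset_ball (by linarith) h1
  exact ⟨h1, h2, h.hball z h2⟩

/-- functionals which vanish at `R(z₁) u` -/
lemma small_u (h : Ctx T u₀ v₀ δ K CT S z₁ d) {u : X} {v : X →L[ℂ] ℂ}
    (hp : InB u₀ v₀ (3 * δ) (u, v)) (h0 : v (resolvent T z₁ u) = 0) {b : X →L[ℂ] ℂ}
    (hb : ‖b‖ ≤ 3) (hb0 : b (resolvent T z₁ u) = 0) {z : ℂ} (hz : z ∈ closedBall z₁ (d / 4)) :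
    ‖b (resolvent T z u)‖ ≤ 6 * S 0 / δ := by
  have hδ := h.hδ
  set b' : X →L[ℂ] ℂ := ((δ / 3 : ℝ) : ℂ) • b with hb'
  have hn : ‖((δ / 3 : ℝ) : ℂ)‖ = δ / 3 := by
    rw [Complex.norm_real, Real.norm_eq_abs, abs_of_pos (by positivity)]
  have hb'1 : ‖b'‖ ≤ δ := by
    rw [hb', norm_smul, hn]
    nlinarith
  have hq : InB u₀ v₀ (4 * δ) (u + 0, v + b') :=
    (hp.add (ε' := δ) (by simpa using hδ.le) hb'1).mono (by linarith)
  rw [add_zero] at hq
  have h1 : hh T (u, v + b') z₁ = 0 := by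
    show (v + b') (resolvent T z₁ u) = 0
    rw [ContinuousLinearMap.add_apply, h0, hb', ContinuousLinearMap.smul_apply, hb0, smul_zero,
      add_zero]
  have h2 := h.hS 0 _ hq (by rw [h1, norm_zero]) z (h.mem hz).1
  have h3 := h.hS 0 _ (hp.mono (by linarith : 3 * δ ≤ 4 * δ)) (by
    show ‖v (resolvent T z₁ u)‖ ≤ 0
    rw [h0, norm_zero]) z (h.mem hz).1
  have h4 : ((δ / 3 : ℝ) : ℂ) * b (resolvent T z u) = hh T (u, v + b') z - hh T (u, v) z := by
    show _ = (v + b') (resolvent T z u) - v (resolvent T z u)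
    rw [ContinuousLinearMap.add_apply, hb', ContinuousLinearMap.smul_apply, smul_eq_mul]
    ring
  have h5 : δ / 3 * ‖b (resolvent T z u)‖ ≤ 2 * S 0 := by
    have : ‖((δ / 3 : ℝ) : ℂ) * b (resolvent T z u)‖ ≤ 2 * S 0 := by
      rw [h4]
      exact (norm_sub_le _ _).trans (by linarith)
    rwa [norm_mul, hn] at this
  rw [le_div_iff₀ hδ]
  linarith

/-- vectors at which `v ∘ R(z₁)` vanishes -/
lemma small_v (h : Ctx T u₀ v₀ δ K CT S z₁ d) {u : X} {v : X →L[ℂ] ℂ}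
    (hp : InB u₀ v₀ (3 * δ) (u, v)) (h0 : v (resolvent T z₁ u) = 0) {a : X}
    (ha : ‖a‖ ≤ 3) (ha0 : v (resolvent T z₁ a) = 0) {z : ℂ} (hz : z ∈ closedBall z₁ (d / 4)) :
    ‖v (resolvent T z a)‖ ≤ 6 * S 0 / δ := by
  have hδ := h.hδ
  set a' : X := ((δ / 3 : ℝ) : ℂ) • a with ha'
  have hn : ‖((δ / 3 : ℝ) : ℂ)‖ = δ / 3 := by
    rw [Complex.norm_real, Real.norm_eq_abs, abs_of_pos (by positivity)]
  have ha'1 : ‖a'‖ ≤ δ := by
    rw [ha', norm_smul, hn]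
    nlinarith
  have hq : InB u₀ v₀ (4 * δ) (u + a', v + 0) :=
    (hp.add (ε' := δ) ha'1 (by simpa using hδ.le)).mono (by linarith)
  rw [add_zero] at hq
  have h1 : hh T (u + a', v) z₁ = 0 := by
    show v (resolvent T z₁ (u + a')) = 0
    rw [map_add, map_add, h0, ha', map_smul, map_smul, ha0, smul_zero, add_zero]
  have h2 := h.hS 0 _ hq (by rw [h1, norm_zero]) z (h.mem hz).1
  have h3 := h.hS 0 _ (hp.mono (by linarith : 3 * δ ≤ 4 * δ)) (by
    show ‖v (resolvent T z₁ u)‖ ≤ 0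
    rw [h0, norm_zero]) z (h.mem hz).1
  have h4 : ((δ / 3 : ℝ) : ℂ) * v (resolvent T z a) = hh T (u + a', v) z - hh T (u, v) z := by
    show _ = v (resolvent T z (u + a')) - v (resolvent T z u)
    rw [map_add, map_add, ha', map_smul, map_smul, smul_eq_mul]
    ring
  have h5 : δ / 3 * ‖v (resolvent T z a)‖ ≤ 2 * S 0 := by
    have : ‖((δ / 3 : ℝ) : ℂ) * v (resolvent T z a)‖ ≤ 2 * S 0 := by
      rw [h4]
      exact (norm_sub_le _ _).trans (by linarith)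
    rwa [norm_mul, hn] at this
  rw [le_div_iff₀ hδ]
  linarith

/-- `R(z) u = φ(z) R(z₁) u + O(1)` -/
lemma approx_u (h : Ctx T u₀ v₀ δ K CT S z₁ d) {u : X} {v : X →L[ℂ] ℂ}
    (hp : InB u₀ v₀ (3 * δ) (u, v)) (h0 : v (resolvent T z₁ u) = 0) {b₀ : X →L[ℂ] ℂ}
    (hb₀ : ‖b₀‖ = 1) (hb₀w : b₀ (resolvent T z₁ u) = ‖resolvent T z₁ u‖)
    (hw : resolvent T z₁ u ≠ 0) {z : ℂ} (hz : z ∈ closedBall z₁ (d / 4)) :
    ‖resolvent T z u - (b₀ (resolvent T z u) / ‖resolvent T z₁ u‖) • resolvent T z₁ u‖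
      ≤ 6 * S 0 / δ := by
  set w := resolvent T z₁ u with hwdef
  have hw0 : 0 < ‖w‖ := norm_pos_iff.2 hw
  have hw0' : ((‖w‖ : ℝ) : ℂ) ≠ 0 := Complex.ofReal_ne_zero.2 hw0.ne'
  refine norm_le_of_dual fun b hb => ?_
  set b' : X →L[ℂ] ℂ := b - (b w / ‖w‖) • b₀ with hb'
  have hb'n : ‖b'‖ ≤ 3 := by
    refine (norm_sub_le _ _).trans ?_
    rw [norm_smul, hb₀, norm_div, Complex.norm_real, norm_norm]
    have h1 : ‖b w‖ / ‖w‖ ≤ 1 := by
      rw [div_le_one hw0]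
      exact (b.le_opNorm w).trans (by nlinarith)
    linarith
  have hb'0 : b' w = 0 := by
    rw [hb', ContinuousLinearMap.sub_apply, ContinuousLinearMap.smul_apply, hb₀w, smul_eq_mul,
      div_mul_cancel₀ _ hw0', sub_self]
  have h1 := h.small_u hp h0 hb'n hb'0 hz
  have h2 : b (resolvent T z u - (b₀ (resolvent T z u) / ‖w‖) • w) = b' (resolvent T z u) := by
    rw [map_sub, map_smul, hb', ContinuousLinearMap.sub_apply, ContinuousLinearMap.smul_apply,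
      smul_eq_mul, smul_eq_mul]
    ring
  rw [h2]
  exact h1

/-- the growth of `R(z₁) u` -/
lemma growth_u (h : Ctx T u₀ v₀ δ K CT S z₁ d) {u : X} {v : X →L[ℂ] ℂ}
    (hp : InB u₀ v₀ (3 * δ) (u, v)) (h0 : v (resolvent T z₁ u) = 0) :
    ‖resolvent T z₁ u‖ ≤ 4 * (2 * K + CT * (6 * S 0 / δ)) / d := by
  have hδ := h.hδ
  have hd := h.hd
  have hS0 := h.hS0
  have hCT0 := h.hCT0
  have hK1 := h.hK1
  have hC : 0 ≤ CT * (6 * S 0 / δ) := by positivity
  by_cases hw : resolvent T z₁ u = 0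
  · rw [hw, norm_zero]
    positivity
  obtain ⟨b₀, hb₀, hb₀w⟩ := exists_dual_vector ℂ (resolvent T z₁ u) (norm_ne_zero_iff.2 hw)
  have hw0 : 0 < ‖resolvent T z₁ u‖ := norm_pos_iff.2 hw
  have hw0' : ((‖resolvent T z₁ u‖ : ℝ) : ℂ) ≠ 0 := Complex.ofReal_ne_zero.2 hw0.ne'
  have h1 := growth_abs (w := resolvent T z₁ u) (e := u)
    (φ := fun z => b₀ (resolvent T z u) / ‖resolvent T z₁ u‖) (z₁ := z₁) (ρ := d / 4) (K := K)
    (C := CT * (6 * S 0 / δ)) (by positivity) (fun z hz =>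
      (differentiableAt_hh (u, b₀) (h.mem hz).2.2).div_const _) (by
      show b₀ (resolvent T z₁ u) / ‖resolvent T z₁ u‖ = 1
      rw [hb₀w]
      exact div_self hw0') hC (fun z hz => by
      have hz' := sphere_subset_closedBall hz
      have h2 := h.approx_u hp h0 hb₀ hb₀w hw hz'
      set φz := b₀ (resolvent T z u) / ‖resolvent T z₁ u‖ with hφz
      have h3 : (algebraMap ℂ (X →L[ℂ] X) z - T) (resolvent T z u - φz • resolvent T z₁ u)
          = -((φz * (z - z₁)) • resolvent T z₁ u - (1 - φz) • u) := by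
        rw [map_sub, map_smul, Z_res (h.mem hz').2.2, Z_apply T z z₁, Z_res h.z1, smul_add,
          smul_smul, sub_smul, one_smul]
        abel
      have h4 : ‖(φz * (z - z₁)) • resolvent T z₁ u - (1 - φz) • u‖
          = ‖(algebraMap ℂ (X →L[ℂ] X) z - T) (resolvent T z u - φz • resolvent T z₁ u)‖ := by
        rw [h3, norm_neg]
      show ‖(φz * (z - z₁)) • resolvent T z₁ u - (1 - φz) • u‖ ≤ _
      rw [h4]
      refine (ContinuousLinearMap.le_opNorm _ _).trans ?_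
      exact mul_le_mul (h.hCT z (h.mem hz').2.1) h2 (norm_nonneg _) hCT0)
    (h.hK _ (hp.mono (by linarith))).1
  refine h1.trans (le_of_eq ?_)
  field_simp

/-- the growth of `v ∘ R(z₁)` -/
lemma growth_v (h : Ctx T u₀ v₀ δ K CT S z₁ d) {u : X} {v : X →L[ℂ] ℂ}
    (hp : InB u₀ v₀ (3 * δ) (u, v)) (h0 : v (resolvent T z₁ u) = 0) :
    ‖v.comp (resolvent T z₁)‖ ≤ 4 * (2 * K + CT * (6 * S 0 / δ)) / d := by
  have hδ := h.hδ
  have hd := h.hd
  have hS0 := h.hS0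
  have hCT0 := h.hCT0
  have hK1 := h.hK1
  have hC : 0 ≤ CT * (6 * S 0 / δ) := by positivity
  set l : X →L[ℂ] ℂ := v.comp (resolvent T z₁) with hl
  by_cases hw : l = 0
  · rw [hw, norm_zero]
    positivity
  have hw0 : 0 < ‖l‖ := norm_pos_iff.2 hw
  obtain ⟨a₀, ha₀, ha₀l⟩ : ∃ a₀ : X, ‖a₀‖ ≤ 1 ∧ ‖l‖ / 2 ≤ ‖l a₀‖ := by
    by_contra hall
    push Not at hall
    have : ‖l‖ ≤ ‖l‖ / 2 := norm_le_of_unit (by positivity) fun a ha => (hall a ha).le
    linarith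
  have hla : l a₀ ≠ 0 := by
    intro h1
    rw [h1, norm_zero] at ha₀l
    linarith
  have h1 := growth_abs (w := l) (e := v)
    (φ := fun z => v (resolvent T z a₀) / l a₀) (z₁ := z₁) (ρ := d / 4) (K := K)
    (C := CT * (6 * S 0 / δ)) (by positivity) (fun z hz =>
      (differentiableAt_hh (a₀, v) (h.mem hz).2.2).div_const _) (by
      show l a₀ / l a₀ = 1
      exact div_self hla) hC (fun z hz => by
      have hz' := sphere_subset_closedBall hz
      set φz := v (resolvent T z a₀) / l a₀ with hφz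
      have h2 : ‖v.comp (resolvent T z) - φz • l‖ ≤ 6 * S 0 / δ := by
        refine norm_le_of_unit (by positivity) fun a ha => ?_
        set a' : X := a - (l a / l a₀) • a₀ with ha'
        have h3 : ‖a'‖ ≤ 3 := by
          refine (norm_sub_le _ _).trans ?_
          rw [norm_smul, norm_div]
          have h4 : ‖l a‖ / ‖l a₀‖ ≤ 2 := by
            rw [div_le_iff₀ (norm_pos_iff.2 hla)]
            have h5 : ‖l a‖ ≤ ‖l‖ * ‖a‖ := l.le_opNorm a
            have h6 : ‖l‖ * ‖a‖ ≤ ‖l‖ * 1 := mul_le_mul_of_nonneg_left ha hw0.le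
            linarith
          have h5 : ‖l a‖ / ‖l a₀‖ * ‖a₀‖ ≤ 2 * 1 :=
            mul_le_mul h4 ha₀ (norm_nonneg _) (by norm_num)
          linarith
        have h4 : v (resolvent T z₁ a') = 0 := by
          show l a' = 0
          rw [ha', map_sub, map_smul, smul_eq_mul, div_mul_cancel₀ _ hla, sub_self]
        have h5 := h.small_v hp h0 h3 h4 hz'
        have h6 : (v.comp (resolvent T z) - φz • l) a = v (resolvent T z a') := by
          rw [ha', map_sub, map_smul, map_sub, map_smul, ContinuousLinearMap.sub_apply,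
            ContinuousLinearMap.smul_apply, ContinuousLinearMap.comp_apply, smul_eq_mul,
            smul_eq_mul, hφz]
          ring
        rw [h6]
        exact h5
      have h3 : (v.comp (resolvent T z) - φz • l).comp (algebraMap ℂ (X →L[ℂ] X) z - T)
          = -((φz * (z - z₁)) • l - (1 - φz) • v) := by
        ext a
        have e1 : v (resolvent T z ((algebraMap ℂ (X →L[ℂ] X) z - T) a)) = v a := by
          rw [res_surj (h.mem hz').2.2]
        have e2 : l ((algebraMap ℂ (X →L[ℂ] X) z - T) a) = v a + (z - z₁) * l a := by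
          rw [Z_apply T z z₁, map_add, map_smul, smul_eq_mul]
          congr 1
          show v (resolvent T z₁ ((algebraMap ℂ (X →L[ℂ] X) z₁ - T) a)) = v a
          rw [res_surj h.z1]
        simp only [ContinuousLinearMap.comp_apply, ContinuousLinearMap.sub_apply (v.comp _),
          ContinuousLinearMap.smul_apply, ContinuousLinearMap.neg_apply, smul_eq_mul,
          ContinuousLinearMap.sub_apply ((φz * (z - z₁)) • l)]
        rw [e1, e2]
        ring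
      have h4 : ‖(φz * (z - z₁)) • l - (1 - φz) • v‖
          = ‖(v.comp (resolvent T z) - φz • l).comp (algebraMap ℂ (X →L[ℂ] X) z - T)‖ := by
        rw [h3, norm_neg]
      show ‖(φz * (z - z₁)) • l - (1 - φz) • v‖ ≤ _
      rw [h4]
      refine (ContinuousLinearMap.opNorm_comp_le _ _).trans ?_
      rw [mul_comm]
      exact mul_le_mul (h.hCT z (h.mem hz').2.1) h2 (norm_nonneg _) hCT0)
    (h.hK _ (hp.mono (by linarith))).2
  refine h1.trans (le_of_eq ?_)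
  field_simp

end Ctx

end Pool.Agent.K4H47.TR
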